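import Pool.Agent.R399.TM.Expt
import Pool.Agent.R399.TW.Fam

/-!
# Families and the tail estimate
-/

set_option autoImplicit false

namespace Pool.Agent.R399.TM

open Finset Filter Topology Complex MeasureTheory NumberField
open ArithmeticFunction (vonMangoldt)
open Pool.Agent.Y767.CA (GGc FEc CD cf Gd eps_of summable_lin)
open Pool.Agent.Y767 (IsHecke FEn GGn eq_of_LI card_places)
open Pool.Agent.Y773 (LI cc absNorm_span_nat mul_span_ne_top)
open Pool.Agent.R399.TW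
open scoped ComplexConjugate

/-- a family of twists -/
def Fo (m N : ℕ) (L : (q : ℕ) → DirichletCharacter ℂ q → ℂ → ℂ) : Prop :=
  ∃ (c : ℕ → ℂ) (R₀ V C : ℝ), 0 ≤ R₀ ∧ 0 ≤ V ∧ Lin c ∧ Sqb c C ∧
    ∀ (q : ℕ) (χ : DirichletCharacter ℂ q), 2 ≤ q → Nat.Coprime q N → χ.IsPrimitive →
      Differentiable ℂ (L q χ) ∧ ∃ F : ℂ → ℂ, Mem c (R₀ * (q : ℝ) ^ m) V m (chs χ) F ∧
        ∃ E : ℂ → ℂ, Differentiable ℂ E ∧ ∀ s, F s = L q χ s * E s

section

variable {K : Type} [Field K] [NumberField K] [IsTotallyReal K]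

/-- the family of twists of a Hecke character -/
theorem fo_hecke {𝔣 : Ideal (𝓞 K)} {ν : InfinitePlace K → ℝ} {ψ : Ideal (𝓞 K) →*₀ ℂ}
    (hψ : IsHecke K 𝔣 ν ψ) (hν : ∑ w, ν w = 0)
    {L : (q : ℕ) → DirichletCharacter ℂ q → ℂ → ℂ}
    (hL : ∀ (q : ℕ) (χ : DirichletCharacter ℂ q), 2 ≤ q →
      Nat.Coprime q (Ideal.absNorm 𝔣 * (discr K).natAbs) → χ.IsPrimitive →
      Differentiable ℂ (L q χ) ∧ ∀ s : ℂ, 1 < s.re → L q χ s = LI (Pool.Agent.Y773.tw ψ χ) s) :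
    Fo (Module.finrank ℚ K) (Ideal.absNorm 𝔣 * (discr K).natAbs) L := by
  obtain ⟨A₀, hA₀, hD⟩ := Pool.Agent.Y772.DK.t_dirK K
  obtain ⟨-, -, -, -, -, -, b1, -, -, -, -⟩ := hD ψ (Pool.Agent.Y772.HI.hm_norm_le hψ.toIsHM)
  have hLin : Lin (cc ψ) := by
    intro σ hσ
    refine Summable.of_nonneg_of_le (fun n => ?_) (fun n => ?_)
      ((Pool.Agent.Y767.CA.summable_vm hσ).mul_left (Module.finrank ℚ K : ℝ))
    · have := vm_nn n
      positivity
    · have h1 := vm_nn n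
      have h2 := b1 n
      calc vonMangoldt n * ‖cc ψ n‖ * (n : ℝ) ^ (-σ)
          ≤ vonMangoldt n * (Module.finrank ℚ K : ℝ) * (n : ℝ) ^ (-σ) := by gcongr
        _ = _ := by ring
  have hS0 : (0 : ℝ) ≤ ∑ w, |ν w| := Finset.sum_nonneg fun _ _ => abs_nonneg _
  have hνS : ∀ w, |ν w| ≤ ∑ w, |ν w| := fun w =>
    Finset.single_le_sum (f := fun w => |ν w|) (fun _ _ => abs_nonneg _) (Finset.mem_univ w)
  set V : ℝ := 4 + ∑ w, |ν w| with hV
  refine ⟨cc ψ, ((Ideal.absNorm 𝔣 * Ideal.absNorm (differentIdeal ℤ (𝓞 K)) : ℕ) : ℝ),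
    3 * (1 + V), _, Nat.cast_nonneg _, by linarith, hLin, sqb_of_bdd b1, ?_⟩
  intro q χ hq hqN hχ
  have htw : IsHecke K (𝔣 * Ideal.span {(q : 𝓞 K)}) ν (Pool.Agent.Y773.tw ψ χ) := by
    refine Pool.Agent.Y772.HI.tw_hecke hψ χ (by omega) hχ ?_ ?_
    · exact Nat.Coprime.coprime_dvd_right (dvd_mul_right _ _) hqN
    · have h1 : Nat.Coprime q (discr K).natAbs :=
        Nat.Coprime.coprime_dvd_right (dvd_mul_left _ _) hqN
      rw [Int.isCoprime_iff_gcd_eq_one]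
      simpa [Int.gcd] using h1
  obtain ⟨hd, hs⟩ := hL q χ hq hqN hχ
  have hψ1 := Pool.Agent.Y772.HI.hm_norm_le htw.toIsHM
  obtain ⟨-, d2, d3, d4, -, -, -, -, -, -, -⟩ := hD (Pool.Agent.Y773.tw ψ χ) hψ1
  obtain ⟨-, -, -, -, -, -, -, -, -, -, d11⟩ := hD ψ (Pool.Agent.Y772.HI.hm_norm_le hψ.toIsHM)
  obtain ⟨e, G, hG, hGL⟩ := htw.fe hν (mul_span_ne_top hq)
  have hFG : L q χ = G := eq_of_LI hd hG.diff (fun s h => by rw [hs s h, hGL s h])
  rw [← hFG] at hG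
  have hFE := fec_of_fen hG
  -- the conductor
  have hRe : ((Ideal.absNorm (𝔣 * Ideal.span {(q : 𝓞 K)}) *
      Ideal.absNorm (differentIdeal ℤ (𝓞 K)) : ℕ) : ℝ) =
      ((Ideal.absNorm 𝔣 * Ideal.absNorm (differentIdeal ℤ (𝓞 K)) : ℕ) : ℝ) *
        (q : ℝ) ^ (Module.finrank ℚ K) := by
    rw [map_mul, absNorm_span_nat]
    push_cast
    ring
  have hR : (0 : ℝ) < ((Ideal.absNorm 𝔣 * Ideal.absNorm (differentIdeal ℤ (𝓞 K)) : ℕ) : ℝ) *
        (q : ℝ) ^ (Module.finrank ℚ K) := by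
    have h1 : 0 < Ideal.absNorm 𝔣 := Nat.pos_of_ne_zero fun h =>
      hψ.ne_bot (Ideal.absNorm_eq_zero_iff.1 h)
    have h2 : 0 < Ideal.absNorm (differentIdeal ℤ (𝓞 K)) := Nat.pos_of_ne_zero fun h =>
      differentIdeal_ne_bot (Ideal.absNorm_eq_zero_iff.1 h)
    have h3 : (0 : ℝ) < ((Ideal.absNorm 𝔣 * Ideal.absNorm (differentIdeal ℤ (𝓞 K)) : ℕ) : ℝ) := by
      exact_mod_cast Nat.mul_pos h1 h2
    have h4 : (0 : ℝ) < q := by exact_mod_cast (show 0 < q by omega)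
    positivity
  rw [hRe] at hFE
  have hμre : ∀ i, (((e i : ℕ) : ℂ) + I * ((-ν i : ℝ) : ℂ)).re = e i := fun i => by simp
  have hmem : Mem (cc ψ) (((Ideal.absNorm 𝔣 * Ideal.absNorm (differentIdeal ℤ (𝓞 K)) : ℕ) : ℝ) *
      (q : ℝ) ^ (Module.finrank ℚ K)) (3 * (1 + V)) (Fintype.card (InfinitePlace K)) (chs χ)
      (L q χ) := by
    refine mem_of_fec hR (μ := fun i => ((e i : ℕ) : ℂ) + I * ((-ν i : ℝ) : ℂ)) (fun i => ?_)
      (fun i => ?_) (by linarith) hFE hLin (chs_mul χ) (chs_one χ) (chs_le χ) ?_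
    · rw [hμre]
      have : (0 : ℝ) ≤ e i := Nat.cast_nonneg _
      linarith
    · have h1 : ‖((e i : ℕ) : ℂ) + I * ((-ν i : ℝ) : ℂ)‖ ≤ 1 + |ν i| := by
        refine (norm_add_le _ _).trans ?_
        rw [Complex.norm_natCast, norm_mul, Complex.norm_I, one_mul, Complex.norm_real,
          Real.norm_eq_abs, abs_neg]
        have : (e i : ℝ) ≤ 1 := by exact_mod_cast hG.he i
        linarith
      have := hνS i
      rw [hV]
      linarith
    · refine ser_of_ld hLin (chs_one χ) (chs_mul χ) (chs_le χ) (fun s _ => hd s)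
        (fun s h => by rw [hs s h]; exact d3 s h) (fun s h => ?_) ?_
      · have h5 : deriv (L q χ) s = deriv (LI (Pool.Agent.Y773.tw ψ χ)) s := by
          refine Filter.EventuallyEq.deriv_eq ?_
          have h6 : {z : ℂ | 1 < z.re} ∈ 𝓝 s :=
            (isOpen_lt continuous_const Complex.continuous_re).mem_nhds h
          filter_upwards [h6] with z hz
          exact hs z hz
        rw [h5, hs s h, d4 s h]
        congr 1
        refine tsum_congr fun n => ?_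
        rw [d11 q χ n]
        rfl
      · have h7 := Pool.Agent.Y772.DK.LA_tendsto (K := K)
          (a := fun 𝔞 => (Pool.Agent.Y773.tw ψ χ) 𝔞) (map_zero _) hψ1
        simp only [map_one] at h7
        refine h7.congr' ?_
        filter_upwards [eventually_gt_atTop 1] with x hx
        rw [hs _ (by simpa using hx)]
        rfl
  rw [card_places] at hmem
  exact ⟨hd, L q χ, hmem, fun _ => 1, differentiable_const _, fun s => by rw [mul_one]⟩

end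

/-- the family of twists of a cuspidal representation -/
theorem fo_cd {m : ℕ} (D : CD m) : Fo m D.N D.Λ := by
  have hL : Lin (cf D.α) := fun σ hσ => summable_lin D.rs_sum hσ
  obtain ⟨C, hC⟩ := sqb_of_lim D.rs_sum D.rs_lim
  have hW := D.W_ge
  refine ⟨cf D.α, D.N, 3 * (1 + (D.W + 2)), C, Nat.cast_nonneg _, by linarith, hL, hC, ?_⟩
  intro q χ hq hN hχ
  have hR := D.R_pos hq
  have hmem : Mem (cf D.α) (D.R q) (3 * (1 + (D.W + 2))) (Fintype.card (Fin m)) (chs χ)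
      (D.F q χ) := by
    refine mem_of_fec hR (μ := D.μ (χ (-1))) (D.μ_re _ (eps_of χ))
      (fun i => by linarith [D.norm_μ (eps_of χ) i]) (by linarith) (cd_fec D χ hq hN hχ) hL
      (chs_mul χ) (chs_one χ) (chs_le χ) ?_
    refine ser_of_euler D.α_le D.rs_sum (chs_one χ) (chs_mul χ) (chs_le χ) (D.diff χ hq hN hχ)
      fun s hs => ?_
    have h1 := D.euler q χ hq hN hχ s hs
    rw [D.F_eq]
    exact h1
  rw [Fintype.card_fin] at hmem
  exact ⟨D.entire q χ hq hN hχ, D.F q χ, hmem, _, GGi_diff hR (D.μ (χ (-1))), fun s => by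
    rw [D.F_eq, div_eq_mul_inv]⟩

open Pool.Agent.Results.MP_77948b_nt.CuspidalTwists (IsFamily toCD level IsTwistL)

theorem fo_of_family {m N : ℕ} {L : (q : ℕ) → DirichletCharacter ℂ q → ℂ → ℂ}
    (h : IsFamily m N L) : Fo m N L := by
  cases h with
  | cuspidal m D => exact fo_cd (toCD D)
  | induced K 𝔣 ν ψ hψ hν hne L hL =>
    have hψ' : Pool.Agent.Y767.IsHecke K 𝔣 ν ψ := ⟨⟨hψ.ne_bot, hψ.supp, hψ.ray⟩, hψ.prim⟩
    refine fo_hecke hψ' hν fun q χ hq hqN hχ => ?_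
    obtain ⟨h1, h2⟩ := hL q χ hq hqN hχ
    exact ⟨h1, fun s hs => (h2 s hs).tsum_eq.symm⟩

/-- **the tail estimate** -/
theorem tail {m N : ℕ} (hm : m ≤ 3) {L : (q : ℕ) → DirichletCharacter ℂ q → ℂ → ℂ}
    (h : Fo m N L) : ∃ C B : ℝ, 0 ≤ C ∧ 0 ≤ B ∧ ∀ (Q : ℕ) (T r : ℝ) (k : ℕ), 1 ≤ Q → 0 ≤ T →
      r ≤ 1 / 100 → 600 * r * (1 + Real.log Q) ≤ k →
      (count N Q (fun q χ => ∃ t : ℝ, |t| ≤ T ∧ Dv (L q χ) k (pt (1 / 2) t) r) : ℝ) ≤
        C * (2 + T) ^ (3 * m + 1) * (1 + Real.log Q) ^ B *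
          ((Q : ℝ) ^ 2 * Real.exp (-(k : ℝ) / 500)) := by
  classical
  obtain ⟨c, R₀, V, C₀, hR₀, hV, hL, hC₀, hmem⟩ := h
  set A : ℝ := max C₀ 0 with hA
  have hA0 : 0 ≤ A := le_max_right _ _
  have hCA : C₀ ≤ A := le_max_left _ _
  obtain ⟨C, hC, hexp⟩ := expt hm A hR₀ hV hL
  refine ⟨C, A + 3, hC, by linarith, ?_⟩
  intro Q T r k hQ hT hr hrk
  set S : (q : ℕ) → DirichletCharacter ℂ q → Prop := fun q χ => ∃ t : ℝ, |t| ≤ T ∧
    Dv (L q χ) k (pt (1 / 2) t) r with hS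
  have hcount := count_eq N Q S
  have hcountle := count_le N Q S
  rw [hcount] at hcountle ⊢
  set J := (idx N Q).filter (fun i => S i.1 i.2) with hJ
  have hch : ∀ i : (Σ q : ℕ, DirichletCharacter ℂ q), ∃ (F : ℂ → ℂ) (t : ℝ), i ∈ J →
      Mem c (R₀ * (Q : ℝ) ^ m) V m (chs i.2) F ∧ |t| ≤ T ∧ Dv F k (pt (1 / 2) t) r := by
    intro i
    by_cases hi : i ∈ J
    · obtain ⟨h1, t, ht, hd⟩ := Finset.mem_filter.1 hi
      rw [mem_idx] at h1
      obtain ⟨-, F, hF, E, hE, hFE⟩ := hmem i.1 i.2 h1.1.1 h1.2.1 h1.2.2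
      have hq : ((i.1 : ℕ) : ℝ) ≤ Q := by exact_mod_cast h1.1.2
      exact ⟨F, t, fun _ => ⟨hF.mono hV (by gcongr), ht, hd.mul hE hFE⟩⟩
    · exact ⟨0, 0, fun h => absurd h hi⟩
  choose F t hFt using hch
  have hD : Dat m c R₀ V A Q J (fun i => chs i.2) F := by
    refine ⟨hQ, hR₀, hV, hA0, hL, fun θ h0 h1 n => ?_, (ls_idx N hQ).mono (Finset.filter_subset _ _),
      fun i hi => (hFt i hi).1, hcountle⟩
    refine (SB_of hC₀ h0 h1 n).trans ?_
    have h2 : Real.exp (2 * C₀) ≤ Real.exp (2 * A) := Real.exp_le_exp.2 (by linarith)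
    have h3 : θ ^ (-C₀) ≤ θ ^ (-A) :=
      Real.rpow_le_rpow_of_exponent_ge h0 h1 (by linarith)
    gcongr
  exact hexp Q J (fun i => chs i.2) F t T r k hD hT (fun i hi => (hFt i hi).2.1) hr hrk
    (fun i hi => (hFt i hi).2.2)

end Pool.Agent.R399.TM
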