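import Pool.Agent.R399.TM.Fam

/-!
# Averages and almost all characters
-/

set_option autoImplicit false

namespace Pool.Agent.R399.TM

open Finset Filter Topology Complex MeasureTheory
open Pool.Agent.R399.TW
open scoped ComplexConjugate

/-- an average from a tail estimate -/
theorem avg_le {ι : Type} (J : Finset ι) (f : ι → ℕ) {W U s : ℝ} (hW : 0 ≤ W) (hU : 1 ≤ U)
    (hs : 0 < s) (hc : (J.card : ℝ) ≤ W)
    (h : ∀ k : ℕ, (((J.filter fun i => k ≤ f i).card : ℕ) : ℝ) ≤ U * W * Real.exp (-(s * k))) :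
    ∑ i ∈ J, (f i : ℝ) ≤ W * (Real.log U / s + 1 + 1 / s) := by
  classical
  obtain ⟨M, hM⟩ : ∃ M : ℕ, ∀ i ∈ J, f i ≤ M := ⟨J.sup f, fun i hi => Finset.le_sup (f := f) hi⟩
  set k₀ : ℕ := ⌈Real.log U / s⌉₊ with hk₀
  have hlU : 0 ≤ Real.log U := Real.log_nonneg hU
  have hk1 : Real.log U / s ≤ k₀ := Nat.le_ceil _
  have hk2 : (k₀ : ℝ) ≤ Real.log U / s + 1 := (Nat.ceil_lt_add_one (by positivity)).le
  have hUk : U ≤ Real.exp (s * k₀) := by
    rw [div_le_iff₀ hs] at hk1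
    calc U = Real.exp (Real.log U) := (Real.exp_log (by linarith)).symm
      _ ≤ _ := Real.exp_le_exp.2 (by linarith)
  have h1 : ∀ i ∈ J, (f i : ℝ) = ∑ k ∈ range (M + k₀), if k + 1 ≤ f i then (1 : ℝ) else 0 := by
    intro i hi
    have h2 := hM i hi
    rw [← Finset.sum_filter, Finset.sum_const, nsmul_eq_mul, mul_one]
    have h3 : (range (M + k₀)).filter (fun k => k + 1 ≤ f i) = range (f i) := by
      ext k
      rw [Finset.mem_filter, Finset.mem_range, Finset.mem_range]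
      omega
    rw [h3, Finset.card_range]
  rw [Finset.sum_congr rfl h1, Finset.sum_comm]
  have h2 : ∀ k ∈ range (M + k₀), ∑ i ∈ J, (if k + 1 ≤ f i then (1 : ℝ) else 0) =
      (((J.filter fun i => k + 1 ≤ f i).card : ℕ) : ℝ) := by
    intro k _
    rw [← Finset.sum_filter, Finset.sum_const, nsmul_eq_mul, mul_one]
  rw [Finset.sum_congr rfl h2, add_comm M k₀, Finset.range_eq_Ico,
    ← Finset.sum_Ico_consecutive _ (Nat.zero_le k₀) (by omega : k₀ ≤ k₀ + M)]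
  have h3 : ∑ k ∈ Ico 0 k₀, (((J.filter fun i => k + 1 ≤ f i).card : ℕ) : ℝ) ≤ W * k₀ := by
    have h4 : ∀ k ∈ Ico 0 k₀, (((J.filter fun i => k + 1 ≤ f i).card : ℕ) : ℝ) ≤ W := fun k _ =>
      le_trans (by exact_mod_cast Finset.card_filter_le _ _) hc
    refine (Finset.sum_le_sum h4).trans (le_of_eq ?_)
    rw [Finset.sum_const, Nat.card_Ico, nsmul_eq_mul, Nat.sub_zero]
    ring
  have h4 : ∑ k ∈ Ico k₀ (k₀ + M), (((J.filter fun i => k + 1 ≤ f i).card : ℕ) : ℝ) ≤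
      W * (1 / s) := by
    rw [Finset.sum_Ico_eq_sum_range, Nat.add_sub_cancel_left]
    set x : ℝ := Real.exp (-s) with hx
    have hx0 : 0 < x := Real.exp_pos _
    have hx1 : x < 1 := by
      rw [hx, ← Real.exp_zero]
      exact Real.exp_lt_exp.2 (by linarith)
    have h5 : ∀ j ∈ range M, (((J.filter fun i => k₀ + j + 1 ≤ f i).card : ℕ) : ℝ) ≤
        W * x * x ^ j := by
      intro j _
      refine (h (k₀ + j + 1)).trans ?_
      have h6 : Real.exp (-(s * ((k₀ + j + 1 : ℕ) : ℝ))) =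
          Real.exp (-(s * k₀)) * (x * x ^ j) := by
        rw [hx, ← pow_succ', ← Real.exp_nat_mul, ← Real.exp_add]
        congr 1
        push_cast
        ring
      rw [h6]
      have h7 : U * Real.exp (-(s * k₀)) ≤ 1 := by
        calc U * Real.exp (-(s * k₀)) ≤ Real.exp (s * k₀) * Real.exp (-(s * k₀)) := by gcongr
          _ = 1 := by rw [← Real.exp_add, add_neg_cancel, Real.exp_zero]
      calc U * W * (Real.exp (-(s * k₀)) * (x * x ^ j))
          = (U * Real.exp (-(s * k₀))) * (W * x * x ^ j) := by ring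
        _ ≤ 1 * (W * x * x ^ j) := by gcongr
        _ = _ := one_mul _
    refine (Finset.sum_le_sum h5).trans ?_
    rw [← Finset.mul_sum]
    have h6 : ∑ j ∈ range M, x ^ j ≤ (1 - x)⁻¹ :=
      sum_le_hasSum (range M) (fun n _ => by positivity) (hasSum_geometric_of_lt_one hx0.le hx1)
    have h7 : x * (1 - x)⁻¹ ≤ 1 / s := by
      rw [← div_eq_mul_inv, div_le_div_iff₀ (by linarith) hs]
      have h8 := Real.add_one_le_exp s
      have h9 : x * Real.exp s = 1 := by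
        rw [hx, ← Real.exp_add, neg_add_cancel, Real.exp_zero]
      nlinarith
    calc W * x * ∑ j ∈ range M, x ^ j ≤ W * x * (1 - x)⁻¹ := by gcongr
      _ = W * (x * (1 - x)⁻¹) := by ring
      _ ≤ W * (1 / s) := by gcongr
  calc _ ≤ W * k₀ + W * (1 / s) := add_le_add h3 h4
    _ ≤ W * (Real.log U / s + 1) + W * (1 / s) := by gcongr
    _ = _ := by ring

/-- a sum over the primitive characters -/
noncomputable def sumq (N Q : ℕ) (f : (q : ℕ) → DirichletCharacter ℂ q → ℝ) : ℝ :=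
  ∑ q ∈ (Icc 2 Q).filter (fun q => Nat.Coprime q N),
    ∑ᶠ χ ∈ {χ : DirichletCharacter ℂ q | χ.IsPrimitive}, f q χ

lemma sumq_eq (N Q : ℕ) (f : (q : ℕ) → DirichletCharacter ℂ q → ℝ) :
    sumq N Q f = ∑ i ∈ idx N Q, f i.1 i.2 := by
  classical
  unfold sumq idx
  rw [Finset.sum_sigma]
  refine Finset.sum_congr rfl fun q _ => ?_
  rw [finsum_mem_eq_toFinset_sum]
  refine Finset.sum_congr ?_ fun _ _ => rfl
  ext χ
  simp

/-- the number of zeros near `1/2 + it` -/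
noncomputable def nz (F : ℂ → ℂ) (t r : ℝ) : ℕ := sSup {k : ℕ | Dv F k (pt (1 / 2) t) r}

/-- the tail estimate for orders -/
theorem tail_ord {m N : ℕ} (hm : m ≤ 3) {L : (q : ℕ) → DirichletCharacter ℂ q → ℂ → ℂ}
    (h : Fo m N L) : ∃ C B : ℝ, 0 ≤ C ∧ 0 ≤ B ∧ ∀ (Q : ℕ) (T : ℝ) (k : ℕ), 1 ≤ Q → 0 ≤ T →
      (count N Q (fun q χ => ∃ t : ℝ, |t| ≤ T ∧
        (k : ℕ∞) ≤ analyticOrderAt (L q χ) (pt (1 / 2) t)) : ℝ) ≤
        C * (2 + T) ^ (3 * m + 1) * (1 + Real.log Q) ^ B *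
          ((Q : ℝ) ^ 2 * Real.exp (-(k : ℝ) / 500)) := by
  classical
  obtain ⟨C, B, hC, hB, ht⟩ := tail hm h
  refine ⟨C, B, hC, hB, fun Q T k hQ hT => ?_⟩
  have h1 := ht Q T 0 k hQ hT (by norm_num) (by simp)
  refine le_trans ?_ h1
  rw [count_eq, count_eq]
  have h2 : (idx N Q).filter (fun i => ∃ t : ℝ, |t| ≤ T ∧
        (k : ℕ∞) ≤ analyticOrderAt (L i.1 i.2) (pt (1 / 2) t)) ⊆
      (idx N Q).filter (fun i => ∃ t : ℝ, |t| ≤ T ∧ Dv (L i.1 i.2) k (pt (1 / 2) t) 0) := by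
    intro i hi
    rw [Finset.mem_filter] at hi ⊢
    obtain ⟨h3, t, ht, h4⟩ := hi
    refine ⟨h3, t, ht, ?_⟩
    rw [mem_idx] at h3
    obtain ⟨c, R₀, V, C₀, -, -, -, -, hmem⟩ := h
    exact Dv.of_order (hmem i.1 i.2 h3.1.1 h3.2.1 h3.2.2).1 le_rfl h4
  exact_mod_cast Finset.card_le_card h2

/-- `F` has at least `k` zeros in the disc with centre `1/2 + it` and radius
`1 / (100 (1 + log Q))`, where `K (log (1 + log Q) + log (2 + |t|)) < k` -/
def Clu (K : ℝ) (Q : ℕ) (F : ℂ → ℂ) : Prop :=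
  ∃ (t : ℝ) (k : ℕ), K * (Real.log (1 + Real.log Q) + Real.log (2 + |t|)) < k ∧
    Dv F k (pt (1 / 2) t) (1 / (100 * (1 + Real.log Q)))

/-- **almost all characters, all heights** -/
theorem almost_clu {m N : ℕ} (hm : m ≤ 3) {L : (q : ℕ) → DirichletCharacter ℂ q → ℂ → ℂ}
    (h : Fo m N L) (a : ℝ) : ∃ K : ℝ, 0 < K ∧ ∀ Q : ℕ, 1 ≤ Q →
      (count N Q (fun q χ => Clu K Q (L q χ)) : ℝ) ≤ K * (Q : ℝ) ^ 2 / (1 + Real.log Q) ^ a := by
  classical
  obtain ⟨C, B, hC, hB, ht⟩ := tail hm h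
  set b : ℕ := 3 * m + 1 with hb
  set K : ℝ := max (max (500 * (B + |a|)) (1500 * ((b : ℝ) + 1))) (C * 3 ^ b * 2 + 30) with hK
  have K1 : 500 * (B + |a|) ≤ K := (le_max_left _ _).trans (le_max_left _ _)
  have K2 : 1500 * ((b : ℝ) + 1) ≤ K := (le_max_right _ _).trans (le_max_left _ _)
  have K3 : C * 3 ^ b * 2 + 30 ≤ K := le_max_right _ _
  have hC3 : 0 ≤ C * 3 ^ b * 2 := by positivity
  have hK30 : 30 ≤ K := by linarith
  have hK0 : 0 < K := by linarith
  refine ⟨K, hK0, fun Q hQ => ?_⟩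
  have hq1 : (1 : ℝ) ≤ Q := by exact_mod_cast hQ
  have hl := Real.log_nonneg hq1
  set l : ℝ := 1 + Real.log Q with hldef
  have hl1 : 1 ≤ l := by linarith
  have hl0 : 0 < l := by linarith
  have hll : 0 ≤ Real.log l := Real.log_nonneg hl1
  have hl2 := Real.log_two_gt_d9
  rw [count_eq]
  set J := (idx N Q).filter (fun i => Clu K Q (L i.1 i.2)) with hJ
  -- thresholds
  set e : ℕ → ℝ := fun j => K * (Real.log l + ((j : ℝ) + 1) / 3 * Real.log 2) with he
  set kj : ℕ → ℕ := fun j => ⌈e j⌉₊ with hkj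
  have hkj1 : ∀ j, e j ≤ kj j := fun j => Nat.le_ceil _
  set r : ℝ := 1 / (100 * l) with hr
  have hr1 : r ≤ 1 / 100 := by
    rw [hr]
    apply one_div_le_one_div_of_le (by norm_num)
    linarith
  have hcov : ∀ i : (Σ q : ℕ, DirichletCharacter ℂ q), ∃ j : ℕ, i ∈ J →
      ∃ t : ℝ, |t| ≤ 2 ^ j ∧ Dv (L i.1 i.2) (kj j) (pt (1 / 2) t) r := by
    intro i
    by_cases hi : i ∈ J
    · obtain ⟨-, t, k, hk, hd⟩ := Finset.mem_filter.1 hi
      obtain ⟨c1, c2⟩ := clog_bound t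
      refine ⟨Nat.clog 2 ⌈|t|⌉₊, fun _ => ⟨t, c1, hd.le ?_⟩⟩
      set j := Nat.clog 2 ⌈|t|⌉₊ with hj
      refine Nat.ceil_le.2 ?_
      have h1 : Real.log 2 ≤ Real.log (2 + |t|) :=
        Real.log_le_log (by norm_num) (by linarith [abs_nonneg t])
      have h2 : ((j : ℝ) + 1) / 3 * Real.log 2 ≤ Real.log (2 + |t|) := by
        have h3 : ((j : ℝ) + 1) / 3 * Real.log 2 =
            1 / 3 * Real.log 2 + 2 / 3 * ((j : ℝ) / 2 * Real.log 2) := by ring
        rw [h3]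
        linarith
      refine le_trans ?_ hk.le
      exact mul_le_mul_of_nonneg_left (by linarith) hK0.le
    · exact ⟨0, fun h => absurd h hi⟩
  choose j hj using hcov
  obtain ⟨M, hM⟩ : ∃ M : ℕ, ∀ i ∈ J, j i < M := by
    refine ⟨J.sup j + 1, fun i hi => ?_⟩
    have := Finset.le_sup (f := j) hi
    omega
  have h1 : (J.card : ℝ) = ∑ n ∈ range M, ((J.filter (fun i => j i = n)).card : ℝ) := by
    have h2 := Finset.card_eq_sum_card_fiberwise (f := j) (s := J) (t := range M)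
      (fun i hi => Finset.mem_coe.2 (Finset.mem_range.2 (hM i hi)))
    exact_mod_cast h2
  rw [h1]
  have h2 : ∀ n ∈ range M, ((J.filter (fun i => j i = n)).card : ℝ) ≤
      C * 3 ^ b * ((Q : ℝ) ^ 2 / l ^ a) * (1 / 2) ^ n := by
    intro n _
    have h3 := ht Q (2 ^ n) r (kj n) hQ (by positivity) hr1 (by
      have h4 : 600 * r * (1 + Real.log Q) = 6 := by
        rw [hr, ← hldef]
        field_simp
        norm_num
      rw [h4]
      refine le_trans ?_ (hkj1 n)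
      rw [he]
      have h5 : 1 / 3 * Real.log 2 ≤ Real.log l + ((n : ℝ) + 1) / 3 * Real.log 2 := by
        have : (0 : ℝ) ≤ n := Nat.cast_nonneg n
        nlinarith
      have h6 : K * (1 / 3 * Real.log 2) ≤ K * (Real.log l + ((n : ℝ) + 1) / 3 * Real.log 2) :=
        mul_le_mul_of_nonneg_left h5 hK0.le
      nlinarith)
    rw [count_eq] at h3
    have h4 : ((J.filter (fun i => j i = n)).card : ℝ) ≤ (((idx N Q).filter (fun i =>
        ∃ t : ℝ, |t| ≤ 2 ^ n ∧ Dv (L i.1 i.2) (kj n) (pt (1 / 2) t) r)).card : ℝ) := by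
      have h5 : J.filter (fun i => j i = n) ⊆ (idx N Q).filter (fun i =>
        ∃ t : ℝ, |t| ≤ 2 ^ n ∧ Dv (L i.1 i.2) (kj n) (pt (1 / 2) t) r) := by
        intro i hi
        rw [Finset.mem_filter] at hi ⊢
        refine ⟨(Finset.mem_filter.1 hi.1).1, ?_⟩
        have h6 := hj i hi.1
        rwa [hi.2] at h6
      exact_mod_cast Finset.card_le_card h5
    refine h4.trans (h3.trans ?_)
    have g1 : (2 + (2 : ℝ) ^ n) ^ b ≤ 3 ^ b * 2 ^ ((b : ℝ) * n) := by
      have h5 : (1 : ℝ) ≤ 2 ^ n := one_le_pow₀ (by norm_num)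
      calc (2 + (2 : ℝ) ^ n) ^ b ≤ (3 * 2 ^ n) ^ b := by gcongr; linarith
        _ = 3 ^ b * 2 ^ ((b : ℝ) * n) := by
          rw [mul_pow, ← pow_mul]
          congr 1
          rw [← Real.rpow_natCast]
          congr 1
          push_cast
          ring
    have g2 : Real.exp (-(kj n : ℝ) / 500) ≤ l ^ (-(B + |a|)) * 2 ^ (-(((b : ℝ) + 1) * n)) := by
      have h5 : Real.exp (-(kj n : ℝ) / 500) ≤ Real.exp (-(e n) / 500) := by
        apply Real.exp_le_exp.2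
        have := hkj1 n
        linarith
      refine h5.trans ?_
      rw [Real.rpow_def_of_pos hl0, Real.rpow_def_of_pos (by norm_num : (0 : ℝ) < 2),
        ← Real.exp_add]
      apply Real.exp_le_exp.2
      have hn0 : (0 : ℝ) ≤ n := Nat.cast_nonneg n
      have h6 : 500 * (B + |a|) * Real.log l ≤ K * Real.log l := by gcongr
      have h7 : 1500 * ((b : ℝ) + 1) * (((n : ℝ) + 1) / 3 * Real.log 2) ≤
          K * (((n : ℝ) + 1) / 3 * Real.log 2) := by
        have : 0 ≤ ((n : ℝ) + 1) / 3 * Real.log 2 := by positivity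
        gcongr
      have h8 : e n = K * Real.log l + K * (((n : ℝ) + 1) / 3 * Real.log 2) := by
        rw [he]
        ring
      rw [h8]
      have h9 : 0 ≤ ((b : ℝ) + 1) * Real.log 2 := by positivity
      nlinarith
    have g3 : l ^ B * l ^ (-(B + |a|)) ≤ 1 / l ^ a := by
      rw [← Real.rpow_add hl0, one_div, ← Real.rpow_neg hl0.le]
      refine Real.rpow_le_rpow_of_exponent_le hl1 ?_
      have := le_abs_self a
      linarith
    have g4 : (2 : ℝ) ^ ((b : ℝ) * n) * 2 ^ (-(((b : ℝ) + 1) * n)) = (1 / 2) ^ n := by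
      rw [← Real.rpow_add (by norm_num)]
      have : (b : ℝ) * n + -(((b : ℝ) + 1) * n) = -(n : ℝ) := by ring
      rw [this, Real.rpow_neg (by norm_num), Real.rpow_natCast, one_div, inv_pow]
    calc C * (2 + 2 ^ n) ^ b * l ^ B * ((Q : ℝ) ^ 2 * Real.exp (-(kj n : ℝ) / 500))
        ≤ C * (3 ^ b * 2 ^ ((b : ℝ) * n)) * l ^ B * ((Q : ℝ) ^ 2 *
          (l ^ (-(B + |a|)) * 2 ^ (-(((b : ℝ) + 1) * n)))) := by gcongr
      _ = C * 3 ^ b * (Q : ℝ) ^ 2 * (l ^ B * l ^ (-(B + |a|))) * ((2 : ℝ) ^ ((b : ℝ) * n) *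
          2 ^ (-(((b : ℝ) + 1) * n))) := by ring
      _ ≤ C * 3 ^ b * (Q : ℝ) ^ 2 * (1 / l ^ a) * ((2 : ℝ) ^ ((b : ℝ) * n) *
          2 ^ (-(((b : ℝ) + 1) * n))) := by gcongr
      _ = _ := by rw [g4]; ring
  refine (Finset.sum_le_sum h2).trans ?_
  rw [← Finset.mul_sum]
  have h5 : ∑ n ∈ range M, ((1 : ℝ) / 2) ^ n ≤ 2 := by
    have := sum_le_hasSum (range M) (fun n _ => by positivity)
      (hasSum_geometric_of_lt_one (r := (1 : ℝ) / 2) (by norm_num) (by norm_num))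
    refine this.trans (by norm_num)
  have h6 : 0 ≤ (Q : ℝ) ^ 2 / l ^ a := by positivity
  calc C * 3 ^ b * ((Q : ℝ) ^ 2 / l ^ a) * ∑ n ∈ range M, ((1 : ℝ) / 2) ^ n
      ≤ C * 3 ^ b * ((Q : ℝ) ^ 2 / l ^ a) * 2 := by gcongr
    _ = C * 3 ^ b * 2 * ((Q : ℝ) ^ 2 / l ^ a) := by ring
    _ ≤ K * ((Q : ℝ) ^ 2 / l ^ a) := by
        gcongr
        linarith
    _ = _ := by ring

end Pool.Agent.R399.TM
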