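import Pool.Agent.R399.TM.Multi

/-!
# The average number of zeros in small discs; almost all characters for several families
-/

set_option autoImplicit false

namespace Pool.Agent.R399.TM

open Finset Filter Topology Complex MeasureTheory
open Pool.Agent.R399.TW
open scoped ComplexConjugate

/-- **the average number of zeros in a disc** -/
theorem avg_disc {m N : ℕ} (hm : m ≤ 3) {L : (q : ℕ) → DirichletCharacter ℂ q → ℂ → ℂ}
    (h : Fo m N L) : ∃ C : ℝ, 0 ≤ C ∧ ∀ (Q : ℕ) (t r : ℝ)
      (κ : (q : ℕ) → DirichletCharacter ℂ q → ℕ), 1 ≤ Q → 0 ≤ r → r ≤ 1 / 100 →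
      (∀ (q : ℕ) (χ : DirichletCharacter ℂ q), 2 ≤ q → q ≤ Q → Nat.Coprime q N → χ.IsPrimitive →
        Dv (L q χ) (κ q χ) (pt (1 / 2) t) r) →
      sumq N Q (fun q χ => (κ q χ : ℝ)) ≤
        C * (Q : ℝ) ^ 2 * (r * Real.log Q + Real.log (1 + Real.log Q) + Real.log (2 + |t|)) := by
  classical
  obtain ⟨C, B, hC, hB, ht⟩ := tail hm h
  have hl2 := Real.log_two_gt_d9
  set b : ℕ := 3 * m + 1 with hb
  set s : ℝ := 1 / 500 with hs
  have hs0 : 0 < s := by norm_num
  set K : ℝ := (Real.log (1 + C) + b + B) / s + 1 + 1 / s + 6 with hK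
  have hlC : 0 ≤ Real.log (1 + C) := Real.log_nonneg (by linarith)
  have hK0 : 0 ≤ K := by positivity
  refine ⟨2 * K + 600, by positivity, fun Q t r κ hQ hr0 hr hκ => ?_⟩
  have hq1 : (1 : ℝ) ≤ Q := by exact_mod_cast hQ
  have hlq : 0 ≤ Real.log Q := Real.log_nonneg hq1
  have hl1 : 1 ≤ 1 + Real.log Q := by linarith
  have hll : 0 ≤ Real.log (1 + Real.log Q) := Real.log_nonneg hl1
  have ht1 : Real.log 2 ≤ Real.log (2 + |t|) :=
    Real.log_le_log (by norm_num) (by linarith [abs_nonneg t])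
  set U₀ : ℝ := (1 + C) * (2 + |t|) ^ b * (1 + Real.log Q) ^ B with hU₀
  have hU₀1 : 1 ≤ U₀ := by
    rw [hU₀]
    refine one_le_mul_of_one_le_of_one_le (one_le_mul_of_one_le_of_one_le (by linarith) ?_)
      (Real.one_le_rpow hl1 hB)
    exact one_le_pow₀ (by linarith [abs_nonneg t])
  set v : ℝ := 600 * r * (1 + Real.log Q) with hv
  have hv0 : 0 ≤ v := by positivity
  set U : ℝ := U₀ * Real.exp (s * v) with hU
  have hsv : 1 ≤ Real.exp (s * v) := Real.one_le_exp (by positivity)
  have hU1 : 1 ≤ U := one_le_mul_of_one_le_of_one_le hU₀1 hsv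
  rw [sumq_eq]
  have hcard : (((idx N Q).card : ℕ) : ℝ) ≤ (Q : ℝ) ^ 2 := by
    have h1 := count_le N Q (fun _ _ => True)
    rw [count_eq] at h1
    simpa using h1
  have key := avg_le (idx N Q) (fun i => κ i.1 i.2) (W := (Q : ℝ) ^ 2) (U := U) (s := s)
    (by positivity) hU1 hs0 hcard fun k => ?_
  · refine key.trans ?_
    have e1 : Real.log U = Real.log (1 + C) + b * Real.log (2 + |t|) +
        B * Real.log (1 + Real.log Q) + s * v := by
      have p1 : (0 : ℝ) < 1 + C := by linarith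
      have p2 : (0 : ℝ) < 2 + |t| := by positivity
      have p3 : (0 : ℝ) < 1 + Real.log Q := by linarith
      rw [hU, Real.log_mul (by positivity) (by positivity), Real.log_exp, hU₀,
        Real.log_mul (by positivity) (by positivity), Real.log_mul (by positivity)
        (by positivity), Real.log_pow, Real.log_rpow p3]
    set a : ℝ := Real.log (1 + Real.log Q) + Real.log (2 + |t|) with ha
    have ha2 : 1 ≤ 2 * a := by linarith
    have e2 : Real.log U ≤ (Real.log (1 + C) + b + B) * (2 * a) + s * v := by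
      rw [e1]
      have q1 : Real.log (1 + C) * 1 ≤ Real.log (1 + C) * (2 * a) := by gcongr
      have q2 : B * Real.log (1 + Real.log Q) ≤ B * (2 * a) := by
        have : Real.log (1 + Real.log Q) ≤ 2 * a := by linarith
        gcongr
      have q3 : (b : ℝ) * Real.log (2 + |t|) ≤ b * (2 * a) := by
        have : Real.log (2 + |t|) ≤ 2 * a := by linarith
        gcongr
      linarith
    have e3 : Real.log U / s ≤ (Real.log (1 + C) + b + B) / s * (2 * a) + v := by
      have h1 := div_le_div_of_nonneg_right e2 hs0.le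
      have h2 : ((Real.log (1 + C) + b + B) * (2 * a) + s * v) / s =
          (Real.log (1 + C) + b + B) / s * (2 * a) + v := by
        field_simp
      rwa [h2] at h1
    have e4 : 1 / s * 1 ≤ 1 / s * (2 * a) := by gcongr
    have e5 : v ≤ 600 * (r * Real.log Q) + 6 * (2 * a) := by
      rw [hv]
      nlinarith
    have e6 : r * Real.log Q + Real.log (1 + Real.log Q) + Real.log (2 + |t|) =
        r * Real.log Q + a := by
      rw [ha]
      ring
    rw [e6]
    have e7 : 0 ≤ r * Real.log Q := by positivity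
    calc (Q : ℝ) ^ 2 * (Real.log U / s + 1 + 1 / s)
        ≤ (Q : ℝ) ^ 2 * (K * (2 * a) + 600 * (r * Real.log Q)) := by
          refine mul_le_mul_of_nonneg_left ?_ (by positivity)
          rw [hK]
          nlinarith
      _ ≤ (Q : ℝ) ^ 2 * ((2 * K + 600) * (r * Real.log Q + a)) := by
          refine mul_le_mul_of_nonneg_left ?_ (by positivity)
          nlinarith [mul_nonneg hK0 e7]
      _ = _ := by ring
  · rcases le_total v k with hvk | hvk
    · have h1 := ht Q |t| r k hQ (abs_nonneg t) hr hvk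
      rw [count_eq] at h1
      have h2 : (idx N Q).filter (fun i => k ≤ κ i.1 i.2) ⊆
          (idx N Q).filter (fun i => ∃ t' : ℝ, |t'| ≤ |t| ∧ Dv (L i.1 i.2) k (pt (1 / 2) t') r) := by
        intro i hi
        rw [Finset.mem_filter] at hi ⊢
        have h3 := mem_idx.1 hi.1
        exact ⟨hi.1, t, le_rfl, (hκ i.1 i.2 h3.1.1 h3.1.2 h3.2.1 h3.2.2).le hi.2⟩
      have h3 : ((((idx N Q).filter (fun i => k ≤ κ i.1 i.2)).card : ℕ) : ℝ) ≤
          ((((idx N Q).filter (fun i => ∃ t' : ℝ, |t'| ≤ |t| ∧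
            Dv (L i.1 i.2) k (pt (1 / 2) t') r)).card : ℕ) : ℝ) := by
        exact_mod_cast Finset.card_le_card h2
      refine h3.trans (h1.trans ?_)
      have e1 : Real.exp (-(k : ℝ) / 500) = Real.exp (-(s * k)) := by
        congr 1
        rw [hs]
        ring
      rw [e1]
      have p0 := Real.exp_pos (-(s * k))
      have e2 : C * (2 + |t|) ^ b * (1 + Real.log Q) ^ B ≤ U := by
        calc C * (2 + |t|) ^ b * (1 + Real.log Q) ^ B
            ≤ (1 + C) * (2 + |t|) ^ b * (1 + Real.log Q) ^ B := by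
              gcongr
              linarith
          _ ≤ U := le_mul_of_one_le_right (by positivity) hsv
      calc C * (2 + |t|) ^ b * (1 + Real.log Q) ^ B * ((Q : ℝ) ^ 2 * Real.exp (-(s * k)))
          ≤ U * ((Q : ℝ) ^ 2 * Real.exp (-(s * k))) := by gcongr
        _ = _ := by ring
    · have h1 : (((((idx N Q).filter (fun i => k ≤ κ i.1 i.2)).card : ℕ)) : ℝ) ≤ (Q : ℝ) ^ 2 :=
        le_trans (by exact_mod_cast Finset.card_filter_le _ _) hcard
      refine h1.trans ?_
      have h2 : 1 ≤ U * Real.exp (-(s * k)) := by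
        have h3 : 1 ≤ Real.exp (s * v) * Real.exp (-(s * k)) := by
          rw [← Real.exp_add]
          apply Real.one_le_exp
          nlinarith
        calc (1 : ℝ) ≤ U₀ * (Real.exp (s * v) * Real.exp (-(s * k))) :=
              one_le_mul_of_one_le_of_one_le hU₀1 h3
          _ = _ := by rw [hU]; ring
      calc (Q : ℝ) ^ 2 = 1 * (Q : ℝ) ^ 2 := by ring
        _ ≤ (U * Real.exp (-(s * k))) * (Q : ℝ) ^ 2 := by gcongr
        _ = _ := by ring

/-- **almost all characters, all heights, several families** -/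
theorem multi_almost {n N : ℕ} (hn : 1 ≤ n) {m N' : Fin n → ℕ}
    {L : Fin n → (q : ℕ) → DirichletCharacter ℂ q → ℂ → ℂ} (hm : ∀ i, m i ≤ 3)
    (hN : ∀ i, N' i ∣ N) (h : ∀ i, Fo (m i) (N' i) (L i)) (a : ℝ) :
    ∃ K : ℝ, 0 < K ∧ ∀ Q : ℕ, 1 ≤ Q →
      (count N Q (fun q χ => ∃ (t : ℝ) (κ : Fin n → ℕ),
        K * (Real.log (1 + Real.log Q) + Real.log (2 + |t|)) < ((∑ i, κ i : ℕ) : ℝ) ∧
        ∀ i, Dv (L i q χ) (κ i) (pt (1 / 2) t) (1 / (100 * (1 + Real.log Q)))) : ℝ) ≤
        K * (Q : ℝ) ^ 2 / (1 + Real.log Q) ^ a := by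
  classical
  have h1 := fun i => almost_clu (hm i) (h i) a
  choose K hK hKb using h1
  have hn0 : (1 : ℝ) ≤ n := by exact_mod_cast hn
  set S : ℝ := ∑ i, K i with hS
  have hSi : ∀ i, K i ≤ S := fun i =>
    Finset.single_le_sum (f := K) (fun i _ => (hK i).le) (Finset.mem_univ i)
  have hS0 : 0 < S := (hK ⟨0, by omega⟩).trans_le (hSi _)
  refine ⟨n * S, by positivity, fun Q hQ => ?_⟩
  have hq1 : (1 : ℝ) ≤ Q := by exact_mod_cast hQ
  have hlq : 0 ≤ Real.log Q := Real.log_nonneg hq1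
  have hl0 : 0 < 1 + Real.log Q := by linarith
  have hll : 0 ≤ Real.log (1 + Real.log Q) := Real.log_nonneg (by linarith)
  refine (count_union (S' := fun i q χ => Clu (K i) Q (L i q χ)) ?_).trans ?_
  · rintro q χ - - - ⟨t, κ, hκ, hd⟩
    have hy : 0 ≤ Real.log (1 + Real.log Q) + Real.log (2 + |t|) := by
      have := Real.log_nonneg (show (1 : ℝ) ≤ 2 + |t| by linarith [abs_nonneg t])
      linarith
    obtain ⟨i, -, hi⟩ : ∃ i ∈ (univ : Finset (Fin n)),
        S * (Real.log (1 + Real.log Q) + Real.log (2 + |t|)) < (κ i : ℝ) := by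
      refine Finset.exists_lt_of_sum_lt (s := univ)
        (f := fun _ => S * (Real.log (1 + Real.log Q) + Real.log (2 + |t|)))
        (g := fun i => (κ i : ℝ)) ?_
      rw [Finset.sum_const, Finset.card_univ, Fintype.card_fin, nsmul_eq_mul]
      have h2 : ((∑ i, κ i : ℕ) : ℝ) = ∑ i, (κ i : ℝ) := by push_cast; rfl
      rw [← h2]
      linarith
    refine ⟨i, t, κ i, lt_of_le_of_lt ?_ hi, hd i⟩
    exact mul_le_mul_of_nonneg_right (hSi i) hy
  · have h2 : ∀ i ∈ (univ : Finset (Fin n)), (count N Q (fun q χ => Clu (K i) Q (L i q χ)) : ℝ) ≤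
        K i * ((Q : ℝ) ^ 2 / (1 + Real.log Q) ^ a) := by
      intro i _
      refine (count_mono (hN i) fun q χ _ _ _ h => h).trans ((hKb i Q hQ).trans (le_of_eq ?_))
      ring
    refine (Finset.sum_le_sum h2).trans ?_
    rw [← Finset.sum_mul]
    have h3 : 0 ≤ (Q : ℝ) ^ 2 / (1 + Real.log Q) ^ a := by positivity
    calc S * ((Q : ℝ) ^ 2 / (1 + Real.log Q) ^ a)
        = 1 * S * ((Q : ℝ) ^ 2 / (1 + Real.log Q) ^ a) := by ring
      _ ≤ n * S * ((Q : ℝ) ^ 2 / (1 + Real.log Q) ^ a) := by gcongr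
      _ = _ := by ring

end Pool.Agent.R399.TM
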