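import Pool.Agent.R399.TM.Near

/-!
# Counting members with zeros of high order
-/

set_option autoImplicit false

namespace Pool.Agent.R399.TM

open Finset Filter Topology Complex MeasureTheory
open Pool.Agent.R399.TW
open scoped ComplexConjugate

/-- `F` has at least `k` zeros, counted with multiplicity, in the disc with centre `w` and
radius `r` -/
def Dv (F : ℂ → ℂ) (k : ℕ) (w : ℂ) (r : ℝ) : Prop :=
  ∃ (z : ℕ → ℂ) (H : ℂ → ℂ), Differentiable ℂ H ∧ (∀ j < k, ‖z j - w‖ ≤ r) ∧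
    ∀ s, F s = (∏ j ∈ range k, (s - z j)) * H s

lemma Dv.of_order {F : ℂ → ℂ} (hF : Differentiable ℂ F) {w : ℂ} {k : ℕ} {r : ℝ} (hr : 0 ≤ r)
    (h : (k : ℕ∞) ≤ analyticOrderAt F w) : Dv F k w r := by
  obtain ⟨H, h1, h2⟩ := fact hF k h
  refine ⟨fun _ => w, H, h1, fun j _ => by simpa using hr, fun s => ?_⟩
  rw [h2 s, Finset.prod_const, Finset.card_range]

lemma Dv.move {F : ℂ → ℂ} {k : ℕ} {w w' : ℂ} {r r' : ℝ} (h : Dv F k w r)
    (hr : ‖w - w'‖ + r ≤ r') : Dv F k w' r' := by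
  obtain ⟨z, H, h1, h2, h3⟩ := h
  refine ⟨z, H, h1, fun j hj => ?_, h3⟩
  have h4 := norm_add_le (z j - w) (w - w')
  rw [sub_add_sub_cancel] at h4
  linarith [h2 j hj]

lemma Dv.mul {F : ℂ → ℂ} {k : ℕ} {w : ℂ} {r : ℝ} (h : Dv F k w r) {E G : ℂ → ℂ}
    (hE : Differentiable ℂ E) (hG : ∀ s, G s = F s * E s) : Dv G k w r := by
  obtain ⟨z, H, h1, h2, h3⟩ := h
  refine ⟨z, fun s => H s * E s, h1.mul hE, h2, fun s => ?_⟩
  rw [hG s, h3 s]
  ring

lemma Dv.le {F : ℂ → ℂ} {k k' : ℕ} {w : ℂ} {r : ℝ} (h : Dv F k w r) (hk : k' ≤ k) :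
    Dv F k' w r := by
  obtain ⟨z, H, h1, h2, h3⟩ := h
  refine ⟨z, fun s => (∏ j ∈ Ico k' k, (s - z j)) * H s, ?_, fun j hj => h2 j (by omega),
    fun s => ?_⟩
  · have h4 : Differentiable ℂ fun s : ℂ => ∏ j ∈ Ico k' k, (s - z j) := by fun_prop
    exact h4.mul h1
  · rw [h3 s, ← Finset.prod_range_mul_prod_Ico _ hk]
    ring

/-- **the number of members with many zeros near `s₁`** -/
theorem dv_gen {ι : Type} (I : Finset ι) (G : ι → ℂ → ℂ) {s₁ : ℂ} {r a b B : ℝ}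
    {k : ℕ} (hr : 0 < r) (ha : 0 ≤ a) (hb : 0 < b) (hab : a + b ≤ 2 * r)
    (hk : ∀ i ∈ I, Dv (G i) k s₁ a)
    (hB : ∀ t : ℝ, ∑ i ∈ I, ‖G i (circleMap s₁ (2 * r) t)‖ ^ 2 ≤ B) :
    ∑ i ∈ I, ‖G i s₁‖ ^ 2 ≤ 4 * (B * ((a / b) ^ k) ^ 2) := by
  have hch : ∀ i : ι, ∃ (z : ℕ → ℂ) (H : ℂ → ℂ), i ∈ I → Differentiable ℂ H ∧
      (∀ j < k, ‖z j - s₁‖ ≤ a) ∧ ∀ s, G i s = (∏ j ∈ range k, (s - z j)) * H s := by
    intro i
    by_cases hi : i ∈ I
    · obtain ⟨z, H, h1⟩ := hk i hi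
      exact ⟨z, H, fun _ => h1⟩
    · exact ⟨0, 0, fun h => absurd h hi⟩
  choose z H hH using hch
  set q : ℝ := a ^ k with hq
  have hq0 : 0 ≤ q := by positivity
  have key := disc_le I (fun i w => (q : ℂ) * H i w) (fun _ => s₁) (s₀ := s₁) (r := r)
    (B := B * ((a / b) ^ k) ^ 2) hr
    (fun i hi => (((hH i hi).1.const_mul (q : ℂ)).diffContOnCl)) (fun i _ => by simpa using hr.le)
    (fun t => ?_)
  · refine le_trans (Finset.sum_le_sum fun i hi => ?_) key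
    rw [(hH i hi).2.2 s₁, norm_mul, norm_mul, norm_prod, Complex.norm_real,
      Real.norm_of_nonneg hq0]
    have h1 : ∏ j ∈ range k, ‖s₁ - z i j‖ ≤ q := by
      have h2 : ∏ j ∈ range k, ‖s₁ - z i j‖ ≤ ∏ _j ∈ range k, a :=
        Finset.prod_le_prod (fun _ _ => norm_nonneg _) fun j hj => by
          rw [norm_sub_rev]
          exact (hH i hi).2.1 j (Finset.mem_range.1 hj)
      rwa [Finset.prod_const, Finset.card_range] at h2
    have h3 : 0 ≤ ∏ j ∈ range k, ‖s₁ - z i j‖ := Finset.prod_nonneg fun _ _ => norm_nonneg _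
    gcongr
  · refine le_trans ?_ (mul_le_mul_of_nonneg_right (hB t) (by positivity))
    rw [Finset.sum_mul]
    refine Finset.sum_le_sum fun i hi => ?_
    rw [(hH i hi).2.2 (circleMap s₁ (2 * r) t), norm_mul, norm_mul, norm_prod,
      Complex.norm_real, Real.norm_of_nonneg hq0]
    have h2 : q ≤ (∏ j ∈ range k, ‖circleMap s₁ (2 * r) t - z i j‖) * (a / b) ^ k := by
      have h3 : b ^ k ≤ ∏ j ∈ range k, ‖circleMap s₁ (2 * r) t - z i j‖ := by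
        have h4 : ∏ _j ∈ range k, b ≤ ∏ j ∈ range k, ‖circleMap s₁ (2 * r) t - z i j‖ := by
          refine Finset.prod_le_prod (fun _ _ => hb.le) fun j hj => ?_
          have h5 : ‖circleMap s₁ (2 * r) t - s₁‖ = 2 * r := by
            rw [circleMap_sub_center, norm_circleMap_zero, abs_of_pos (by positivity)]
          have h6 := norm_sub_norm_le (circleMap s₁ (2 * r) t - s₁) (z i j - s₁)
          rw [h5] at h6
          have h7 : circleMap s₁ (2 * r) t - s₁ - (z i j - s₁) =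
              circleMap s₁ (2 * r) t - z i j := by ring
          rw [h7] at h6
          linarith [(hH i hi).2.1 j (Finset.mem_range.1 hj)]
        rwa [Finset.prod_const, Finset.card_range] at h4
      calc q = b ^ k * (a / b) ^ k := by
            rw [hq, ← mul_pow, mul_div_cancel₀ _ hb.ne']
        _ ≤ _ := mul_le_mul_of_nonneg_right h3 (by positivity)
    have h4 : 0 ≤ ‖H i (circleMap s₁ (2 * r) t)‖ := norm_nonneg _
    calc (q * ‖H i (circleMap s₁ (2 * r) t)‖) ^ 2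
        ≤ (((∏ j ∈ range k, ‖circleMap s₁ (2 * r) t - z i j‖) * (a / b) ^ k) *
          ‖H i (circleMap s₁ (2 * r) t)‖) ^ 2 := by gcongr
      _ = _ := by ring

theorem dv_le {ι : Type} (I : Finset ι) (G : ι → ℂ → ℂ) {s₁ : ℂ} {r B : ℝ} {k : ℕ}
    (hr : 0 < r) (hk : ∀ i ∈ I, Dv (G i) k s₁ (2 / 3 * r))
    (hB : ∀ t : ℝ, ∑ i ∈ I, ‖G i (circleMap s₁ (2 * r) t)‖ ^ 2 ≤ B) :
    ∑ i ∈ I, ‖G i s₁‖ ^ 2 ≤ 4 * (B / 4 ^ k) := by
  have h := dv_gen I G (a := 2 / 3 * r) (b := 4 / 3 * r) hr (by positivity) (by positivity)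
    (by linarith) hk hB
  have e1 : (2 / 3 * r) / (4 / 3 * r) = 1 / 2 := by
    field_simp
    norm_num
  have e2 : (((1 : ℝ) / 2) ^ k) ^ 2 = 1 / 4 ^ k := by
    rw [← pow_mul, mul_comm, pow_mul, one_div_pow, one_div_pow]
    norm_num
  rw [e1, e2, mul_one_div] at h
  exact h

lemma card_le_sum {ι : Type} (I : Finset ι) (v : ι → ℝ) {κ : ℝ} (h0 : ∀ i ∈ I, 0 ≤ v i)
    (h : ∀ i ∈ I, κ ≤ v i) : κ * (I.card : ℝ) ≤ ∑ i ∈ I, v i := by
  have h1 := Finset.sum_le_sum h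
  rw [Finset.sum_const, nsmul_eq_mul] at h1
  linarith

/-- **one cell** -/
theorem cellm {m : ℕ} (hm : m ≤ 3) {c : ℕ → ℂ} (R₀ V A : ℝ) : ∃ C : ℝ, 0 ≤ C ∧
    ∀ (Q : ℕ) {ι : Type} (I : Finset ι) (ψ : ι → ℕ → ℂ) (F : ι → ℂ → ℂ)
      (lam τ : ℝ) (k : ℕ),
      Dat m c R₀ V A Q I ψ F → 4 ≤ lam * (1 + Real.log Q) → lam ≤ 1 / 10 →
      (∀ i ∈ I, Dv (F i) k (pt (1 / 2 + lam) τ) (4 / 3 * lam)) →
      (I.card : ℝ) ≤ C * (2 + |τ|) ^ (2 * m) * (1 + Real.log Q) ^ (A + 2) *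
        ((Q : ℝ) ^ (2 - 2 / 3 * lam) + (Q : ℝ) ^ (2 + 50 * lam) / 4 ^ k) := by
  classical
  obtain ⟨C₁, hC₁, hr⟩ := right hm (c := c) R₀ V A
  obtain ⟨C₂, hC₂, hn⟩ := near hm (c := c) R₀ V A
  refine ⟨16 * C₁ + 64 * C₂, by positivity, ?_⟩
  intro Q ι I ψ F lam τ k hD hl hlam hk
  have hQ := hD.Q1
  have hA := hD.A0
  have hq1 : (1 : ℝ) ≤ Q := by exact_mod_cast hQ
  have hq0 : (0 : ℝ) < Q := by linarith
  have hlq : 0 ≤ Real.log Q := Real.log_nonneg hq1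
  set l : ℝ := 1 + Real.log Q with hld
  have hl0 : 0 < l := by linarith
  have hl1 : 1 ≤ l := by linarith
  have hlam0 : 0 < lam := by
    by_contra hcon
    have : lam * l ≤ 0 := mul_nonpos_of_nonpos_of_nonneg (not_lt.1 hcon) hl0.le
    linarith
  have hl40 : 40 ≤ l := by nlinarith
  set y : ℂ := ((Ph (Real.log ((Q : ℝ) ^ (2 : ℝ))) : ℝ) : ℂ) with hy
  set s₁ : ℂ := pt (1 / 2 + lam) τ with hs₁
  set G : ι → ℂ → ℂ := fun i => Gm c (ψ i) Q (F i) with hG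
  -- the two parts
  set I₁ := I.filter fun i => ‖G i s₁‖ < 1 / 4 with hI₁
  set I₂ := I.filter fun i => ¬ ‖G i s₁‖ < 1 / 4 with hI₂
  have hcard : (I.card : ℝ) = I₁.card + I₂.card := by
    rw [hI₁, hI₂]
    exact_mod_cast (Finset.card_filter_add_card_filter_not (s := I) (fun i => ‖G i s₁‖ < 1 / 4)).symm
  have hτ1 : 1 + |τ| ≤ 2 + |τ| := by linarith
  have hτ0 : 0 ≤ 1 + |τ| := by positivity
  -- small values
  have b1 : (I₁.card : ℝ) ≤ 16 * C₁ * ((2 + |τ|) ^ (2 * m) * l ^ (A + 2) *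
      (Q : ℝ) ^ (2 - 2 / 3 * lam)) := by
    have h1 := hr Q I₁ ψ F lam τ (hD.mono (Finset.filter_subset _ _)) hl (by linarith)
    have hPh : (1 / 2 : ℝ) ≤ ‖y‖ := by
      rw [hy, Complex.norm_real, Real.norm_of_nonneg (Ph_nn _)]
      exact half_le_Ph (Real.log_nonneg (Real.one_le_rpow hq1 (by norm_num)))
    have h2 := card_le_sum I₁ (fun i => ‖G i s₁ - y‖ ^ 2) (κ := 1 / 16)
      (fun i _ => by positivity) (fun i hi => by
        rw [hI₁, Finset.mem_filter] at hi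
        have h3 : ‖y‖ ≤ ‖G i s₁ - y‖ + ‖G i s₁‖ := by
          have := norm_sub_le (G i s₁) (G i s₁ - y)
          rw [sub_sub_cancel] at this
          linarith
        have h4 : (1 / 4 : ℝ) ≤ ‖G i s₁ - y‖ := by linarith [hi.2]
        have h5 : ((1 : ℝ) / 4) ^ 2 ≤ ‖G i s₁ - y‖ ^ 2 := by gcongr
        norm_num at h5 ⊢
        linarith)
    have h3 := h2.trans h1
    have h4 : C₁ * (1 + |τ|) ^ (2 * m) * l ^ (A + 2) * (Q : ℝ) ^ (2 - 2 / 3 * lam) ≤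
        C₁ * (2 + |τ|) ^ (2 * m) * l ^ (A + 2) * (Q : ℝ) ^ (2 - 2 / 3 * lam) := by gcongr
    have h5 := h3.trans h4
    calc (I₁.card : ℝ) = 16 * (1 / 16 * (I₁.card : ℝ)) := by ring
      _ ≤ 16 * (C₁ * (2 + |τ|) ^ (2 * m) * l ^ (A + 2) * (Q : ℝ) ^ (2 - 2 / 3 * lam)) := by
          gcongr
      _ = _ := by ring
  -- zeros of high order
  have b2 : (I₂.card : ℝ) ≤ 64 * C₂ * ((2 + |τ|) ^ (2 * m) * l ^ (A + 2) *
      ((Q : ℝ) ^ (2 + 50 * lam) / 4 ^ k)) := by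
    have hD₂ := hD.mono (Finset.filter_subset _ _ : I₂ ⊆ I)
    have h1 := dv_le I₂ G (s₁ := s₁) (r := 2 * lam) (k := k)
      (B := C₂ * (2 + |τ|) ^ (2 * m) * l ^ (A + 2) * (Q : ℝ) ^ (2 + 50 * lam)) (by positivity)
      (fun i hi => ?_) (fun t => ?_)
    · have h2 := card_le_sum I₂ (fun i => ‖G i s₁‖ ^ 2) (κ := 1 / 16)
        (fun i _ => by positivity) (fun i hi => by
          rw [hI₂, Finset.mem_filter] at hi
          have h4 : (1 / 4 : ℝ) ≤ ‖G i s₁‖ := not_lt.1 hi.2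
          have h5 : ((1 : ℝ) / 4) ^ 2 ≤ ‖G i s₁‖ ^ 2 := by gcongr
          norm_num at h5 ⊢
          linarith)
      have h3 := h2.trans h1
      calc (I₂.card : ℝ) = 16 * (1 / 16 * (I₂.card : ℝ)) := by ring
        _ ≤ 16 * (4 * (C₂ * (2 + |τ|) ^ (2 * m) * l ^ (A + 2) *
            (Q : ℝ) ^ (2 + 50 * lam) / 4 ^ k)) := by gcongr
        _ = _ := by ring
    · have h2 := (hk i (Finset.mem_filter.1 hi).1).mul
        (cut_diff (Xq Q) _ : Differentiable ℂ (Ml c (ψ i) (Xq Q))) (G := G i) (fun _ => rfl)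
      exact h2.move (by rw [sub_self, norm_zero]; linarith)
    · have h5 : ‖circleMap s₁ (2 * (2 * lam)) t - s₁‖ = 4 * lam := by
        rw [circleMap_sub_center, norm_circleMap_zero, abs_of_pos (by positivity)]
        ring
      have h6 := (Complex.abs_re_le_norm (circleMap s₁ (2 * (2 * lam)) t - s₁)).trans h5.le
      have h7 := (Complex.abs_im_le_norm (circleMap s₁ (2 * (2 * lam)) t - s₁)).trans h5.le
      rw [sub_re, hs₁, pt_re] at h6
      rw [sub_im, hs₁, pt_im] at h7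
      have h8 := hn Q I₂ ψ F (5 * lam) (circleMap s₁ (2 * (2 * lam)) t) hD₂ (by linarith)
        (by linarith) (by
          rw [abs_le] at h6 ⊢
          constructor <;> linarith [h6.1, h6.2])
      refine h8.trans ?_
      have h9 : 1 + |(circleMap s₁ (2 * (2 * lam)) t).im| ≤ 2 + |τ| := by
        have h10 : |(circleMap s₁ (2 * (2 * lam)) t).im| ≤ 4 * lam + |τ| := by
          have := abs_add_le ((circleMap s₁ (2 * (2 * lam)) t).im - τ) τ
          rw [sub_add_cancel] at this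
          linarith
        linarith
      have h10 : (2 : ℝ) + 10 * (5 * lam) = 2 + 50 * lam := by ring
      rw [h10]
      gcongr
  have hp0 : 0 ≤ (2 + |τ|) ^ (2 * m) * l ^ (A + 2) := by positivity
  have q1 : 0 ≤ (Q : ℝ) ^ (2 - 2 / 3 * lam) := by positivity
  have q2 : 0 ≤ (Q : ℝ) ^ (2 + 50 * lam) / 4 ^ k := by positivity
  set U := (2 + |τ|) ^ (2 * m) * l ^ (A + 2) with hU
  set u₁ := (Q : ℝ) ^ (2 - 2 / 3 * lam) with hu₁
  set u₂ := (Q : ℝ) ^ (2 + 50 * lam) / 4 ^ k with hu₂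
  have e1 : (16 * C₁ + 64 * C₂) * (2 + |τ|) ^ (2 * m) * l ^ (A + 2) * (u₁ + u₂) =
      16 * C₁ * (U * u₁) + 64 * C₂ * (U * u₂) + (16 * C₁ * (U * u₂) + 64 * C₂ * (U * u₁)) := by
    rw [hU]
    ring
  rw [hcard, e1]
  have p1 : 0 ≤ 16 * C₁ * (U * u₂) := by positivity
  have p2 : 0 ≤ 64 * C₂ * (U * u₁) := by positivity
  linarith

end Pool.Agent.R399.TM
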