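import Pool.Agent.R399.TW.Cell

/-!
# Zeros of high order
-/

set_option autoImplicit false

namespace Pool.Agent.R399.TM

open Finset Filter Topology Complex MeasureTheory
open Pool.Agent.R399.TW

/-- an entire function with a zero of order at least `k` is divisible by `(z - z₀)^k` -/
theorem fact {F : ℂ → ℂ} (hF : Differentiable ℂ F) {z₀ : ℂ} (k : ℕ) :
    (k : ℕ∞) ≤ analyticOrderAt F z₀ →
      ∃ H : ℂ → ℂ, Differentiable ℂ H ∧ ∀ z, F z = (z - z₀) ^ k * H z := by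
  induction k with
  | zero => exact fun _ => ⟨F, hF, fun z => by simp⟩
  | succ k ih =>
    intro hk
    obtain ⟨H, hH, hFH⟩ := ih (le_trans (by exact_mod_cast Nat.le_succ k) hk)
    have hHa : AnalyticAt ℂ H z₀ := hH.analyticAt z₀
    have hpa : AnalyticAt ℂ (fun z : ℂ => (z - z₀) ^ k) z₀ := by fun_prop
    have h1 : analyticOrderAt F z₀ = analyticOrderAt (fun z : ℂ => (z - z₀) ^ k) z₀ +
        analyticOrderAt H z₀ := by
      rw [← analyticOrderAt_mul hpa hHa]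
      congr 1
      funext z
      exact hFH z
    have h2 : analyticOrderAt (fun z : ℂ => (z - z₀) ^ k) z₀ = k := analyticOrderAt_centeredMonomial
    have h3 : H z₀ = 0 := by
      by_contra hne
      have h4 : analyticOrderAt H z₀ = 0 := hHa.analyticOrderAt_eq_zero.2 hne
      rw [h1, h2, h4, add_zero] at hk
      have h5 : k + 1 ≤ k := by exact_mod_cast hk
      omega
    refine ⟨dslope H z₀, ?_, fun z => ?_⟩
    · rw [← differentiableOn_univ]
      exact (Complex.differentiableOn_dslope Filter.univ_mem).2 hH.differentiableOn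
    · rw [hFH z]
      rcases eq_or_ne z z₀ with rfl | hz
      · rw [h3]
        simp
      · rw [dslope_of_ne _ hz, slope_def_field, h3, sub_zero, pow_succ]
        have : z - z₀ ≠ 0 := sub_ne_zero.2 hz
        field_simp

/-- **the number of members with a zero of high order near `s₁`** -/
theorem mult_gen {ι : Type} (I : Finset ι) (G : ι → ℂ → ℂ) (z : ι → ℂ) {s₁ : ℂ} {r a b B : ℝ}
    {k : ℕ} (hr : 0 < r) (ha : 0 ≤ a) (hb : 0 < b) (hab : a + b ≤ 2 * r)
    (hG : ∀ i ∈ I, Differentiable ℂ (G i)) (hz : ∀ i ∈ I, ‖z i - s₁‖ ≤ a)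
    (hk : ∀ i ∈ I, (k : ℕ∞) ≤ analyticOrderAt (G i) (z i))
    (hB : ∀ t : ℝ, ∑ i ∈ I, ‖G i (circleMap s₁ (2 * r) t)‖ ^ 2 ≤ B) :
    ∑ i ∈ I, ‖G i s₁‖ ^ 2 ≤ 4 * (B * ((a / b) ^ k) ^ 2) := by
  have hch : ∀ i : ι, ∃ H : ℂ → ℂ, i ∈ I → Differentiable ℂ H ∧
      ∀ w, G i w = (w - z i) ^ k * H w := by
    intro i
    by_cases hi : i ∈ I
    · obtain ⟨H, h1, h2⟩ := fact (hG i hi) k (hk i hi)
      exact ⟨H, fun _ => ⟨h1, h2⟩⟩
    · exact ⟨0, fun h => absurd h hi⟩
  choose H hH using hch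
  set q : ℝ := a ^ k with hq
  have hq0 : 0 ≤ q := by positivity
  have key := disc_le I (fun i w => (q : ℂ) * H i w) (fun _ => s₁) (s₀ := s₁) (r := r)
    (B := B * ((a / b) ^ k) ^ 2) hr
    (fun i hi => (((hH i hi).1.const_mul (q : ℂ)).diffContOnCl)) (fun i _ => by simpa using hr.le)
    (fun t => ?_)
  · refine le_trans (Finset.sum_le_sum fun i hi => ?_) key
    rw [(hH i hi).2 s₁, norm_mul, norm_mul, norm_pow, Complex.norm_real,
      Real.norm_of_nonneg hq0, norm_sub_rev]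
    have h1 : ‖z i - s₁‖ ^ k ≤ q := pow_le_pow_left₀ (norm_nonneg _) (hz i hi) k
    gcongr
  · refine le_trans ?_ (mul_le_mul_of_nonneg_right (hB t) (by positivity))
    rw [Finset.sum_mul]
    refine Finset.sum_le_sum fun i hi => ?_
    rw [(hH i hi).2 (circleMap s₁ (2 * r) t), norm_mul, norm_mul, norm_pow, Complex.norm_real,
      Real.norm_of_nonneg hq0]
    have h1 : b ≤ ‖circleMap s₁ (2 * r) t - z i‖ := by
      have h5 : ‖circleMap s₁ (2 * r) t - s₁‖ = 2 * r := by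
        rw [circleMap_sub_center, norm_circleMap_zero, abs_of_pos (by positivity)]
      have h6 := norm_sub_norm_le (circleMap s₁ (2 * r) t - s₁) (z i - s₁)
      rw [h5] at h6
      have h7 : circleMap s₁ (2 * r) t - s₁ - (z i - s₁) = circleMap s₁ (2 * r) t - z i := by ring
      rw [h7] at h6
      linarith [hz i hi]
    have h2 : q ≤ ‖circleMap s₁ (2 * r) t - z i‖ ^ k * (a / b) ^ k := by
      rw [hq, ← mul_pow]
      refine pow_le_pow_left₀ ha ?_ k
      rw [mul_div_assoc', le_div_iff₀ hb]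
      nlinarith
    have h4 : 0 ≤ ‖H i (circleMap s₁ (2 * r) t)‖ := norm_nonneg _
    calc (q * ‖H i (circleMap s₁ (2 * r) t)‖) ^ 2
        ≤ ((‖circleMap s₁ (2 * r) t - z i‖ ^ k * (a / b) ^ k) *
          ‖H i (circleMap s₁ (2 * r) t)‖) ^ 2 := by gcongr
      _ = _ := by ring

theorem mult_le {ι : Type} (I : Finset ι) (G : ι → ℂ → ℂ) (z : ι → ℂ) {s₁ : ℂ} {r B : ℝ} {k : ℕ}
    (hr : 0 < r) (hG : ∀ i ∈ I, Differentiable ℂ (G i)) (hz : ∀ i ∈ I, ‖z i - s₁‖ ≤ 2 / 3 * r)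
    (hk : ∀ i ∈ I, (k : ℕ∞) ≤ analyticOrderAt (G i) (z i))
    (hB : ∀ t : ℝ, ∑ i ∈ I, ‖G i (circleMap s₁ (2 * r) t)‖ ^ 2 ≤ B) :
    ∑ i ∈ I, ‖G i s₁‖ ^ 2 ≤ 4 * (B / 4 ^ k) := by
  have h := mult_gen I G z (a := 2 / 3 * r) (b := 4 / 3 * r) hr (by positivity) (by positivity)
    (by linarith) hG hz hk hB
  have e1 : (2 / 3 * r) / (4 / 3 * r) = 1 / 2 := by
    field_simp
    norm_num
  have e2 : (((1 : ℝ) / 2) ^ k) ^ 2 = 1 / 4 ^ k := by
    rw [← pow_mul, mul_comm, pow_mul, one_div_pow, one_div_pow]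
    norm_num
  rw [e1, e2, mul_one_div] at h
  exact h

end Pool.Agent.R399.TM
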