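import Pool.Agent.R399.TM.Fact
import Mathlib.Analysis.Complex.Hadamard

/-!
# The three lines theorem in mean square
-/

set_option autoImplicit false

namespace Pool.Agent.R399.TM

open Finset Filter Topology Complex MeasureTheory
open Pool.Agent.R399.TW
open scoped ComplexConjugate

/-- the constant -/
noncomputable def K3 (n : ℕ) : ℝ := Real.exp 2 * Real.exp (((n : ℝ)) ^ 2)

lemma gpoly (n : ℕ) (t τ : ℝ) : (1 + |t|) ^ n * Real.exp (-(t - τ) ^ 2) ≤
    (1 + |τ|) ^ n * Real.exp ((n : ℝ) ^ 2) := by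
  have h1 : 1 + |t| ≤ (1 + |τ|) * (1 + |t - τ|) := by
    have h2 : |t| ≤ |t - τ| + |τ| := by
      have := abs_add_le (t - τ) τ
      simpa using this
    nlinarith [abs_nonneg τ, abs_nonneg (t - τ)]
  have h3 : (1 + |t - τ|) ^ n ≤ Real.exp (n * |t - τ|) := by
    rw [Real.exp_nat_mul]
    refine pow_le_pow_left₀ (by positivity) ?_ n
    have := Real.add_one_le_exp |t - τ|
    linarith
  calc (1 + |t|) ^ n * Real.exp (-(t - τ) ^ 2)
      ≤ ((1 + |τ|) * (1 + |t - τ|)) ^ n * Real.exp (-(t - τ) ^ 2) := by gcongr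
    _ = (1 + |τ|) ^ n * ((1 + |t - τ|) ^ n * Real.exp (-(t - τ) ^ 2)) := by rw [mul_pow]; ring
    _ ≤ (1 + |τ|) ^ n * (Real.exp (n * |t - τ|) * Real.exp (-(t - τ) ^ 2)) := by gcongr
    _ ≤ (1 + |τ|) ^ n * Real.exp ((n : ℝ) ^ 2) := by
      rw [← Real.exp_add]
      gcongr
      have h4 : (t - τ) ^ 2 = |t - τ| ^ 2 := (sq_abs _).symm
      rw [h4]
      nlinarith [sq_nonneg ((n : ℝ) - |t - τ| / 2), sq_nonneg (|t - τ|)]

/-- Cauchy-Schwarz -/
lemma cs_sum {ι : Type} (I : Finset ι) (a w : ι → ℂ) :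
    ‖∑ i ∈ I, a i * w i‖ ^ 2 ≤ (∑ i ∈ I, ‖a i‖ ^ 2) * ∑ i ∈ I, ‖w i‖ ^ 2 := by
  have h1 : ‖∑ i ∈ I, a i * w i‖ ≤ ∑ i ∈ I, ‖a i‖ * ‖w i‖ := by
    refine (norm_sum_le _ _).trans (le_of_eq ?_)
    exact Finset.sum_congr rfl fun i _ => norm_mul _ _
  exact (pow_le_pow_left₀ (norm_nonneg _) h1 2).trans (Finset.sum_mul_sq_le_sq_mul_sq I _ _)

/-- **three lines** -/
theorem three {ι : Type} (I : Finset ι) (f : ι → ℂ → ℂ) {a b A₀ A₁ : ℝ} {n : ℕ} (ha : -1 ≤ a)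
    (hab : a < b) (hb : b ≤ 2) (hf : ∀ i ∈ I, Differentiable ℂ (f i))
    (hgr : ∀ i ∈ I, ∃ A C : ℝ, ∀ z ∈ strip a b, ‖f i z‖ ≤ C * Real.exp (A * |z.im|))
    (hA₀ : 0 ≤ A₀) (hA₁ : 0 ≤ A₁)
    (h0 : ∀ t : ℝ, ∑ i ∈ I, ‖f i (pt a t)‖ ^ 2 ≤ (A₀ * (1 + |t|) ^ n) ^ 2)
    (h1 : ∀ t : ℝ, ∑ i ∈ I, ‖f i (pt b t)‖ ^ 2 ≤ (A₁ * (1 + |t|) ^ n) ^ 2)
    {s : ℂ} (hs : a ≤ s.re) (hs' : s.re ≤ b) :
    ∑ i ∈ I, ‖f i s‖ ^ 2 ≤ (Real.exp 4 * Real.exp ((n : ℝ) ^ 2) * (1 + |s.im|) ^ n *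
      (A₀ ^ (1 - (s.re - a) / (b - a)) * A₁ ^ ((s.re - a) / (b - a)))) ^ 2 := by
  classical
  set τ := s.im with hτ
  set S : ℝ := ∑ i ∈ I, ‖f i s‖ ^ 2 with hS
  have hS0 : 0 ≤ S := Finset.sum_nonneg fun _ _ => by positivity
  set g : ℂ → ℂ := fun z => cexp ((z - τ * Complex.I) ^ 2) * ∑ i ∈ I, conj (f i s) * f i z with hg
  have hgd : Differentiable ℂ g := by
    have h2 : Differentiable ℂ fun z : ℂ => ∑ i ∈ I, conj (f i s) * f i z :=
      Differentiable.fun_sum fun i hi => (hf i hi).const_mul _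
    have h3 : Differentiable ℂ fun z : ℂ => cexp ((z - τ * Complex.I) ^ 2) := by fun_prop
    exact h3.mul h2
  have hnorm : ∀ z : ℂ, ‖cexp ((z - τ * Complex.I) ^ 2)‖ =
      Real.exp (z.re ^ 2) * Real.exp (-(z.im - τ) ^ 2) := by
    intro z
    rw [Complex.norm_exp, ← Real.exp_add]
    congr 1
    simp [pow_two]
    ring
  have hsum : ∀ z : ℂ, ‖∑ i ∈ I, conj (f i s) * f i z‖ ^ 2 ≤ S * ∑ i ∈ I, ‖f i z‖ ^ 2 := by
    intro z
    refine (cs_sum I _ _).trans (le_of_eq ?_)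
    congr 1
    exact Finset.sum_congr rfl fun i _ => by rw [RCLike.norm_conj]
  have hline : ∀ x : ℝ, -1 ≤ x → x ≤ 2 → ∀ A : ℝ, 0 ≤ A →
      (∀ t : ℝ, ∑ i ∈ I, ‖f i (pt x t)‖ ^ 2 ≤ (A * (1 + |t|) ^ n) ^ 2) →
      ∀ z ∈ re ⁻¹' {x}, ‖g z‖ ≤ Real.exp 4 * Real.exp ((n : ℝ) ^ 2) * (1 + |τ|) ^ n * √S * A := by
    intro x hx1 hx2 A hA hB z hz
    have hzx : z.re = x := hz
    have hz' : z = pt x z.im := by rw [← hzx]; exact eq_pt z
    have h2 := hsum z
    have h3 := hB z.im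
    rw [← hz'] at h3
    have h4 : ‖∑ i ∈ I, conj (f i s) * f i z‖ ≤ √S * (A * (1 + |z.im|) ^ n) := by
      refine abs_le_of_sq_le_sq' ?_ (by positivity) |>.2
      rw [mul_pow, Real.sq_sqrt hS0]
      exact h2.trans (mul_le_mul_of_nonneg_left h3 hS0)
    have h5 : Real.exp (z.re ^ 2) ≤ Real.exp 4 := by
      apply Real.exp_le_exp.2
      rw [hzx]
      nlinarith
    have h6 := gpoly n z.im τ
    simp only [hg]
    rw [norm_mul, hnorm]
    calc Real.exp (z.re ^ 2) * Real.exp (-(z.im - τ) ^ 2) * ‖∑ i ∈ I, conj (f i s) * f i z‖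
        ≤ Real.exp 4 * Real.exp (-(z.im - τ) ^ 2) * (√S * (A * (1 + |z.im|) ^ n)) := by gcongr
      _ = Real.exp 4 * √S * A * ((1 + |z.im|) ^ n * Real.exp (-(z.im - τ) ^ 2)) := by ring
      _ ≤ Real.exp 4 * √S * A * ((1 + |τ|) ^ n * Real.exp ((n : ℝ) ^ 2)) := by gcongr
      _ = _ := by ring
  have hbdd : BddAbove ((norm ∘ g) '' HadamardThreeLines.verticalClosedStrip a b) := by
    have hch : ∀ i : ι, ∃ A C : ℝ, i ∈ I → ∀ z ∈ strip a b, ‖f i z‖ ≤ C * Real.exp (A * |z.im|) := by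
      intro i
      by_cases hi : i ∈ I
      · obtain ⟨A, C, h⟩ := hgr i hi
        exact ⟨A, C, fun _ => h⟩
      · exact ⟨0, 0, fun h => absurd h hi⟩
    choose A C hAC using hch
    have hg' : ∀ i : ι, ∃ D : ℝ, 0 ≤ D ∧ ∀ t : ℝ,
        Real.exp (A i * |t|) * Real.exp (-(t - τ) ^ 2) ≤ D * Real.exp (-|t|) := fun i => gdec (A i) τ
    choose D hD0 hD using hg'
    refine ⟨Real.exp 4 * ∑ i ∈ I, ‖f i s‖ * (|C i| * D i), ?_⟩
    rintro _ ⟨z, hz, rfl⟩
    have hz' : a ≤ z.re ∧ z.re ≤ b := hz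
    simp only [Function.comp_apply, hg]
    rw [norm_mul, hnorm, mul_assoc]
    have h5 : Real.exp (z.re ^ 2) ≤ Real.exp 4 := by
      apply Real.exp_le_exp.2
      nlinarith
    refine mul_le_mul h5 ?_ (by positivity) (by positivity)
    have h6 : ‖∑ i ∈ I, conj (f i s) * f i z‖ ≤ ∑ i ∈ I, ‖f i s‖ * ‖f i z‖ := by
      refine (norm_sum_le _ _).trans (le_of_eq ?_)
      exact Finset.sum_congr rfl fun i _ => by rw [norm_mul, RCLike.norm_conj]
    calc Real.exp (-(z.im - τ) ^ 2) * ‖∑ i ∈ I, conj (f i s) * f i z‖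
        ≤ Real.exp (-(z.im - τ) ^ 2) * ∑ i ∈ I, ‖f i s‖ * ‖f i z‖ := by gcongr
      _ = ∑ i ∈ I, ‖f i s‖ * (Real.exp (-(z.im - τ) ^ 2) * ‖f i z‖) := by
          rw [Finset.mul_sum]
          exact Finset.sum_congr rfl fun i _ => by ring
      _ ≤ ∑ i ∈ I, ‖f i s‖ * (|C i| * D i) := by
          refine Finset.sum_le_sum fun i hi => ?_
          refine mul_le_mul_of_nonneg_left ?_ (norm_nonneg _)
          have h7 := hAC i hi z hz'
          have h8 := hD i z.im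
          have h9 : Real.exp (-|z.im|) ≤ 1 := by
            rw [Real.exp_le_one_iff]
            linarith [abs_nonneg z.im]
          have h10 := le_abs_self (C i)
          calc Real.exp (-(z.im - τ) ^ 2) * ‖f i z‖
              ≤ Real.exp (-(z.im - τ) ^ 2) * (|C i| * Real.exp (A i * |z.im|)) := by
                gcongr
                exact h7.trans (mul_le_mul_of_nonneg_right h10 (Real.exp_pos _).le)
            _ = |C i| * (Real.exp (A i * |z.im|) * Real.exp (-(z.im - τ) ^ 2)) := by ring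
            _ ≤ |C i| * (D i * Real.exp (-|z.im|)) := by gcongr
            _ ≤ |C i| * (D i * 1) := by
                have := hD0 i
                gcongr
            _ = _ := by ring
  set M : ℝ := Real.exp 4 * Real.exp ((n : ℝ) ^ 2) * (1 + |τ|) ^ n with hM
  have hM0 : 0 < M := by positivity
  have key := HadamardThreeLines.norm_le_interp_of_mem_verticalClosedStrip' (f := g) (z := s) hab
    ⟨hs, hs'⟩ hgd.diffContOnCl hbdd (hline a ha (by linarith) A₀ hA₀ h0)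
    (hline b (by linarith) hb A₁ hA₁ h1)
  set θ : ℝ := (s.re - a) / (b - a) with hθ
  have hgs : S ≤ ‖g s‖ := by
    simp only [hg]
    rw [norm_mul, hnorm]
    have h2 : ∑ i ∈ I, conj (f i s) * f i s = ((S : ℝ) : ℂ) := by
      rw [hS]
      push_cast
      refine Finset.sum_congr rfl fun i _ => ?_
      rw [mul_comm, Complex.mul_conj, Complex.normSq_eq_norm_sq]
      push_cast
      rfl
    rw [h2, Complex.norm_real, Real.norm_of_nonneg hS0]
    have h3 : 1 ≤ Real.exp (s.re ^ 2) := Real.one_le_exp (by positivity)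
    have h4 : Real.exp (-(s.im - τ) ^ 2) = 1 := by
      rw [hτ, sub_self]
      simp
    rw [h4, mul_one]
    exact le_mul_of_one_le_left hS0 h3
  have hprod : (M * √S * A₀) ^ (1 - θ) * (M * √S * A₁) ^ θ =
      M * √S * (A₀ ^ (1 - θ) * A₁ ^ θ) := by
    have h2 : 0 ≤ M * √S := by positivity
    rw [Real.mul_rpow h2 hA₀, Real.mul_rpow h2 hA₁]
    have h3 : (M * √S) ^ (1 - θ) * (M * √S) ^ θ = M * √S := by
      rcases h2.eq_or_lt with h | h
      · rw [← h]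
        have h4 : θ ≤ 1 := by
          rw [hθ, div_le_one (by linarith)]
          linarith
        have h5 : 0 ≤ θ := div_nonneg (by linarith) (by linarith)
        rcases h5.eq_or_lt with h6 | h6
        · rw [← h6]
          simp
        · rw [Real.zero_rpow h6.ne', mul_zero]
      · rw [← Real.rpow_add h]
        simp
    calc (M * √S) ^ (1 - θ) * A₀ ^ (1 - θ) * ((M * √S) ^ θ * A₁ ^ θ)
        = ((M * √S) ^ (1 - θ) * (M * √S) ^ θ) * (A₀ ^ (1 - θ) * A₁ ^ θ) := by ring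
      _ = _ := by rw [h3]
  rw [hprod] at key
  have hfin : S ≤ M * √S * (A₀ ^ (1 - θ) * A₁ ^ θ) := hgs.trans key
  have hW : 0 ≤ A₀ ^ (1 - θ) * A₁ ^ θ := by positivity
  set W : ℝ := A₀ ^ (1 - θ) * A₁ ^ θ with hWd
  have hsq : √S ≤ M * W := by
    rcases (Real.sqrt_nonneg S).eq_or_lt with h | h
    · rw [← h]
      positivity
    · have h2 : √S * √S ≤ (M * W) * √S := by
        rw [Real.mul_self_sqrt hS0]
        linarith
      exact le_of_mul_le_mul_right h2 h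
  calc S = √S ^ 2 := (Real.sq_sqrt hS0).symm
    _ ≤ (M * W) ^ 2 := by gcongr

end Pool.Agent.R399.TM
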