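import Pool.Agent.R399.TM.Vals
import Pool.Agent.R399.TM.Three
import Pool.Agent.R399.TW.Par

/-!
# The mean square of the mollified values near the critical line
-/

set_option autoImplicit false

namespace Pool.Agent.R399.TM

open Finset Filter Topology Complex MeasureTheory
open Pool.Agent.R399.TW
open scoped ComplexConjugate

/-- the length of the mollifier -/
noncomputable def Xq (Q : ℕ) : ℕ := ⌈(Q : ℝ) ^ (1 / 3 : ℝ)⌉₊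

/-- the mollified functions -/
noncomputable def Gm (c ψ : ℕ → ℂ) (Q : ℕ) (F : ℂ → ℂ) (z : ℂ) : ℂ := F z * Ml c ψ (Xq Q) z

/-- the data -/
structure Dat (m : ℕ) (c : ℕ → ℂ) (R₀ V A : ℝ) (Q : ℕ) {ι : Type} (I : Finset ι) (ψ : ι → ℕ → ℂ)
    (F : ι → ℂ → ℂ) : Prop where
  Q1 : 1 ≤ Q
  R0 : 0 ≤ R₀
  V0 : 0 ≤ V
  A0 : 0 ≤ A
  lin : Lin c
  sb : ∀ θ : ℝ, 0 < θ → θ ≤ 1 → SB c θ (Real.exp (2 * A) * θ ^ (-A))
  ls : LSv I ψ 6 ((Q : ℝ) ^ 2) 0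
  mem : ∀ i ∈ I, Mem c (R₀ * (Q : ℝ) ^ m) V m (ψ i) (F i)
  card : (I.card : ℝ) ≤ (Q : ℝ) ^ 2

lemma Dat.mono {m : ℕ} {c : ℕ → ℂ} {R₀ V A : ℝ} {Q : ℕ} {ι : Type} {I J : Finset ι}
    {ψ : ι → ℕ → ℂ} {F : ι → ℂ → ℂ} (h : Dat m c R₀ V A Q I ψ F) (hJ : J ⊆ I) :
    Dat m c R₀ V A Q J ψ F where
  Q1 := h.Q1
  R0 := h.R0
  V0 := h.V0
  A0 := h.A0
  lin := h.lin
  sb := h.sb
  ls := h.ls.mono hJ
  mem := fun i hi => h.mem i (hJ hi)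
  card := le_trans (by exact_mod_cast Finset.card_le_card hJ) h.card

lemma adm_fix {m : ℕ} (hm : m ≤ 3) {δ : ℝ} (h0 : 0 ≤ δ) :
    Adm m 2 2 δ (1 / 3) 2 (5 / 3) (2 - 2 / 3 * δ) := by
  have hm' : (m : ℝ) ≤ 3 := by exact_mod_cast hm
  constructor <;> push_cast <;> nlinarith

/-- to the right of the critical line -/
theorem right {m : ℕ} (hm : m ≤ 3) {c : ℕ → ℂ} (R₀ V A : ℝ) : ∃ C : ℝ, 0 ≤ C ∧
    ∀ (Q : ℕ) {ι : Type} (I : Finset ι) (ψ : ι → ℕ → ℂ) (F : ι → ℂ → ℂ) (δ τ : ℝ),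
      Dat m c R₀ V A Q I ψ F → 4 ≤ δ * (1 + Real.log Q) → δ ≤ 1 / 2 →
      ∑ i ∈ I, ‖Gm c (ψ i) Q (F i) (pt (1 / 2 + δ) τ) -
          ((Ph (Real.log ((Q : ℝ) ^ (2 : ℝ))) : ℝ) : ℂ)‖ ^ 2 ≤
        C * (1 + |τ|) ^ (2 * m) * (1 + Real.log Q) ^ (A + 2) * (Q : ℝ) ^ (2 - 2 / 3 * δ) := by
  obtain ⟨K, hK, hv⟩ := vals m
  set W : ℝ := 1 + (R₀ * V ^ m) ^ 2 with hW
  have hW0 : 0 ≤ W := by positivity
  refine ⟨K * 6 * (Real.exp (2 * A) * 2 ^ A) * (W * (200 * Real.exp (6 * 2) * (2 + 2) ^ 2)),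
    by positivity, ?_⟩
  intro Q ι I ψ F δ τ hD hδl hδ
  have hQ := hD.Q1
  have hR₀ := hD.R0
  have hV := hD.V0
  have hA := hD.A0
  have hq1 : (1 : ℝ) ≤ Q := by exact_mod_cast hQ
  have hq0 : (0 : ℝ) < Q := by linarith
  have hlq : 0 ≤ Real.log Q := Real.log_nonneg hq1
  set l : ℝ := 1 + Real.log Q with hl
  have hl1 : 1 ≤ l := by rw [hl]; linarith
  have hl0 : 0 < l := by linarith
  have hδ0 : 0 < δ := by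
    by_contra hcon
    have : δ * l ≤ 0 := mul_nonpos_of_nonpos_of_nonneg (not_lt.1 hcon) hl0.le
    linarith
  have hAdm := adm_fix hm hδ0.le
  obtain ⟨X1, -, -⟩ := ceil_bounds hq1 hAdm.x0
  obtain ⟨M1, -, -⟩ := ceil_bounds hq1 hAdm.n0
  have hθ0 : (0 : ℝ) < 1 / (2 * l) := by positivity
  have hθ1 : 1 / (2 * l) ≤ (1 : ℝ) / 2 := by
    rw [div_le_div_iff₀ (by positivity) (by norm_num)]
    linarith
  have hY1 : (1 : ℝ) ≤ (Q : ℝ) ^ (2 : ℝ) := Real.one_le_rpow hq1 (by norm_num)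
  have hSB := hD.sb (1 / (2 * l)) hθ0 (by linarith)
  have key := hv I ψ F c (R₀ * (Q : ℝ) ^ m) V 6 ((Q : ℝ) ^ 2) 0 (1 / (2 * l))
    (Real.exp (2 * A) * (1 / (2 * l)) ^ (-A)) ((Q : ℝ) ^ (2 : ℝ)) (Xq Q) ⌈(Q : ℝ) ^ (5 / 3 : ℝ)⌉₊
    (pt (1 / 2 + δ) τ) hD.ls hD.mem hD.lin hSB (by positivity) hV hθ0.le (by linarith) X1 M1
    hY1 (by rw [pt_re]; linarith) (by rw [pt_re]; linarith)
  rw [pt_re, pt_im, zero_add] at key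
  have hb := bd_le (m := m) (l := l) hQ hl hδl hδ hAdm
  set X := ⌈(Q : ℝ) ^ (1 / 3 : ℝ)⌉₊ with hX
  set M := ⌈(Q : ℝ) ^ (5 / 3 : ℝ)⌉₊ with hM
  have X1' : (1 : ℝ) ≤ X := by exact_mod_cast X1
  have M1' : (1 : ℝ) ≤ M := by exact_mod_cast M1
  have hXq : Xq Q = X := rfl
  rw [hXq] at key
  set Y : ℝ := (Q : ℝ) ^ (2 : ℝ) with hYd
  have hY0 : 0 < Y := by positivity
  have hlY : 0 ≤ Real.log Y := Real.log_nonneg hY1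
  have hlM : 0 ≤ Real.log M := Real.log_nonneg M1'
  have hτ : (1 : ℝ) ≤ (1 + |τ|) ^ (2 * m) := one_le_pow₀ (by linarith [abs_nonneg τ])
  -- comparison
  have hcmp : vb m (R₀ * (Q : ℝ) ^ m) V ((Q : ℝ) ^ 2) (1 / (2 * l)) Y (1 / 2 + δ) τ X M ≤
      W * (1 + |τ|) ^ (2 * m) *
        bd m ((Q : ℝ) ^ 2) Q δ Y (1 / l) (1 / (2 * l)) X M := by
    unfold vb bd
    have e1 : (1 : ℝ) - 2 * (1 / 2 + δ) = -2 * δ := by ring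
    have e2 : (2 : ℝ) - 2 * (1 / 2 + δ) = 1 - 2 * δ := by ring
    have e4 : (-1 : ℝ) - 2 * (1 / 2 + δ) = -2 - 2 * δ := by ring
    have e5 : (1 : ℝ) / 2 + δ - 1 / 2 = δ := by ring
    rw [e1, e2, e4, e5]
    have hr0 : (0 : ℝ) ≤ 1 / l := by positivity
    have g1 : (X : ℝ) ^ (-2 * δ) ≤ (X : ℝ) ^ (4 * (1 / l) - 2 * δ) :=
      Real.rpow_le_rpow_of_exponent_le X1' (by linarith)
    have g2 : Y ^ (1 - 2 * δ) ≤ Y ^ (1 + 4 * (1 / l) - 2 * δ) :=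
      Real.rpow_le_rpow_of_exponent_le hY1 (by linarith)
    set T₁ : ℝ := ((Q : ℝ) ^ 2 * (X : ℝ) ^ (4 * (1 / l) - 2 * δ) + Y ^ (1 + 4 * (1 / l) - 2 * δ)) *
      ((1 + Real.log Y) ^ 2 * Y ^ (1 / (2 * l))) with hT₁
    set T₂ : ℝ := Y ^ (-2 * δ) / δ ^ 2 * (((Q : ℝ) ^ 2 + (M * X : ℕ)) *
      ((M * X : ℕ) : ℝ) ^ (1 / (2 * l))) with hT₂
    set T₃ : ℝ := Y ^ (-2 - 2 * δ) * ((X : ℝ) ^ 4 * (1 + (Q : ℝ) ^ 2 / M) *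
      ((1 + Real.log M) ^ 2 * (M : ℝ) ^ (1 / (2 * l) - 1))) with hT₃
    have p1 : 0 ≤ T₁ := by positivity
    have p2 : 0 ≤ T₂ := by positivity
    have p3 : 0 ≤ T₃ := by positivity
    have a1 : ((Q : ℝ) ^ 2 * (X : ℝ) ^ (-2 * δ) + Y ^ (1 - 2 * δ)) *
      ((1 + Real.log Y) ^ 2 * Y ^ (1 / (2 * l))) ≤ T₁ := by
      rw [hT₁]
      gcongr
    have a3 : (R₀ * (Q : ℝ) ^ m * (V * (1 + |τ|)) ^ m) ^ 2 * Y ^ (-2 - 2 * δ) *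
        ((X : ℝ) ^ 4 * (1 + (Q : ℝ) ^ 2 / M) *
          ((1 + Real.log M) ^ 2 * (M : ℝ) ^ (1 / (2 * l) - 1))) =
        (R₀ * V ^ m) ^ 2 * (1 + |τ|) ^ (2 * m) * ((Q : ℝ) ^ (2 * m) * T₃) := by
      rw [hT₃, mul_pow V, pow_mul' (Q : ℝ), pow_mul' (1 + |τ|)]
      ring
    have a4 : (Q : ℝ) ^ (2 * m) * Y ^ (-2 - 2 * δ) * ((X : ℝ) ^ 4 * (1 + (Q : ℝ) ^ 2 / M) *
      ((1 + Real.log M) ^ 2 * (M : ℝ) ^ (1 / (2 * l) - 1))) = (Q : ℝ) ^ (2 * m) * T₃ := by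
      rw [hT₃]
      ring
    rw [a3, a4]
    set T₄ : ℝ := (Q : ℝ) ^ (2 * m) * T₃ with hT₄
    have p4 : 0 ≤ T₄ := by positivity
    have hRV : 0 ≤ (R₀ * V ^ m) ^ 2 := by positivity
    have hWτ : 1 ≤ W * (1 + |τ|) ^ (2 * m) := by
      rw [hW]
      nlinarith
    have hWτ2 : (R₀ * V ^ m) ^ 2 * (1 + |τ|) ^ (2 * m) ≤ W * (1 + |τ|) ^ (2 * m) := by
      rw [hW]
      nlinarith
    have b1 : T₁ ≤ W * (1 + |τ|) ^ (2 * m) * T₁ := le_mul_of_one_le_left p1 hWτ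
    have b2 : T₂ ≤ W * (1 + |τ|) ^ (2 * m) * T₂ := le_mul_of_one_le_left p2 hWτ
    have b3 := mul_le_mul_of_nonneg_right hWτ2 p4
    have e6 : W * (1 + |τ|) ^ (2 * m) * (T₁ + T₂ + T₄) = W * (1 + |τ|) ^ (2 * m) * T₁ +
        W * (1 + |τ|) ^ (2 * m) * T₂ + W * (1 + |τ|) ^ (2 * m) * T₄ := by ring
    rw [e6]
    exact add_le_add (add_le_add (a1.trans b1) b2) b3
  refine key.trans ?_
  have e1 : (1 / (2 * l)) ^ (-A) = 2 ^ A * l ^ A := by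
    rw [one_div, Real.inv_rpow (by positivity), ← Real.rpow_neg (by positivity), neg_neg,
      Real.mul_rpow (by norm_num) hl0.le]
  have e2 : l ^ (A + 2) = l ^ A * l ^ 2 := by
    rw [Real.rpow_add hl0]
    congr 1
    exact Real.rpow_natCast l 2
  have hK0 : 0 ≤ K * 6 * (Real.exp (2 * A) * (1 / (2 * l)) ^ (-A)) := by positivity
  calc K * 6 * (Real.exp (2 * A) * (1 / (2 * l)) ^ (-A)) *
        vb m (R₀ * (Q : ℝ) ^ m) V ((Q : ℝ) ^ 2) (1 / (2 * l)) Y (1 / 2 + δ) τ X M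
      ≤ K * 6 * (Real.exp (2 * A) * (1 / (2 * l)) ^ (-A)) * (W * (1 + |τ|) ^ (2 * m) *
        (200 * Real.exp (6 * 2) * (2 + 2) ^ 2 * l ^ 2 * (Q : ℝ) ^ (2 - 2 / 3 * δ))) := by
        refine mul_le_mul_of_nonneg_left (hcmp.trans ?_) hK0
        exact mul_le_mul_of_nonneg_left hb (by positivity)
    _ = _ := by rw [e1, e2]; ring

end Pool.Agent.R399.TM
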