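import Pool.Agent.R399.TM.Cor

/-!
# Several families
-/

set_option autoImplicit false

namespace Pool.Agent.R399.TM

open Finset Filter Topology Complex MeasureTheory
open Pool.Agent.R399.TW
open scoped ComplexConjugate

lemma count_mono {N N' Q : ℕ} {S S' : (q : ℕ) → DirichletCharacter ℂ q → Prop} (hN : N' ∣ N)
    (h : ∀ (q : ℕ) (χ : DirichletCharacter ℂ q), 2 ≤ q → Nat.Coprime q N → χ.IsPrimitive →
      S q χ → S' q χ) : (count N Q S : ℝ) ≤ count N' Q S' := by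
  classical
  rw [count_eq, count_eq]
  have h2 : (idx N Q).filter (fun i => S i.1 i.2) ⊆ (idx N' Q).filter (fun i => S' i.1 i.2) := by
    intro i hi
    rw [Finset.mem_filter, mem_idx] at hi ⊢
    exact ⟨⟨hi.1.1, Nat.Coprime.coprime_dvd_right hN hi.1.2.1, hi.1.2.2⟩,
      h i.1 i.2 hi.1.1.1 hi.1.2.1 hi.1.2.2 hi.2⟩
  exact_mod_cast Finset.card_le_card h2

lemma count_union {n N Q : ℕ} {S : (q : ℕ) → DirichletCharacter ℂ q → Prop}
    {S' : Fin n → (q : ℕ) → DirichletCharacter ℂ q → Prop}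
    (h : ∀ (q : ℕ) (χ : DirichletCharacter ℂ q), 2 ≤ q → Nat.Coprime q N → χ.IsPrimitive →
      S q χ → ∃ i, S' i q χ) : (count N Q S : ℝ) ≤ ∑ i, (count N Q (S' i) : ℝ) := by
  classical
  rw [count_eq]
  simp only [count_eq]
  have h2 : (idx N Q).filter (fun i => S i.1 i.2) ⊆
      (univ : Finset (Fin n)).biUnion fun j => (idx N Q).filter (fun i => S' j i.1 i.2) := by
    intro i hi
    rw [Finset.mem_filter] at hi
    have h3 := mem_idx.1 hi.1
    obtain ⟨j, hj⟩ := h i.1 i.2 h3.1.1 h3.2.1 h3.2.2 hi.2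
    rw [Finset.mem_biUnion]
    exact ⟨j, Finset.mem_univ _, Finset.mem_filter.2 ⟨hi.1, hj⟩⟩
  have h3 := (Finset.card_le_card h2).trans Finset.card_biUnion_le
  exact_mod_cast h3

/-- the orders are finite -/
theorem Fo.fin {m N : ℕ} {L : (q : ℕ) → DirichletCharacter ℂ q → ℂ → ℂ} (h : Fo m N L) {q : ℕ}
    {χ : DirichletCharacter ℂ q} (hq : 2 ≤ q) (hqN : Nat.Coprime q N) (hχ : χ.IsPrimitive) (s : ℂ) :
    analyticOrderAt (L q χ) s ≠ ⊤ := by
  obtain ⟨c, R₀, V, C, -, -, hL, -, hmem⟩ := h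
  obtain ⟨hd, F, hF, E, hE, hFE⟩ := hmem q χ hq hqN hχ
  intro htop
  rw [analyticOrderAt_eq_top] at htop
  have h1 : L q χ = fun _ => 0 := by
    refine AnalyticOnNhd.eq_of_eventuallyEq (z₀ := s) (fun z _ => hd.analyticAt z)
      (fun z _ => analyticAt_const) ?_
    exact htop
  have h2 := hF.ne hL (s := 2) (by norm_num)
  rw [hFE, h1, zero_mul] at h2
  exact h2 rfl

/-- **several families, zeros in small discs** -/
theorem multi_tail {n N : ℕ} (hn : 1 ≤ n) {m N' : Fin n → ℕ}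
    {L : Fin n → (q : ℕ) → DirichletCharacter ℂ q → ℂ → ℂ} (hm : ∀ i, m i ≤ 3)
    (hN : ∀ i, N' i ∣ N) (h : ∀ i, Fo (m i) (N' i) (L i)) :
    ∃ C B : ℝ, 0 ≤ C ∧ 0 ≤ B ∧ ∀ (Q : ℕ) (T r : ℝ) (k : ℕ), 1 ≤ Q → 0 ≤ T → r ≤ 1 / 100 →
      600 * n * r * (1 + Real.log Q) ≤ k →
      (count N Q (fun q χ => ∃ t : ℝ, |t| ≤ T ∧ ∃ κ : Fin n → ℕ, k ≤ ∑ i, κ i ∧
        ∀ i, Dv (L i q χ) (κ i) (pt (1 / 2) t) r) : ℝ) ≤
        C * (2 + T) ^ 10 * (1 + Real.log Q) ^ B *
          ((Q : ℝ) ^ 2 * Real.exp (-(k : ℝ) / (500 * n))) := by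
  classical
  have h1 := fun i => tail (hm i) (h i)
  choose C B hC hB hCB using h1
  have hn0 : (0 : ℝ) < n := by exact_mod_cast (by omega : 0 < n)
  refine ⟨∑ i, C i, ∑ i, B i, Finset.sum_nonneg fun i _ => hC i, Finset.sum_nonneg fun i _ => hB i,
    ?_⟩
  intro Q T r k hQ hT hr hrk
  have hq1 : (1 : ℝ) ≤ Q := by exact_mod_cast hQ
  have hlq : 0 ≤ Real.log Q := Real.log_nonneg hq1
  have hl1 : 1 ≤ 1 + Real.log Q := by linarith
  set k' : ℕ := ⌈(k : ℝ) / n⌉₊ with hk'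
  have hk1 : (k : ℝ) / n ≤ k' := Nat.le_ceil _
  refine (count_union (S' := fun i q χ => ∃ t : ℝ, |t| ≤ T ∧ Dv (L i q χ) k' (pt (1 / 2) t) r)
    ?_).trans ?_
  · rintro q χ - - - ⟨t, ht, κ, hκ, hd⟩
    obtain ⟨i, -, hi⟩ : ∃ i ∈ (univ : Finset (Fin n)), (k : ℝ) / n ≤ κ i := by
      refine Finset.exists_le_of_sum_le (s := univ) (f := fun _ => (k : ℝ) / n)
        (g := fun i => (κ i : ℝ)) ⟨⟨0, by omega⟩, Finset.mem_univ _⟩ ?_
      rw [Finset.sum_const, Finset.card_univ, Fintype.card_fin, nsmul_eq_mul,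
        mul_div_cancel₀ _ hn0.ne']
      exact_mod_cast hκ
    exact ⟨i, t, ht, (hd i).le (Nat.ceil_le.2 hi)⟩
  · have h2 : ∀ i ∈ (univ : Finset (Fin n)), (count N Q (fun q χ => ∃ t : ℝ, |t| ≤ T ∧
        Dv (L i q χ) k' (pt (1 / 2) t) r) : ℝ) ≤ C i * ((2 + T) ^ 10 *
          (1 + Real.log Q) ^ (∑ i, B i) * ((Q : ℝ) ^ 2 * Real.exp (-(k : ℝ) / (500 * n)))) := by
      intro i _
      refine (count_mono (hN i) fun q χ _ _ _ h => h).trans ?_
      refine (hCB i Q T r k' hQ hT hr ?_).trans ?_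
      · refine le_trans ?_ hk1
        rw [le_div_iff₀ hn0]
        linarith
      · have g1 : (2 + T) ^ (3 * m i + 1) ≤ (2 + T) ^ 10 :=
          pow_le_pow_right₀ (by linarith) (by have := hm i; omega)
        have g2 : (1 + Real.log Q) ^ (B i) ≤ (1 + Real.log Q) ^ (∑ i, B i) :=
          Real.rpow_le_rpow_of_exponent_le hl1
            (Finset.single_le_sum (f := B) (fun i _ => hB i) (Finset.mem_univ i))
        have g3 : Real.exp (-(k' : ℝ) / 500) ≤ Real.exp (-(k : ℝ) / (500 * n)) := by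
          apply Real.exp_le_exp.2
          have : -(k : ℝ) / (500 * n) = -((k : ℝ) / n) / 500 := by
            field_simp
          rw [this]
          linarith
        have := hC i
        calc C i * (2 + T) ^ (3 * m i + 1) * (1 + Real.log Q) ^ (B i) *
              ((Q : ℝ) ^ 2 * Real.exp (-(k' : ℝ) / 500))
            ≤ C i * (2 + T) ^ 10 * (1 + Real.log Q) ^ (∑ i, B i) *
              ((Q : ℝ) ^ 2 * Real.exp (-(k : ℝ) / (500 * n))) := by gcongr
          _ = _ := by ring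
    refine (Finset.sum_le_sum h2).trans (le_of_eq ?_)
    rw [← Finset.sum_mul]
    ring

/-- **several families, total order at a point** -/
theorem multi_ord {n N : ℕ} {m N' : Fin n → ℕ} {w : Fin n → ℕ} {W : ℕ} (hW : ∑ i, w i ≤ W)
    (hW1 : 1 ≤ W) {L : Fin n → (q : ℕ) → DirichletCharacter ℂ q → ℂ → ℂ} (hm : ∀ i, m i ≤ 3)
    (hN : ∀ i, N' i ∣ N) (h : ∀ i, Fo (m i) (N' i) (L i)) :
    ∃ C B : ℝ, 0 ≤ C ∧ 0 ≤ B ∧ ∀ (Q : ℕ) (T : ℝ) (k : ℕ), 1 ≤ Q → 0 ≤ T →
      (count N Q (fun q χ => ∃ t : ℝ, |t| ≤ T ∧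
        k ≤ ∑ i, w i * analyticOrderNatAt (L i q χ) (pt (1 / 2) t)) : ℝ) ≤
        C * (2 + T) ^ 10 * (1 + Real.log Q) ^ B *
          ((Q : ℝ) ^ 2 * Real.exp (-(k : ℝ) / (500 * W))) := by
  classical
  have h1 := fun i => tail_ord (hm i) (h i)
  choose C B hC hB hCB using h1
  have hW0 : (0 : ℝ) < W := by exact_mod_cast (by omega : 0 < W)
  refine ⟨1 + ∑ i, C i, ∑ i, B i, ?_, Finset.sum_nonneg fun i _ => hB i, ?_⟩
  · have := Finset.sum_nonneg fun i (_ : i ∈ (univ : Finset (Fin n))) => hC i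
    linarith
  intro Q T k hQ hT
  have hq1 : (1 : ℝ) ≤ Q := by exact_mod_cast hQ
  have hlq : 0 ≤ Real.log Q := Real.log_nonneg hq1
  have hl1 : 1 ≤ 1 + Real.log Q := by linarith
  have hsC := Finset.sum_nonneg fun i (_ : i ∈ (univ : Finset (Fin n))) => hC i
  have hsB := Finset.sum_nonneg fun i (_ : i ∈ (univ : Finset (Fin n))) => hB i
  set U : ℝ := (2 + T) ^ 10 * (1 + Real.log Q) ^ (∑ i, B i) *
    ((Q : ℝ) ^ 2 * Real.exp (-(k : ℝ) / (500 * W))) with hU
  have hU0 : 0 ≤ U := by positivity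
  have hgoal : (1 + ∑ i, C i) * (2 + T) ^ 10 * (1 + Real.log Q) ^ (∑ i, B i) *
      ((Q : ℝ) ^ 2 * Real.exp (-(k : ℝ) / (500 * W))) = U + (∑ i, C i) * U := by
    rw [hU]
    ring
  rw [hgoal]
  rcases Nat.eq_zero_or_pos k with hk0 | hkpos
  · -- `k = 0`
    have h2 : (Q : ℝ) ^ 2 ≤ U := by
      rw [hU, hk0]
      simp only [Nat.cast_zero, neg_zero, zero_div, Real.exp_zero, mul_one]
      refine le_mul_of_one_le_left (by positivity) ?_
      exact one_le_mul_of_one_le_of_one_le (one_le_pow₀ (by linarith))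
        (Real.one_le_rpow hl1 hsB)
    have h3 : 0 ≤ (∑ i, C i) * U := by positivity
    have h4 := count_le N Q (fun q χ => ∃ t : ℝ, |t| ≤ T ∧
        k ≤ ∑ i, w i * analyticOrderNatAt (L i q χ) (pt (1 / 2) t))
    linarith
  set k' : ℕ := ⌈(k : ℝ) / W⌉₊ with hk'
  have hk1 : (k : ℝ) / W ≤ k' := Nat.le_ceil _
  refine le_trans (count_union (S' := fun i q χ => ∃ t : ℝ, |t| ≤ T ∧
    (k' : ℕ∞) ≤ analyticOrderAt (L i q χ) (pt (1 / 2) t)) ?_) ?_
  · rintro q χ hq hqN hχ ⟨t, ht, hκ⟩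
    by_contra hcon
    push Not at hcon
    have h2 : ∀ i ∈ (univ : Finset (Fin n)), ((w i : ℝ) *
        (analyticOrderNatAt (L i q χ) (pt (1 / 2) t) : ℝ)) ≤ w i * ((k' : ℝ) - 1) := by
      intro i _
      have h3 := hcon i t ht
      have h4 := (h i).fin (q := q) (χ := χ) hq
        (Nat.Coprime.coprime_dvd_right (hN i) hqN) hχ (pt (1 / 2) t)
      rw [← Nat.cast_analyticOrderNatAt h4] at h3
      have h5 : analyticOrderNatAt (L i q χ) (pt (1 / 2) t) < k' := by exact_mod_cast h3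
      have h6 : (analyticOrderNatAt (L i q χ) (pt (1 / 2) t) : ℝ) ≤ (k' : ℝ) - 1 := by
        have : ((analyticOrderNatAt (L i q χ) (pt (1 / 2) t) + 1 : ℕ) : ℝ) ≤ k' := by
          exact_mod_cast h5
        push_cast at this
        linarith
      gcongr
    have h3 := Finset.sum_le_sum h2
    rw [← Finset.sum_mul] at h3
    have h4 : (k : ℝ) ≤ ∑ i, ((w i : ℝ) *
        (analyticOrderNatAt (L i q χ) (pt (1 / 2) t) : ℝ)) := by exact_mod_cast hκ
    have h5 : (∑ i, (w i : ℝ)) ≤ W := by exact_mod_cast hW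
    have h6 : (k' : ℝ) - 1 < (k : ℝ) / W := by
      have := Nat.ceil_lt_add_one (show 0 ≤ (k : ℝ) / W by positivity)
      linarith
    have h7 : 0 ≤ (k' : ℝ) - 1 := by
      have : 0 < k' := Nat.ceil_pos.2 (by positivity)
      have : (1 : ℝ) ≤ k' := by exact_mod_cast this
      linarith
    have h8 : (∑ i, (w i : ℝ)) * ((k' : ℝ) - 1) ≤ W * ((k' : ℝ) - 1) := by gcongr
    have h9 : (W : ℝ) * ((k' : ℝ) - 1) < W * ((k : ℝ) / W) := by gcongr
    rw [mul_div_cancel₀ _ hW0.ne'] at h9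
    linarith
  · have h2 : ∀ i ∈ (univ : Finset (Fin n)), (count N Q (fun q χ => ∃ t : ℝ, |t| ≤ T ∧
        (k' : ℕ∞) ≤ analyticOrderAt (L i q χ) (pt (1 / 2) t)) : ℝ) ≤ C i * U := by
      intro i _
      refine (count_mono (hN i) fun q χ _ _ _ h => h).trans ?_
      refine (hCB i Q T k' hQ hT).trans ?_
      have g1 : (2 + T) ^ (3 * m i + 1) ≤ (2 + T) ^ 10 :=
        pow_le_pow_right₀ (by linarith) (by have := hm i; omega)
      have g2 : (1 + Real.log Q) ^ (B i) ≤ (1 + Real.log Q) ^ (∑ i, B i) :=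
        Real.rpow_le_rpow_of_exponent_le hl1
          (Finset.single_le_sum (f := B) (fun i _ => hB i) (Finset.mem_univ i))
      have g3 : Real.exp (-(k' : ℝ) / 500) ≤ Real.exp (-(k : ℝ) / (500 * W)) := by
        apply Real.exp_le_exp.2
        have : -(k : ℝ) / (500 * W) = -((k : ℝ) / W) / 500 := by
          field_simp
        rw [this]
        linarith
      have := hC i
      calc C i * (2 + T) ^ (3 * m i + 1) * (1 + Real.log Q) ^ (B i) *
            ((Q : ℝ) ^ 2 * Real.exp (-(k' : ℝ) / 500))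
          ≤ C i * (2 + T) ^ 10 * (1 + Real.log Q) ^ (∑ i, B i) *
            ((Q : ℝ) ^ 2 * Real.exp (-(k : ℝ) / (500 * W))) := by gcongr
        _ = _ := by rw [hU]; ring
    refine (Finset.sum_le_sum h2).trans ?_
    rw [← Finset.sum_mul]
    linarith

/-- **the average of the total order** -/
theorem multi_avg {n N : ℕ} {m N' : Fin n → ℕ} {w : Fin n → ℕ} {W : ℕ} (hW : ∑ i, w i ≤ W)
    (hW1 : 1 ≤ W) {L : Fin n → (q : ℕ) → DirichletCharacter ℂ q → ℂ → ℂ} (hm : ∀ i, m i ≤ 3)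
    (hN : ∀ i, N' i ∣ N) (h : ∀ i, Fo (m i) (N' i) (L i)) :
    ∃ C : ℝ, 0 ≤ C ∧ ∀ (Q : ℕ) (t : ℝ), 1 ≤ Q →
      sumq N Q (fun q χ =>
        ((∑ i, w i * analyticOrderNatAt (L i q χ) (pt (1 / 2) t) : ℕ) : ℝ)) ≤
        C * (Q : ℝ) ^ 2 * (Real.log (1 + Real.log Q) + Real.log (2 + |t|)) := by
  classical
  obtain ⟨C, B, hC, hB, ht⟩ := multi_ord hW hW1 hm hN h
  have hW0 : (0 : ℝ) < W := by exact_mod_cast (by omega : 0 < W)
  have hl2 := Real.log_two_gt_d9
  set s : ℝ := 1 / (500 * W) with hs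
  have hs0 : 0 < s := by positivity
  set K : ℝ := (Real.log (1 + C) + 10 + B) / s + 1 + 1 / s with hK
  have hlC : 0 ≤ Real.log (1 + C) := Real.log_nonneg (by linarith)
  have hK0 : 0 ≤ K := by positivity
  refine ⟨2 * K, by positivity, fun Q t hQ => ?_⟩
  have hq1 : (1 : ℝ) ≤ Q := by exact_mod_cast hQ
  have hlq : 0 ≤ Real.log Q := Real.log_nonneg hq1
  have hl1 : 1 ≤ 1 + Real.log Q := by linarith
  have hll : 0 ≤ Real.log (1 + Real.log Q) := Real.log_nonneg hl1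
  have ht1 : Real.log 2 ≤ Real.log (2 + |t|) :=
    Real.log_le_log (by norm_num) (by linarith [abs_nonneg t])
  set U : ℝ := (1 + C) * (2 + |t|) ^ 10 * (1 + Real.log Q) ^ B with hU
  have hU1 : 1 ≤ U := by
    rw [hU]
    refine one_le_mul_of_one_le_of_one_le (one_le_mul_of_one_le_of_one_le (by linarith) ?_)
      (Real.one_le_rpow hl1 hB)
    exact one_le_pow₀ (by linarith [abs_nonneg t])
  rw [sumq_eq]
  have hcard : (((idx N Q).card : ℕ) : ℝ) ≤ (Q : ℝ) ^ 2 := by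
    have h1 := count_le N Q (fun _ _ => True)
    rw [count_eq] at h1
    simpa using h1
  have key := avg_le (idx N Q) (fun i => ∑ j, w j * analyticOrderNatAt (L j i.1 i.2)
    (pt (1 / 2) t)) (W := (Q : ℝ) ^ 2) (U := U) (s := s) (by positivity) hU1 hs0 hcard fun k => ?_
  · refine key.trans ?_
    have e1 : Real.log U = Real.log (1 + C) + 10 * Real.log (2 + |t|) +
        B * Real.log (1 + Real.log Q) := by
      have p1 : (0 : ℝ) < 1 + C := by linarith
      have p2 : (0 : ℝ) < 2 + |t| := by positivity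
      have p3 : (0 : ℝ) < 1 + Real.log Q := by linarith
      rw [hU, Real.log_mul (by positivity) (by positivity), Real.log_mul (by positivity)
        (by positivity), Real.log_pow, Real.log_rpow p3]
      push_cast
      ring
    set a : ℝ := Real.log (1 + Real.log Q) + Real.log (2 + |t|) with ha
    have ha2 : 1 ≤ 2 * a := by linarith
    have e2 : Real.log U ≤ (Real.log (1 + C) + 10 + B) * (2 * a) := by
      rw [e1]
      have q1 : Real.log (1 + C) * 1 ≤ Real.log (1 + C) * (2 * a) := by gcongr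
      have q2 : B * Real.log (1 + Real.log Q) ≤ B * (2 * a) := by
        have : Real.log (1 + Real.log Q) ≤ 2 * a := by linarith
        gcongr
      have q3 : Real.log (2 + |t|) ≤ 2 * a := by linarith
      linarith
    have e3 : Real.log U / s ≤ (Real.log (1 + C) + 10 + B) / s * (2 * a) := by
      rw [div_mul_eq_mul_div]
      exact div_le_div_of_nonneg_right e2 hs0.le
    have e4 : 1 / s * 1 ≤ 1 / s * (2 * a) := by gcongr
    calc (Q : ℝ) ^ 2 * (Real.log U / s + 1 + 1 / s)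
        ≤ (Q : ℝ) ^ 2 * (K * (2 * a)) := by
          refine mul_le_mul_of_nonneg_left ?_ (by positivity)
          rw [hK]
          nlinarith
      _ = _ := by ring
  · have h1 := ht Q |t| k hQ (abs_nonneg t)
    rw [count_eq] at h1
    have h2 : (idx N Q).filter (fun i => k ≤ ∑ j, w j * analyticOrderNatAt (L j i.1 i.2)
        (pt (1 / 2) t)) ⊆ (idx N Q).filter (fun i => ∃ t' : ℝ, |t'| ≤ |t| ∧
        k ≤ ∑ j, w j * analyticOrderNatAt (L j i.1 i.2) (pt (1 / 2) t')) := by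
      intro i hi
      rw [Finset.mem_filter] at hi ⊢
      exact ⟨hi.1, t, le_rfl, hi.2⟩
    have h3 : ((((idx N Q).filter (fun i => k ≤ ∑ j, w j * analyticOrderNatAt (L j i.1 i.2)
        (pt (1 / 2) t))).card : ℕ) : ℝ) ≤ ((((idx N Q).filter (fun i => ∃ t' : ℝ, |t'| ≤ |t| ∧
        k ≤ ∑ j, w j * analyticOrderNatAt (L j i.1 i.2) (pt (1 / 2) t'))).card : ℕ) : ℝ) := by
      exact_mod_cast Finset.card_le_card h2
    refine h3.trans (h1.trans ?_)
    have e1 : Real.exp (-(k : ℝ) / (500 * W)) = Real.exp (-(s * k)) := by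
      congr 1
      rw [hs]
      ring
    rw [e1, hU]
    have p0 := Real.exp_pos (-(s * k))
    calc C * (2 + |t|) ^ 10 * (1 + Real.log Q) ^ B * ((Q : ℝ) ^ 2 * Real.exp (-(s * k)))
        ≤ (1 + C) * (2 + |t|) ^ 10 * (1 + Real.log Q) ^ B *
          ((Q : ℝ) ^ 2 * Real.exp (-(s * k))) := by
          gcongr
          linarith
      _ = _ := by ring

end Pool.Agent.R399.TM
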