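import Pool.Agent.R399.TM.Mean

/-!
# The mean square of the mollified values in a neighbourhood of the critical line
-/

set_option autoImplicit false

namespace Pool.Agent.R399.TM

open Finset Filter Topology Complex MeasureTheory
open Pool.Agent.R399.TW
open scoped ComplexConjugate

/-- the value of the majorant -/
noncomputable def Bs (c : ℕ → ℂ) (σ : ℝ) : ℝ := ∑' n : ℕ, E (fun k => ‖c k‖) n * (n : ℝ) ^ (-σ)

lemma Bs_term (c : ℕ → ℂ) (σ : ℝ) (n : ℕ) : 0 ≤ E (fun k => ‖c k‖) n * (n : ℝ) ^ (-σ) :=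
  mul_nonneg (E_nonneg (fun k => norm_nonneg _) n) (by positivity)

lemma Bs_nn (c : ℕ → ℂ) (σ : ℝ) : 0 ≤ Bs c σ := tsum_nonneg fun n => Bs_term c σ n

lemma ls_le {c ψ f : ℕ → ℂ} (hL : Lin c) (hψ : ∀ n, ‖ψ n‖ ≤ 1)
    (hf : ∀ n, ‖f n‖ ≤ E (fun k => ‖c k‖) n) {σ : ℝ} (hσ : 1 < σ) {s : ℂ} (hs : σ ≤ s.re) :
    ‖LSeries (tw ψ f) s‖ ≤ Bs c σ := by
  refine tsum_of_norm_bounded (hL.summ hσ).hasSum fun n => ?_
  rcases eq_or_ne n 0 with rfl | hn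
  · simp only [LSeries.term_zero, norm_zero]
    exact Bs_term c σ 0
  · have hn0 : (0 : ℝ) < n := by exact_mod_cast Nat.pos_of_ne_zero hn
    have hn1 : (1 : ℝ) ≤ n := by exact_mod_cast Nat.pos_of_ne_zero hn
    rw [LSeries.norm_term_eq, if_neg hn, div_eq_mul_inv, ← Real.rpow_neg hn0.le]
    have h1 := (norm_tw_le hψ f n).trans (hf n)
    have h2 : (n : ℝ) ^ (-s.re) ≤ (n : ℝ) ^ (-σ) :=
      Real.rpow_le_rpow_of_exponent_le hn1 (by linarith)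
    exact mul_le_mul h1 h2 (by positivity) (E_nonneg (fun k => norm_nonneg _) n)

lemma ml_le {c ψ : ℕ → ℂ} (hL : Lin c) (hψ : ∀ n, ‖ψ n‖ ≤ 1) (X : ℕ) {s : ℂ}
    (hs : -1 / 2 ≤ s.re) : ‖Ml c ψ X s‖ ≤ (X : ℝ) ^ 2 * Bs c (3 / 2) := by
  unfold Ml
  rw [LSeries_cut]
  refine (norm_sum_le _ _).trans ?_
  calc ∑ n ∈ Icc 1 X, ‖tw ψ (E fun k => -c k) n * (n : ℂ) ^ (-s)‖
      ≤ ∑ n ∈ Icc 1 X, (X : ℝ) ^ 2 * (E (fun k => ‖c k‖) n * (n : ℝ) ^ (-(3 / 2) : ℝ)) := by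
        refine Finset.sum_le_sum fun n hn => ?_
        rw [mem_Icc] at hn
        have hn0 : (0 : ℝ) < n := by exact_mod_cast hn.1
        have hn1 : (1 : ℝ) ≤ n := by exact_mod_cast hn.1
        have hnX : (n : ℝ) ≤ X := by exact_mod_cast hn.2
        rw [norm_mul, Complex.norm_natCast_cpow_of_pos hn.1, neg_re]
        have h1 := (norm_tw_le hψ (E fun k => -c k) n).trans (norm_neg_E_le c n)
        have h0 := E_nonneg (κ := fun k => ‖c k‖) (fun k => norm_nonneg _) n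
        have h2 : (n : ℝ) ^ (-s.re) ≤ (n : ℝ) ^ (1 / 2 : ℝ) :=
          Real.rpow_le_rpow_of_exponent_le hn1 (by linarith)
        have h3 : (n : ℝ) ^ (1 / 2 : ℝ) = (n : ℝ) ^ 2 * (n : ℝ) ^ (-(3 / 2) : ℝ) := by
          rw [← Real.rpow_natCast (n : ℝ) 2, ← Real.rpow_add hn0]
          congr 1
          norm_num
        calc ‖tw ψ (E fun k => -c k) n‖ * (n : ℝ) ^ (-s.re)
            ≤ E (fun k => ‖c k‖) n * ((n : ℝ) ^ 2 * (n : ℝ) ^ (-(3 / 2) : ℝ)) := by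
              rw [← h3]
              exact mul_le_mul h1 h2 (by positivity) h0
          _ ≤ E (fun k => ‖c k‖) n * ((X : ℝ) ^ 2 * (n : ℝ) ^ (-(3 / 2) : ℝ)) := by gcongr
          _ = _ := by ring
    _ = (X : ℝ) ^ 2 * ∑ n ∈ Icc 1 X, (E (fun k => ‖c k‖) n * (n : ℝ) ^ (-(3 / 2) : ℝ)) := by
        rw [Finset.mul_sum]
    _ ≤ (X : ℝ) ^ 2 * Bs c (3 / 2) := by
        refine mul_le_mul_of_nonneg_left ?_ (by positivity)
        exact (hL.summ (by norm_num : (1 : ℝ) < 3 / 2)).sum_le_tsum (Icc 1 X)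
          fun n _ => Bs_term c (3 / 2) n

/-- the values on the line `Re s = -1/2` -/
lemma left_F {c ψ : ℕ → ℂ} {R V : ℝ} {m : ℕ} {F : ℂ → ℂ} (hL : Lin c) (hM : Mem c R V m ψ F)
    (t : ℝ) : ‖F (pt (-1 / 2) t)‖ ≤ R * (V * (1 + |t|)) ^ m * Bs c (3 / 2) := by
  obtain ⟨ε, hε⟩ := hM.fe
  have hz : (1 - conj (pt (-1 / 2) t)) = pt (3 / 2) t := by
    apply Complex.ext
    · simp; norm_num
    · simp
  rw [hε.fe t, norm_mul]
  have h1 := hε.left t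
  have h2 : ‖rfl1 F (pt (-1 / 2) t)‖ ≤ Bs c (3 / 2) := by
    unfold rfl1
    rw [RCLike.norm_conj, hz, hM.ser _ (by rw [pt_re]; norm_num)]
    exact ls_le hL hM.le (norm_E_le c) (by norm_num) (by rw [pt_re])
  have h3 := (norm_nonneg _).trans h1
  exact mul_le_mul h1 h2 (norm_nonneg _) h3

lemma Xq_le {Q : ℕ} (hQ : 1 ≤ Q) : ((Xq Q : ℕ) : ℝ) ^ 2 ≤ 4 * (Q : ℝ) := by
  have hq1 : (1 : ℝ) ≤ Q := by exact_mod_cast hQ
  obtain ⟨-, -, h3⟩ := ceil_bounds hq1 (show (0 : ℝ) ≤ 1 / 3 by norm_num)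
  have h4 : ((Xq Q : ℕ) : ℝ) ≤ 2 * (Q : ℝ) ^ (1 / 3 : ℝ) := h3
  calc ((Xq Q : ℕ) : ℝ) ^ 2 ≤ (2 * (Q : ℝ) ^ (1 / 3 : ℝ)) ^ 2 := by gcongr
    _ = 4 * (Q : ℝ) ^ (2 / 3 : ℝ) := by
      rw [mul_pow, ← Real.rpow_natCast ((Q : ℝ) ^ (1 / 3 : ℝ)), ← Real.rpow_mul (by linarith)]
      norm_num
    _ ≤ 4 * (Q : ℝ) ^ (1 : ℝ) := by
      have := Real.rpow_le_rpow_of_exponent_le hq1 (show (2 / 3 : ℝ) ≤ 1 by norm_num)
      linarith
    _ = _ := by rw [Real.rpow_one]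

/-- the mean square on the line `Re s = -1/2` -/
theorem left {m : ℕ} (c : ℕ → ℂ) {R₀ V A : ℝ} {Q : ℕ} {ι : Type} {I : Finset ι}
    {ψ : ι → ℕ → ℂ} {F : ι → ℂ → ℂ} (hD : Dat m c R₀ V A Q I ψ F) (t : ℝ) :
    ∑ i ∈ I, ‖Gm c (ψ i) Q (F i) (pt (-1 / 2) t)‖ ^ 2 ≤
      (4 * R₀ * V ^ m * Bs c (3 / 2) ^ 2 * (Q : ℝ) ^ (m + 2) * (1 + |t|) ^ m) ^ 2 := by
  have hQ := hD.Q1
  have hR₀ := hD.R0
  have hV := hD.V0
  have hB := Bs_nn c (3 / 2)
  have hq1 : (1 : ℝ) ≤ Q := by exact_mod_cast hQ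
  set W : ℝ := 4 * R₀ * V ^ m * Bs c (3 / 2) ^ 2 * (Q : ℝ) ^ (m + 1) * (1 + |t|) ^ m with hW
  have hW0 : 0 ≤ W := by positivity
  have h1 : ∀ i ∈ I, ‖Gm c (ψ i) Q (F i) (pt (-1 / 2) t)‖ ^ 2 ≤ W ^ 2 := by
    intro i hi
    have h2 := left_F hD.lin (hD.mem i hi) t
    have h3 := ml_le hD.lin (hD.mem i hi).le (Xq Q) (s := pt (-1 / 2) t) (by rw [pt_re])
    have h4 := Xq_le hQ
    have h5 : ‖Gm c (ψ i) Q (F i) (pt (-1 / 2) t)‖ ≤ W := by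
      unfold Gm
      rw [norm_mul]
      calc ‖F i (pt (-1 / 2) t)‖ * ‖Ml c (ψ i) (Xq Q) (pt (-1 / 2) t)‖
          ≤ (R₀ * (Q : ℝ) ^ m * (V * (1 + |t|)) ^ m * Bs c (3 / 2)) *
            ((Xq Q : ℝ) ^ 2 * Bs c (3 / 2)) := by gcongr
        _ ≤ (R₀ * (Q : ℝ) ^ m * (V * (1 + |t|)) ^ m * Bs c (3 / 2)) *
            ((4 * (Q : ℝ)) * Bs c (3 / 2)) := by gcongr
        _ = W := by rw [hW, mul_pow V]; ring
    gcongr
  refine (Finset.sum_le_sum h1).trans ?_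
  rw [Finset.sum_const, nsmul_eq_mul]
  calc (I.card : ℝ) * W ^ 2 ≤ (Q : ℝ) ^ 2 * W ^ 2 :=
        mul_le_mul_of_nonneg_right hD.card (by positivity)
    _ = (Q * W) ^ 2 := by ring
    _ = _ := by rw [hW]; ring

lemma sq_two (x y : ℂ) : ‖x‖ ^ 2 ≤ 2 * ‖x - y‖ ^ 2 + 2 * ‖y‖ ^ 2 := by
  have h : ‖x‖ ≤ ‖x - y‖ + ‖y‖ := by
    have := norm_add_le (x - y) y
    simpa using this
  have h2 : ‖x‖ ^ 2 ≤ (‖x - y‖ + ‖y‖) ^ 2 := by gcongr
  nlinarith [sq_nonneg (‖x - y‖ - ‖y‖)]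

/-- **near the critical line** -/
theorem near {m : ℕ} (hm : m ≤ 3) {c : ℕ → ℂ} (R₀ V A : ℝ) : ∃ C : ℝ, 0 ≤ C ∧
    ∀ (Q : ℕ) {ι : Type} (I : Finset ι) (ψ : ι → ℕ → ℂ) (F : ι → ℂ → ℂ) (a : ℝ) (s : ℂ),
      Dat m c R₀ V A Q I ψ F → 8 ≤ 1 + Real.log Q → a ≤ 1 / 2 → |s.re - 1 / 2| ≤ a →
      ∑ i ∈ I, ‖Gm c (ψ i) Q (F i) s‖ ^ 2 ≤
        C * (1 + |s.im|) ^ (2 * m) * (1 + Real.log Q) ^ (A + 2) * (Q : ℝ) ^ (2 + 10 * a) := by
  obtain ⟨C₁, hC₁, hr⟩ := right hm (c := c) R₀ V A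
  set CR : ℝ := 2 * C₁ + 2 with hCR
  have hCR1 : 1 ≤ CR := by rw [hCR]; linarith
  set CL : ℝ := 1 + |4 * R₀ * V ^ m * Bs c (3 / 2) ^ 2| with hCL
  have hCL1 : 1 ≤ CL := by
    rw [hCL]
    linarith [abs_nonneg (4 * R₀ * V ^ m * Bs c (3 / 2) ^ 2)]
  set CK : ℝ := Real.exp 4 * Real.exp ((m : ℝ) ^ 2) * (CL * CR * Real.exp 20) with hCK
  refine ⟨CR + CK ^ 2, by positivity, ?_⟩
  intro Q ι I ψ F a s hD hl8 ha hs
  have hQ := hD.Q1
  have hR₀ := hD.R0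
  have hV := hD.V0
  have hA := hD.A0
  have hq1 : (1 : ℝ) ≤ Q := by exact_mod_cast hQ
  have hq0 : (0 : ℝ) < Q := by linarith
  have hlq : 0 ≤ Real.log Q := Real.log_nonneg hq1
  set l : ℝ := 1 + Real.log Q with hl
  have hl0 : 0 < l := by linarith
  have hl1 : 1 ≤ l := by linarith
  have ha0 : 0 ≤ a := (abs_nonneg _).trans hs
  have hlA : 1 ≤ l ^ (A + 2) := Real.one_le_rpow hl1 (by linarith)
  have hτ : (1 : ℝ) ≤ (1 + |s.im|) ^ (2 * m) := one_le_pow₀ (by linarith [abs_nonneg s.im])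
  have hse := abs_le.1 hs
  -- to the right
  have hright : ∀ (δ t : ℝ), 4 ≤ δ * l → δ ≤ 1 / 2 →
      ∑ i ∈ I, ‖Gm c (ψ i) Q (F i) (pt (1 / 2 + δ) t)‖ ^ 2 ≤
        CR * (1 + |t|) ^ (2 * m) * l ^ (A + 2) * (Q : ℝ) ^ 2 := by
    intro δ t h4 hδ
    have hδ0 : 0 ≤ δ := by
      by_contra hcon
      have : δ * l ≤ 0 := mul_nonpos_of_nonpos_of_nonneg (not_le.1 hcon).le hl0.le
      linarith
    have h1 := hr Q I ψ F δ t hD h4 hδ
    set y : ℂ := ((Ph (Real.log ((Q : ℝ) ^ (2 : ℝ))) : ℝ) : ℂ) with hy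
    have hy1 : ‖y‖ ^ 2 ≤ 1 := by
      rw [hy, Complex.norm_real, Real.norm_of_nonneg (Ph_nn _)]
      exact pow_le_one₀ (Ph_nn _) (Ph_le_one _)
    have h2 : ∑ i ∈ I, ‖Gm c (ψ i) Q (F i) (pt (1 / 2 + δ) t)‖ ^ 2 ≤
        2 * ∑ i ∈ I, ‖Gm c (ψ i) Q (F i) (pt (1 / 2 + δ) t) - y‖ ^ 2 + 2 * (I.card : ℝ) := by
      have h3 : ∀ i ∈ I, ‖Gm c (ψ i) Q (F i) (pt (1 / 2 + δ) t)‖ ^ 2 ≤
          2 * ‖Gm c (ψ i) Q (F i) (pt (1 / 2 + δ) t) - y‖ ^ 2 + 2 := fun i _ => by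
        have := sq_two (Gm c (ψ i) Q (F i) (pt (1 / 2 + δ) t)) y
        linarith
      refine (Finset.sum_le_sum h3).trans (le_of_eq ?_)
      rw [Finset.sum_add_distrib, ← Finset.mul_sum, Finset.sum_const, nsmul_eq_mul]
      ring
    have h5 : (Q : ℝ) ^ (2 - 2 / 3 * δ) ≤ (Q : ℝ) ^ 2 := by
      rw [← Real.rpow_natCast (Q : ℝ) 2]
      exact Real.rpow_le_rpow_of_exponent_le hq1 (by push_cast; linarith)
    have hτ' : (1 : ℝ) ≤ (1 + |t|) ^ (2 * m) := one_le_pow₀ (by linarith [abs_nonneg t])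
    have h6 : C₁ * (1 + |t|) ^ (2 * m) * l ^ (A + 2) * (Q : ℝ) ^ (2 - 2 / 3 * δ) ≤
        C₁ * ((1 + |t|) ^ (2 * m) * l ^ (A + 2) * (Q : ℝ) ^ 2) := by
      calc _ ≤ C₁ * (1 + |t|) ^ (2 * m) * l ^ (A + 2) * (Q : ℝ) ^ 2 := by gcongr
        _ = _ := by ring
    have h7 : (I.card : ℝ) ≤ (1 + |t|) ^ (2 * m) * l ^ (A + 2) * (Q : ℝ) ^ 2 := by
      refine hD.card.trans (le_mul_of_one_le_left (by positivity) ?_)
      exact one_le_mul_of_one_le_of_one_le hτ' hlA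
    calc _ ≤ 2 * ∑ i ∈ I, ‖Gm c (ψ i) Q (F i) (pt (1 / 2 + δ) t) - y‖ ^ 2 + 2 * (I.card : ℝ) := h2
      _ ≤ 2 * (C₁ * ((1 + |t|) ^ (2 * m) * l ^ (A + 2) * (Q : ℝ) ^ 2)) +
          2 * ((1 + |t|) ^ (2 * m) * l ^ (A + 2) * (Q : ℝ) ^ 2) := by
          have := h1.trans h6
          linarith
      _ = _ := by rw [hCR]; ring
  have hQa : (Q : ℝ) ^ 2 ≤ (Q : ℝ) ^ (2 + 10 * a) := by
    rw [← Real.rpow_natCast (Q : ℝ) 2]
    exact Real.rpow_le_rpow_of_exponent_le hq1 (by push_cast; linarith)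
  have hCK0 : 0 ≤ CK ^ 2 := by positivity
  rcases le_total (1 / 2 + 4 / l) s.re with hcase | hcase
  · -- the right part
    have h1 := hright (s.re - 1 / 2) s.im (by
      have h3 : 4 / l ≤ s.re - 1 / 2 := by linarith
      rwa [div_le_iff₀ hl0] at h3) (by linarith)
    have h2 : pt (1 / 2 + (s.re - 1 / 2)) s.im = s := by
      apply Complex.ext <;> simp
    rw [h2] at h1
    refine h1.trans ?_
    have h4 : CR ≤ CR + CK ^ 2 := by linarith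
    have h5 : CR * (1 + |s.im|) ^ (2 * m) * l ^ (A + 2) * (Q : ℝ) ^ 2 ≤
        (CR + CK ^ 2) * (1 + |s.im|) ^ (2 * m) * l ^ (A + 2) * (Q : ℝ) ^ (2 + 10 * a) := by
      gcongr
    exact h5
  · -- three lines
    set b : ℝ := 1 / 2 + 4 / l with hb
    have hbl : 4 / l ≤ 1 / 2 := by
      rw [div_le_iff₀ hl0]
      linarith
    have hbl0 : 0 < 4 / l := by positivity
    set LA : ℝ := l ^ ((A + 2) / 2) with hLA
    have hLA1 : 1 ≤ LA := Real.one_le_rpow hl1 (by linarith)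
    have hLA2 : LA ^ 2 = l ^ (A + 2) := by
      rw [hLA, ← Real.rpow_natCast, ← Real.rpow_mul hl0.le]
      congr 1
      push_cast
      ring
    have key := three I (fun i => Gm c (ψ i) Q (F i)) (a := -1 / 2) (b := b)
      (A₀ := CL * (Q : ℝ) ^ (m + 2)) (A₁ := CR * LA * Q) (n := m) (s := s) (by norm_num)
      (by rw [hb]; linarith) (by rw [hb]; linarith)
      (fun i hi => (hD.mem i hi).diff.mul (cut_diff _ _)) (fun i hi => ?_) (by positivity)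
      (by positivity) (fun t => ?_) (fun t => ?_) (by linarith) hcase
    · set θ : ℝ := (s.re - -1 / 2) / (b - -1 / 2) with hθ
      have hbb : 1 ≤ b - -1 / 2 := by rw [hb]; linarith
      have hθ0 : 0 ≤ θ := div_nonneg (by linarith) (by linarith)
      have hθ1 : θ ≤ 1 := by
        rw [hθ, div_le_one (by linarith)]
        linarith
      have hθ2 : 1 - θ ≤ 4 / l + a := by
        have h1 : 1 - θ = (b - s.re) / (b - -1 / 2) := by
          have hne : b - -1 / 2 ≠ 0 := by linarith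
          rw [hθ, eq_div_iff hne, sub_mul, div_mul_cancel₀ _ hne]
          ring
        rw [h1]
        refine (div_le_self (by linarith) hbb).trans ?_
        rw [hb]
        linarith
      have hm' : (m : ℝ) ≤ 3 := by exact_mod_cast hm
      have w1 : (CL * (Q : ℝ) ^ (m + 2)) ^ (1 - θ) ≤ CL * (Q : ℝ) ^ (((m : ℝ) + 2) * (1 - θ)) := by
        rw [Real.mul_rpow (by positivity) (by positivity)]
        have e1 : CL ^ (1 - θ) ≤ CL := by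
          have := Real.rpow_le_rpow_of_exponent_le hCL1 (show 1 - θ ≤ 1 by linarith)
          rwa [Real.rpow_one] at this
        have e2 : ((Q : ℝ) ^ (m + 2)) ^ (1 - θ) = (Q : ℝ) ^ (((m : ℝ) + 2) * (1 - θ)) := by
          rw [← Real.rpow_natCast, ← Real.rpow_mul hq0.le]
          push_cast
          rfl
        rw [e2]
        gcongr
      have w2 : (CR * LA * Q) ^ θ ≤ CR * LA * (Q : ℝ) ^ θ := by
        rw [Real.mul_rpow (by positivity) (by positivity)]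
        have e1 : (CR * LA) ^ θ ≤ CR * LA := by
          have := Real.rpow_le_rpow_of_exponent_le
            (one_le_mul_of_one_le_of_one_le hCR1 hLA1) hθ1
          rwa [Real.rpow_one] at this
        gcongr
      have w3 : (Q : ℝ) ^ (((m : ℝ) + 2) * (1 - θ)) * (Q : ℝ) ^ θ ≤
          Real.exp 20 * (Q : ℝ) ^ (1 + 5 * a) := by
        rw [← Real.rpow_add hq0]
        have e1 : ((m : ℝ) + 2) * (1 - θ) + θ ≤ 20 / l + (1 + 5 * a) := by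
          have h1 : ((m : ℝ) + 2) * (1 - θ) + θ = 1 + ((m : ℝ) + 1) * (1 - θ) := by ring
          rw [h1]
          have h2 : ((m : ℝ) + 1) * (1 - θ) ≤ 5 * (4 / l + a) :=
            mul_le_mul (by linarith) hθ2 (by linarith) (by norm_num)
          have h3 : 5 * (4 / l + a) = 20 / l + 5 * a := by ring
          linarith
        refine (Real.rpow_le_rpow_of_exponent_le hq1 e1).trans ?_
        rw [Real.rpow_add hq0]
        refine mul_le_mul_of_nonneg_right ?_ (by positivity)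
        rw [Real.rpow_def_of_pos hq0]
        apply Real.exp_le_exp.2
        rw [mul_div_assoc', div_le_iff₀ hl0, hl]
        linarith
      have w4 : (CL * (Q : ℝ) ^ (m + 2)) ^ (1 - θ) * (CR * LA * Q) ^ θ ≤
          CL * CR * Real.exp 20 * (LA * (Q : ℝ) ^ (1 + 5 * a)) := by
        calc _ ≤ (CL * (Q : ℝ) ^ (((m : ℝ) + 2) * (1 - θ))) * (CR * LA * (Q : ℝ) ^ θ) :=
              mul_le_mul w1 w2 (by positivity) (by positivity)
          _ = CL * CR * LA * ((Q : ℝ) ^ (((m : ℝ) + 2) * (1 - θ)) * (Q : ℝ) ^ θ) := by ring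
          _ ≤ CL * CR * LA * (Real.exp 20 * (Q : ℝ) ^ (1 + 5 * a)) := by gcongr
          _ = _ := by ring
      refine key.trans ?_
      have w5 : (Real.exp 4 * Real.exp ((m : ℝ) ^ 2) * (1 + |s.im|) ^ m *
          ((CL * (Q : ℝ) ^ (m + 2)) ^ (1 - θ) * (CR * LA * Q) ^ θ)) ^ 2 ≤
          (Real.exp 4 * Real.exp ((m : ℝ) ^ 2) * (1 + |s.im|) ^ m *
          (CL * CR * Real.exp 20 * (LA * (Q : ℝ) ^ (1 + 5 * a)))) ^ 2 := by
        gcongr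
      refine w5.trans ?_
      have w6 : ((Q : ℝ) ^ (1 + 5 * a)) ^ 2 = (Q : ℝ) ^ (2 + 10 * a) := by
        rw [← Real.rpow_natCast, ← Real.rpow_mul hq0.le]
        congr 1
        push_cast
        ring
      have w7 : (Real.exp 4 * Real.exp ((m : ℝ) ^ 2) * (1 + |s.im|) ^ m *
          (CL * CR * Real.exp 20 * (LA * (Q : ℝ) ^ (1 + 5 * a)))) ^ 2 =
          CK ^ 2 * (1 + |s.im|) ^ (2 * m) * l ^ (A + 2) * (Q : ℝ) ^ (2 + 10 * a) := by
        rw [← w6, ← hLA2, hCK, pow_mul' (1 + |s.im|)]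
        ring
      rw [w7]
      have h4 : CK ^ 2 ≤ CR + CK ^ 2 := by linarith
      gcongr
    · -- growth
      obtain ⟨A', C', h'⟩ := (hD.mem i hi).gr
      refine ⟨A', C' * ((Xq Q : ℝ) ^ 2 * Bs c (3 / 2)), fun z hz => ?_⟩
      have hz' : z ∈ strip (-1 / 2) 2 := ⟨hz.1, hz.2.trans (by rw [hb]; linarith)⟩
      have h1 := h' z hz'
      have h2 := ml_le hD.lin (hD.mem i hi).le (Xq Q) hz.1
      unfold Gm
      rw [norm_mul]
      calc ‖F i z‖ * ‖Ml c (ψ i) (Xq Q) z‖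
          ≤ (C' * Real.exp (A' * |z.im|)) * ((Xq Q : ℝ) ^ 2 * Bs c (3 / 2)) :=
            mul_le_mul h1 h2 (norm_nonneg _) ((norm_nonneg _).trans h1)
        _ = _ := by ring
    · refine (left c hD t).trans ?_
      have hB := Bs_nn c (3 / 2)
      have h1 : 4 * R₀ * V ^ m * Bs c (3 / 2) ^ 2 ≤ CL := by
        rw [hCL]
        linarith [le_abs_self (4 * R₀ * V ^ m * Bs c (3 / 2) ^ 2)]
      have h2 : 0 ≤ 4 * R₀ * V ^ m * Bs c (3 / 2) ^ 2 := by positivity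
      gcongr
    · have h1 := hright (4 / l) t (by rw [div_mul_cancel₀ _ hl0.ne']) hbl
      refine h1.trans ?_
      have h2 : (CR * LA * Q * (1 + |t|) ^ m) ^ 2 =
          CR ^ 2 * (1 + |t|) ^ (2 * m) * l ^ (A + 2) * (Q : ℝ) ^ 2 := by
        rw [← hLA2, pow_mul' (1 + |t|)]
        ring
      rw [h2]
      have h3 : CR ≤ CR ^ 2 := by nlinarith
      gcongr

end Pool.Agent.R399.TM
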