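import Pool.Agent.R399.TM.Cnt

/-!
# Exponential decay of the frequency of zeros of high order
-/

set_option autoImplicit false

namespace Pool.Agent.R399.TM

open Finset Filter Topology Complex MeasureTheory
open Pool.Agent.R399.TW
open scoped ComplexConjugate

/-- **all heights** -/
theorem gridm {m : ℕ} (hm : m ≤ 3) {c : ℕ → ℂ} (R₀ V A : ℝ) : ∃ C : ℝ, 0 ≤ C ∧
    ∀ (Q : ℕ) {ι : Type} (I : Finset ι) (ψ : ι → ℕ → ℂ) (F : ι → ℂ → ℂ) (t : ι → ℝ)
      (lam T : ℝ) (k : ℕ),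
      Dat m c R₀ V A Q I ψ F → 4 ≤ lam * (1 + Real.log Q) → lam ≤ 1 / 10 → 0 ≤ T →
      (∀ i ∈ I, |t i| ≤ T) →
      (∀ i ∈ I, Dv (F i) k (pt (1 / 2) (t i)) (lam / 6)) →
      (I.card : ℝ) ≤ C * (2 + T) ^ (2 * m + 1) * (1 + Real.log Q) ^ (A + 3) *
        ((Q : ℝ) ^ (2 - 2 / 3 * lam) + (Q : ℝ) ^ (2 + 50 * lam) / 4 ^ k) := by
  classical
  obtain ⟨C, hC, hcell⟩ := cellm hm (c := c) R₀ V A
  refine ⟨3 * (C * 2 ^ (2 * m)), by positivity, ?_⟩
  intro Q ι I ψ F t lam T k hD hl hlam hT ht hk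
  have hQ := hD.Q1
  have hA := hD.A0
  have hq1 : (1 : ℝ) ≤ Q := by exact_mod_cast hQ
  have hq0 : (0 : ℝ) < Q := by linarith
  have hlq : 0 ≤ Real.log Q := Real.log_nonneg hq1
  set l : ℝ := 1 + Real.log Q with hld
  have hl0 : 0 < l := by linarith
  have hlam0 : 0 < lam := by
    by_contra hcon
    have : lam * l ≤ 0 := mul_nonpos_of_nonpos_of_nonneg (not_lt.1 hcon) hl0.le
    linarith
  set h : ℝ := lam / 6 with hh
  have hh0 : 0 < h := by positivity
  set j : ι → ℤ := fun i => ⌊t i / h⌋ with hj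
  set B : ℤ := ⌊T / h⌋ + 1 with hB
  set u : ℝ := (Q : ℝ) ^ (2 - 2 / 3 * lam) + (Q : ℝ) ^ (2 + 50 * lam) / 4 ^ k with hu
  have hu0 : 0 ≤ u := by positivity
  have hmap : ∀ i ∈ I, j i ∈ Icc (-B) B := by
    intro i hi
    rw [Finset.mem_Icc]
    have h3 := abs_le.1 (ht i hi)
    constructor
    · show -B ≤ ⌊t i / h⌋
      rw [Int.le_floor, hB]
      push_cast
      have h4 := Int.lt_floor_add_one (T / h)
      have h5 : -(T / h) ≤ t i / h := by
        rw [← neg_div]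
        exact div_le_div_of_nonneg_right h3.1 hh0.le
      linarith
    · have h5 : t i / h ≤ T / h := div_le_div_of_nonneg_right h3.2 hh0.le
      have := Int.floor_le_floor h5
      show ⌊t i / h⌋ ≤ B
      omega
  have hfib : ∀ b ∈ Icc (-B) B, (((I.filter fun i => j i = b).card : ℕ) : ℝ) ≤
      C * 2 ^ (2 * m) * (2 + T) ^ (2 * m) * l ^ (A + 2) * u := by
    intro b _
    rcases Finset.eq_empty_or_nonempty (I.filter fun i => j i = b) with he | ⟨i₀, hi₀⟩
    · rw [he, Finset.card_empty, Nat.cast_zero]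
      positivity
    rw [Finset.mem_filter] at hi₀
    have h1 := hcell Q (I.filter fun i => j i = b) ψ F lam
      ((b : ℝ) * h) k (hD.mono (Finset.filter_subset _ _)) hl hlam (fun i hi => ?_)
    · refine h1.trans ?_
      have him : |(b : ℝ) * h| ≤ 1 + T := by
        obtain ⟨hiI, hib⟩ := hi₀
        have h2 := floor_cell (x := t i₀) hh0
        have h3 := ht i₀ hiI
        have h5 : |t i₀ - ((b : ℤ) : ℝ) * h| ≤ h := by rw [← hib]; exact h2
        have h4 : |(b : ℝ) * h| ≤ |t i₀| + |t i₀ - ((b : ℤ) : ℝ) * h| := by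
          have := abs_sub (t i₀) (t i₀ - ((b : ℤ) : ℝ) * h)
          rwa [sub_sub_cancel] at this
        have : h ≤ 1 := by rw [hh]; linarith
        linarith
      have h6 : 2 + |(b : ℝ) * h| ≤ 2 * (2 + T) := by linarith
      calc C * (2 + |(b : ℝ) * h|) ^ (2 * m) * l ^ (A + 2) * u
          ≤ C * (2 * (2 + T)) ^ (2 * m) * l ^ (A + 2) * u := by gcongr
        _ = _ := by rw [mul_pow 2 (2 + T)]; ring
    · obtain ⟨hiI, hib⟩ := Finset.mem_filter.1 hi
      refine (hk i hiI).move ?_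
      refine (add_le_add (Complex.norm_le_abs_re_add_abs_im _) le_rfl).trans ?_
      rw [sub_re, sub_im, pt_re, pt_im, pt_re, pt_im]
      have h2 := floor_cell (x := t i) hh0
      have h5 : |t i - ((b : ℤ) : ℝ) * h| ≤ h := by rw [← hib]; exact h2
      have h6 : |(1 : ℝ) / 2 - (1 / 2 + lam)| = lam := by
        rw [show (1 : ℝ) / 2 - (1 / 2 + lam) = -lam by ring, abs_neg, abs_of_pos hlam0]
      rw [h6]
      rw [hh] at h5 ⊢
      linarith
  have hcard := Finset.card_eq_sum_card_fiberwise (f := j) hmap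
  have h1 : (I.card : ℝ) ≤ ∑ b ∈ Icc (-B) B,
      C * 2 ^ (2 * m) * (2 + T) ^ (2 * m) * l ^ (A + 2) * u := by
    rw [hcard]
    push_cast
    exact Finset.sum_le_sum fun b hb => hfib b hb
  rw [Finset.sum_const, nsmul_eq_mul] at h1
  have hnum : (((Icc (-B) B).card : ℕ) : ℝ) ≤ 3 * (2 + T) * l := by
    rw [Int.card_Icc]
    have hB0 : 0 ≤ B := by
      have : 0 ≤ ⌊T / h⌋ := Int.floor_nonneg.2 (by positivity)
      omega
    have hB1 : (B : ℝ) ≤ T / h + 1 := by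
      rw [hB]
      push_cast
      have := Int.floor_le (T / h)
      linarith
    have c2 : (((B + 1 - -B).toNat : ℕ) : ℝ) = 2 * B + 1 := by
      have : (((B + 1 - -B).toNat : ℤ)) = 2 * B + 1 := by omega
      exact_mod_cast this
    rw [c2]
    have h3 : 1 / h ≤ 3 / 2 * l := by
      rw [div_le_iff₀ hh0, hh]
      linarith
    have h4 : T / h ≤ T * (3 / 2 * l) := by
      rw [div_eq_mul_one_div]
      gcongr
    have h40 : 40 ≤ l := by nlinarith
    nlinarith [mul_nonneg hT hl0.le]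
  have h5 : l ^ (A + 3) = l ^ (A + 2) * l := by
    rw [show A + 3 = (A + 2) + 1 by ring, Real.rpow_add hl0, Real.rpow_one]
  calc (I.card : ℝ) ≤ _ := h1
    _ ≤ (3 * (2 + T) * l) * (C * 2 ^ (2 * m) * (2 + T) ^ (2 * m) * l ^ (A + 2) * u) := by
        gcongr
    _ = _ := by rw [h5, pow_succ]; ring

/-- the pointwise bound for the order -/
theorem ord_bd {c : ℕ → ℂ} (m : ℕ) {R₀ V : ℝ} (hR₀ : 0 ≤ R₀) (hV : 0 ≤ V) (hL : Lin c) :
    ∃ C : ℝ, 1 ≤ C ∧ ∀ (Q : ℕ) (ψ : ℕ → ℂ) (F : ℂ → ℂ) (γ : ℝ) (k : ℕ), 1 ≤ Q →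
      Mem c (R₀ * (Q : ℝ) ^ m) V m ψ F →
      Dv F k (pt (1 / 2) γ) (1 / 100) →
      (5 / 4 : ℝ) ^ k ≤ C * (Q : ℝ) ^ m * (3 + |γ|) ^ m := by
  have hB := Bs_nn c (3 / 2)
  have hB' := Bs_nn c (5 / 4)
  set K : ℝ := Real.exp 4 * Real.exp ((m : ℝ) ^ 2) with hK
  have hK1 : 1 ≤ K := by
    rw [hK]
    exact one_le_mul_of_one_le_of_one_le (Real.one_le_exp (by norm_num))
      (Real.one_le_exp (by positivity))
  set A₁ : ℝ := Bs c (3 / 2) with hA₁
  refine ⟨1 + 2 * Bs c (5 / 4) * (K * ((1 + R₀ * V ^ m * A₁) * (1 + A₁))), ?_, ?_⟩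
  · have : 0 ≤ 2 * Bs c (5 / 4) * (K * ((1 + R₀ * V ^ m * A₁) * (1 + A₁))) := by positivity
    linarith
  intro Q ψ F γ k hQ hM hk
  have hq1 : (1 : ℝ) ≤ Q := by exact_mod_cast hQ
  set A₀ : ℝ := R₀ * (Q : ℝ) ^ m * V ^ m * A₁ with hA₀
  have hA₀0 : 0 ≤ A₀ := by positivity
  have hpw : ∀ x p : ℝ, 0 ≤ x → 0 ≤ p → p ≤ 1 → x ^ p ≤ 1 + x := by
    intro x p hx hp0 hp1
    calc x ^ p ≤ (1 + x) ^ p := Real.rpow_le_rpow hx (by linarith) hp0
      _ ≤ (1 + x) ^ (1 : ℝ) := Real.rpow_le_rpow_of_exponent_le (by linarith) hp1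
      _ = 1 + x := Real.rpow_one _
  -- the upper bound
  have hup : ∀ s : ℂ, -1 / 2 ≤ s.re → ‖F s‖ ≤ K * (1 + |s.im|) ^ m * ((1 + A₀) * (1 + A₁)) := by
    intro s hs
    have h1t : (1 : ℝ) ≤ (1 + |s.im|) ^ m := one_le_pow₀ (by linarith [abs_nonneg s.im])
    rcases le_total s.re (3 / 2) with h3 | h3
    · have key := three ({()} : Finset Unit) (fun _ => F) (a := -1 / 2) (b := 3 / 2) (A₀ := A₀)
        (A₁ := A₁) (n := m) (s := s) (by norm_num) (by norm_num) (by norm_num)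
        (fun _ _ => hM.diff) (fun _ _ => ?_) hA₀0 hB (fun t => ?_) (fun t => ?_) hs h3
      · rw [Finset.sum_singleton] at key
        set θ : ℝ := (s.re - -1 / 2) / (3 / 2 - -1 / 2) with hθ
        have hθ0 : 0 ≤ θ := div_nonneg (by linarith) (by norm_num)
        have hθ1 : θ ≤ 1 := by
          rw [hθ, div_le_one (by norm_num)]
          linarith
        have h4 := abs_le_of_sq_le_sq' key (by positivity)
        refine h4.2.trans ?_
        have h5 := hpw A₀ (1 - θ) hA₀0 (by linarith) (by linarith)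
        have h6 := hpw A₁ θ hB hθ0 hθ1
        gcongr
      · obtain ⟨A', C', h'⟩ := hM.gr
        exact ⟨A', C', fun z hz => h' z ⟨hz.1, hz.2.trans (by norm_num)⟩⟩
      · rw [Finset.sum_singleton]
        have h5 := left_F hL hM t
        have h6 : R₀ * (Q : ℝ) ^ m * (V * (1 + |t|)) ^ m * Bs c (3 / 2) = A₀ * (1 + |t|) ^ m := by
          rw [hA₀, mul_pow V]
          ring
        rw [h6] at h5
        gcongr
      · rw [Finset.sum_singleton]
        have h5 : ‖F (pt (3 / 2) t)‖ ≤ A₁ := by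
          rw [hM.ser _ (by rw [pt_re]; norm_num)]
          exact ls_le hL hM.le (norm_E_le c) (by norm_num) (by rw [pt_re])
        have h6 : (1 : ℝ) ≤ (1 + |t|) ^ m := one_le_pow₀ (by linarith [abs_nonneg t])
        have h7 : ‖F (pt (3 / 2) t)‖ ≤ A₁ * (1 + |t|) ^ m :=
          h5.trans (le_mul_of_one_le_right hB h6)
        gcongr
    · have h5 : ‖F s‖ ≤ A₁ := by
        rw [hM.ser _ (by linarith)]
        exact ls_le hL hM.le (norm_E_le c) (by norm_num) h3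
      have h6 : A₁ ≤ (1 + A₀) * (1 + A₁) := by nlinarith
      have h7 : (1 : ℝ) ≤ K * (1 + |s.im|) ^ m := one_le_mul_of_one_le_of_one_le hK1 h1t
      have h8 : 0 ≤ (1 + A₀) * (1 + A₁) := by positivity
      exact h5.trans (h6.trans (le_mul_of_one_le_left h8 h7))
  set M : ℝ := K * (3 + |γ|) ^ m * ((1 + A₀) * (1 + A₁)) with hMd
  have hM0 : 0 ≤ M := by positivity
  have key := dv_gen ({()} : Finset Unit) (fun _ => F)
    (s₁ := pt (5 / 4) γ) (r := 7 / 8) (a := 76 / 100) (b := 95 / 100) (B := M ^ 2) (k := k)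
    (by norm_num) (by norm_num) (by norm_num) (by norm_num) (fun _ _ => ?_) (fun t => ?_)
  · rw [Finset.sum_singleton] at key
    -- the lower bound
    have hlow : 1 ≤ ‖F (pt (5 / 4) γ)‖ * Bs c (5 / 4) := by
      have hre : 1 < (pt (5 / 4) γ).re := by rw [pt_re]; norm_num
      have h1 := (hL.twist hM.le).inv hre
      have h2 : F (pt (5 / 4) γ) = LSeries (E fun n => ψ n * c n) (pt (5 / 4) γ) := by
        rw [hM.ser _ hre, tw_E hM.one hM.mul]
      have h3 : (fun n => -(ψ n * c n)) = fun n => ψ n * (-c n) := by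
        funext n
        ring
      rw [← h2, h3, ← tw_E hM.one hM.mul (κ := fun n => -c n)] at h1
      have h4 : ‖LSeries (tw ψ (E fun n => -c n)) (pt (5 / 4) γ)‖ ≤ Bs c (5 / 4) :=
        ls_le hL hM.le (norm_neg_E_le c) (by norm_num) (by rw [pt_re])
      have h5 := congrArg norm h1
      rw [norm_mul, norm_one] at h5
      rw [← h5]
      gcongr
    have h1 : ‖F (pt (5 / 4) γ)‖ ≤ 2 * M * (4 / 5) ^ k := by
      have h2 : 4 * (M ^ 2 * ((76 / 100 / (95 / 100)) ^ k) ^ 2) = (2 * M * (4 / 5) ^ k) ^ 2 := by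
        norm_num
        ring
      rw [h2] at key
      exact (abs_le_of_sq_le_sq' key (by positivity)).2
    have h2 : 1 ≤ 2 * M * (4 / 5) ^ k * Bs c (5 / 4) :=
      hlow.trans (mul_le_mul_of_nonneg_right h1 hB')
    have h3 : (5 / 4 : ℝ) ^ k * (4 / 5) ^ k = 1 := by
      rw [← mul_pow]
      norm_num
    have h4 : (5 / 4 : ℝ) ^ k ≤ 2 * M * Bs c (5 / 4) := by
      calc (5 / 4 : ℝ) ^ k = (5 / 4 : ℝ) ^ k * 1 := by ring
        _ ≤ (5 / 4 : ℝ) ^ k * (2 * M * (4 / 5) ^ k * Bs c (5 / 4)) := by gcongr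
        _ = 2 * M * Bs c (5 / 4) * ((5 / 4 : ℝ) ^ k * (4 / 5) ^ k) := by ring
        _ = _ := by rw [h3, mul_one]
    refine h4.trans ?_
    have hQm : (1 : ℝ) ≤ (Q : ℝ) ^ m := one_le_pow₀ hq1
    have h5 : 1 + A₀ ≤ (1 + R₀ * V ^ m * A₁) * (Q : ℝ) ^ m := by
      rw [hA₀]
      have : 0 ≤ R₀ * V ^ m * A₁ := by positivity
      nlinarith
    have hγ : 0 ≤ (3 + |γ|) ^ m := by positivity
    have h6 : M ≤ K * (3 + |γ|) ^ m * (((1 + R₀ * V ^ m * A₁) * (Q : ℝ) ^ m) * (1 + A₁)) := by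
      rw [hMd]
      gcongr
    have h7 : 0 ≤ (Q : ℝ) ^ m * (3 + |γ|) ^ m := by positivity
    calc 2 * M * Bs c (5 / 4)
        ≤ 2 * (K * (3 + |γ|) ^ m * (((1 + R₀ * V ^ m * A₁) * (Q : ℝ) ^ m) * (1 + A₁))) *
          Bs c (5 / 4) := by gcongr
      _ = (2 * Bs c (5 / 4) * (K * ((1 + R₀ * V ^ m * A₁) * (1 + A₁)))) *
          ((Q : ℝ) ^ m * (3 + |γ|) ^ m) := by ring
      _ ≤ (1 + 2 * Bs c (5 / 4) * (K * ((1 + R₀ * V ^ m * A₁) * (1 + A₁)))) *
          ((Q : ℝ) ^ m * (3 + |γ|) ^ m) := by gcongr; linarith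
      _ = _ := by ring
  · have h1 : pt (1 / 2) γ - pt (5 / 4) γ = ((-(3 / 4) : ℝ) : ℂ) := by
      apply Complex.ext
      · simp; norm_num
      · simp
    refine hk.move ?_
    rw [h1, Complex.norm_real, Real.norm_eq_abs, abs_neg, abs_of_pos (by norm_num)]
    norm_num
  · rw [Finset.sum_singleton]
    have h5 : ‖circleMap (pt (5 / 4) γ) (2 * (7 / 8)) t - pt (5 / 4) γ‖ = 7 / 4 := by
      rw [circleMap_sub_center, norm_circleMap_zero, abs_of_pos (by norm_num)]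
      norm_num
    have h6 := (Complex.abs_re_le_norm
      (circleMap (pt (5 / 4) γ) (2 * (7 / 8)) t - pt (5 / 4) γ)).trans h5.le
    have h7 := (Complex.abs_im_le_norm
      (circleMap (pt (5 / 4) γ) (2 * (7 / 8)) t - pt (5 / 4) γ)).trans h5.le
    rw [sub_re, pt_re] at h6
    rw [sub_im, pt_im] at h7
    have h8 := hup (circleMap (pt (5 / 4) γ) (2 * (7 / 8)) t) (by
      have := (abs_le.1 h6).1
      linarith)
    have h9 : 1 + |(circleMap (pt (5 / 4) γ) (2 * (7 / 8)) t).im| ≤ 3 + |γ| := by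
      have := abs_add_le ((circleMap (pt (5 / 4) γ) (2 * (7 / 8)) t).im - γ) γ
      rw [sub_add_cancel] at this
      linarith
    have h10 : ‖F (circleMap (pt (5 / 4) γ) (2 * (7 / 8)) t)‖ ≤ M := by
      refine h8.trans ?_
      rw [hMd]
      gcongr
    gcongr

end Pool.Agent.R399.TM
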