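import Pool.Agent.R399.TM.Fact

/-!
# The mollified values
-/

set_option autoImplicit false

namespace Pool.Agent.R399.TM

open Finset Filter Topology Complex MeasureTheory
open Pool.Agent.R399.TW
open scoped ComplexConjugate

lemma Ph_zero : Ph 0 = 1 / 2 := by
  unfold Ph
  rw [← gd_half]
  congr 1
  funext u
  rw [zero_sub, gd_even]

/-- the kernel without shift, right and left -/
lemma Kr0_sides {ρ : ℂ} (h1 : 1 / 2 < ρ.re) (h2 : ρ.re ≤ 1) :
    (Integrable (fun t : ℝ => Kr 0 ρ (pt 2 t)) ∧ Integrable (fun t : ℝ => Kr 0 ρ (pt (-1 / 2) t))) ∧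
    (∫ t : ℝ, Kr 0 ρ (pt 2 t)) - (∫ t : ℝ, Kr 0 ρ (pt (-1 / 2) t)) = 2 * Real.pi := by
  obtain ⟨i1, e1⟩ := Kr_two 0 (ρ := ρ) h2
  have hc : 0 < 1 / 2 + ρ.re := by linarith
  set g : ℝ → ℂ := fun s => cexp (pt (1 / 2 + ρ.re) s ^ 2 + ((0 : ℝ) : ℂ) * pt (1 / 2 + ρ.re) s) /
    pt (1 / 2 + ρ.re) s with hg
  have hne : ∀ s : ℝ, pt (1 / 2 + ρ.re) s ≠ 0 := by
    intro s h
    have := congrArg Complex.re h
    simp at this
    linarith
  have hcl : ∀ s : ℝ, (1 : ℝ) / 2 + ρ.re ≤ ‖pt (1 / 2 + ρ.re) s‖ := fun s => by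
    have h3 := (le_abs_self _).trans (Complex.abs_re_le_norm (pt (1 / 2 + ρ.re) s))
    rwa [pt_re] at h3
  have hint : Integrable g := by
    refine (gauss_int (1 / 2 + ρ.re) 0).norm.mono' ?_ (Eventually.of_forall fun s => ?_)
    · have h3 : Continuous g := by
        refine Continuous.div ?_ (pt_cont _) hne
        have := pt_cont (1 / 2 + ρ.re)
        fun_prop
      exact h3.aestronglyMeasurable
    · simp only [hg]
      rw [norm_div]
      refine div_le_self (norm_nonneg _) ?_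
      linarith [hcl s]
  have e2 : (fun t : ℝ => Kr 0 ρ (pt (-1 / 2) t)) = fun t : ℝ => -(g (ρ.im - t)) := by
    funext t
    have e3 : pt (-1 / 2) t - ρ = -pt (1 / 2 + ρ.re) (ρ.im - t) := by
      apply Complex.ext
      · simp; ring
      · simp
    unfold Kr KN
    rw [e3, hg]
    simp only [neg_sq, Complex.ofReal_zero, zero_mul, add_zero]
    rw [div_neg]
  have i2 : Integrable (fun t : ℝ => Kr 0 ρ (pt (-1 / 2) t)) := by
    rw [e2]
    exact (hint.comp_sub_left ρ.im).neg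
  refine ⟨⟨i1, i2⟩, ?_⟩
  rw [e1, e2, integral_neg, integral_sub_left_eq_self g volume ρ.im, hg, kernel_id hc 0, Ph_zero]
  push_cast
  ring

/-- **the identity for the mollified values** -/
theorem val_id {c : ℕ → ℂ} {R V : ℝ} {m : ℕ} {ψ : ℕ → ℂ} {F ε : ℂ → ℂ} (hL : Lin c)
    (hM : Mem c R V m ψ F) (hε : Eps R V m F ε) {X : ℕ} (hX : 1 ≤ X) (N : ℕ) (L : ℝ) {ρ : ℂ}
    (h1 : 1 / 2 < ρ.re) (h2 : ρ.re ≤ 1) :
    2 * Real.pi * (((Ph L : ℝ) : ℂ) + LSeries (tw ψ (bb c X L)) ρ) =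
      2 * Real.pi * (F ρ * Ml c ψ X ρ) +
      ((∫ t : ℝ, ε (pt (1 / 2) t) * (Dz c ψ N (pt (1 / 2) t) * Ml c ψ X (pt (1 / 2) t)) *
        Kr L ρ (pt (1 / 2) t)) +
      ∫ t : ℝ, ε (pt (-1 / 2) t) * (Dt c ψ N (pt (-1 / 2) t) * Ml c ψ X (pt (-1 / 2) t)) *
        Kr L ρ (pt (-1 / 2) t)) := by
  have hMd : Differentiable ℂ (Ml c ψ X) := cut_diff X _
  have hDd : Differentiable ℂ (Dz c ψ N) := rfl1_diff (cut_diff N _)
  set v : ℂ := F ρ * Ml c ψ X ρ with hv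
  -- the two integrands
  set G : ℂ → ℂ := fun z => F z * Ml c ψ X z * KN L ρ z - v * KN 0 ρ z with hG
  set f₀ : ℂ → ℂ := dslope G ρ with hf₀
  set f₁ : ℂ → ℂ := fun z => ε z * (Dz c ψ N z * Ml c ψ X z) * Kr L ρ z with hf₁
  have hGd : Differentiable ℂ G :=
    ((hM.diff.mul hMd).mul (KN_diff L ρ)).sub ((KN_diff 0 ρ).const_mul v)
  have hf₀d : Differentiable ℂ f₀ := by
    rw [← differentiableOn_univ]
    exact (Complex.differentiableOn_dslope Filter.univ_mem).2 hGd.differentiableOn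
  have hGρ : G ρ = 0 := by
    simp only [hG, hv]
    unfold KN
    simp
  have hds2 : ∀ z : ℂ, z ≠ ρ → f₀ z = F z * Ml c ψ X z * Kr L ρ z - v * Kr 0 ρ z := by
    intro z hz
    rw [hf₀, dslope_of_ne _ hz, slope_def_field, hGρ, sub_zero]
    unfold Kr
    simp only [hG]
    ring
  have hds3 : ∀ z : ℂ, z ≠ ρ → f₀ z = G z / (z - ρ) := by
    intro z hz
    rw [hf₀, dslope_of_ne _ hz, slope_def_field, hGρ, sub_zero]
  have hne : ∀ z : ℂ, z.re ≤ 1 / 2 → z - ρ ≠ 0 := by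
    intro z hz h
    rw [sub_eq_zero] at h
    rw [h] at hz
    linarith
  -- first bound
  obtain ⟨A, C, hgr⟩ := hM.gr
  obtain ⟨CM, hCM0, hCM⟩ := cut_bd X (tw ψ (E fun k => -c k)) (-1 / 2)
  obtain ⟨CK, hCK0, hCK⟩ := KN_bd L A h1 h2
  obtain ⟨CK₂, hCK₂0, hCK₂⟩ := KN_bd 0 0 h1 h2
  have hC0 : 0 ≤ C := by
    have := (norm_nonneg _).trans (hgr (pt 0 0) ⟨by simp; norm_num, by simp⟩)
    simpa using this
  have b₀ : ∃ C' : ℝ, ∀ z ∈ strip (-1 / 2) 2, ‖f₀ z‖ ≤ C' * Real.exp (-|z.im|) := by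
    refine bd_of_eventually (C := C * CM * CK + ‖v‖ * CK₂) (T₀ := |ρ.im| + 1)
      hf₀d.continuous.continuousOn fun z hz hT => ?_
    have hz1 : 1 ≤ ‖z - ρ‖ := by
      have h3 := Complex.abs_im_le_norm (z - ρ)
      rw [sub_im] at h3
      have h4 := abs_sub_abs_le_abs_sub z.im ρ.im
      linarith
    have hz2 : z ≠ ρ := by
      intro h
      rw [h, sub_self, norm_zero] at hz1
      linarith
    rw [hds3 z hz2, norm_div]
    refine (div_le_self (norm_nonneg _) hz1).trans ?_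
    have h6 := hCM z hz.1
    have h7 := hCK z hz
    have h8 := hCK₂ z hz
    rw [zero_mul, Real.exp_zero, one_mul] at h8
    simp only [hG]
    refine (norm_sub_le _ _).trans ?_
    rw [norm_mul, norm_mul, norm_mul v]
    have h6' : ‖Ml c ψ X z‖ ≤ CM := h6
    have h9 := hgr z hz
    calc ‖F z‖ * ‖Ml c ψ X z‖ * ‖KN L ρ z‖ + ‖v‖ * ‖KN 0 ρ z‖
        ≤ (C * Real.exp (A * |z.im|)) * CM * ‖KN L ρ z‖ + ‖v‖ * (CK₂ * Real.exp (-|z.im|)) := by
          gcongr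
      _ = C * CM * (Real.exp (A * |z.im|) * ‖KN L ρ z‖) + ‖v‖ * (CK₂ * Real.exp (-|z.im|)) := by
          ring
      _ ≤ C * CM * (CK * Real.exp (-|z.im|)) + ‖v‖ * (CK₂ * Real.exp (-|z.im|)) := by gcongr
      _ = _ := by ring
  obtain ⟨C₀, hC₀⟩ := b₀
  -- second bound
  obtain ⟨A', C', hgr'⟩ := hε.gr
  obtain ⟨CD, hCD0, hCD⟩ := cut_bd N (tw ψ (E c)) (1 / 2)
  obtain ⟨CK', hCK0', hCK'⟩ := KN_bd L A' h1 h2
  have hC0' : 0 ≤ C' := by
    have := (norm_nonneg _).trans (hgr' (pt 0 0) ⟨by simp; norm_num, by simp⟩)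
    simpa using this
  have hsub : strip (-1 / 2) (1 / 2) ⊆ strip (-1 / 2) 2 := fun z hz => ⟨hz.1, hz.2.trans (by norm_num)⟩
  have hKr : DifferentiableOn ℂ (Kr L ρ) {z | z.re ≤ 1 / 2} := by
    intro z hz
    exact ((KN_diff L ρ z).div (by fun_prop) (hne z hz)).differentiableWithinAt
  have hf₁c : ContinuousOn f₁ (strip (-1 / 2) (1 / 2)) :=
    (hε.cont.mul ((hDd.mul hMd).continuous.continuousOn)).mul
      (hKr.continuousOn.mono fun z hz => hz.2)
  have hf₁d : DifferentiableOn ℂ f₁ {z | -1 / 2 < z.re ∧ z.re < 1 / 2} :=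
    (hε.diff.mul ((hDd.mul hMd).differentiableOn)).mul (hKr.mono fun z hz => hz.2.le)
  have b₁ : ∃ C'' : ℝ, ∀ z ∈ strip (-1 / 2) (1 / 2), ‖f₁ z‖ ≤ C'' * Real.exp (-|z.im|) := by
    refine bd_of_eventually (C := C' * (CD * CM) * CK') (T₀ := |ρ.im| + 1) hf₁c fun z hz hT => ?_
    have hz1 : 1 ≤ ‖z - ρ‖ := by
      have h3 := Complex.abs_im_le_norm (z - ρ)
      rw [sub_im] at h3
      have h4 := abs_sub_abs_le_abs_sub z.im ρ.im
      linarith
    have h5 : ‖Kr L ρ z‖ ≤ ‖KN L ρ z‖ := by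
      unfold Kr
      rw [norm_div]
      exact div_le_self (norm_nonneg _) hz1
    have h6 : ‖Ml c ψ X z‖ ≤ CM := hCM z hz.1
    have h7 : ‖Dz c ψ N z‖ ≤ CD := by
      unfold Dz rfl1
      rw [RCLike.norm_conj]
      refine hCD _ ?_
      rw [sub_re, one_re, conj_re]
      linarith [hz.2]
    have h8 := hCK' z (hsub hz)
    simp only [hf₁]
    rw [norm_mul, norm_mul, norm_mul]
    calc ‖ε z‖ * (‖Dz c ψ N z‖ * ‖Ml c ψ X z‖) * ‖Kr L ρ z‖
        ≤ (C' * Real.exp (A' * |z.im|)) * (CD * CM) * ‖KN L ρ z‖ := by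
          gcongr
          exact hgr' z hz
      _ = C' * (CD * CM) * (Real.exp (A' * |z.im|) * ‖KN L ρ z‖) := by ring
      _ ≤ C' * (CD * CM) * (CK' * Real.exp (-|z.im|)) := by gcongr
      _ = _ := by ring
  obtain ⟨C₁, hC₁⟩ := b₁
  obtain ⟨⟨k1, k2⟩, k3⟩ := Kr0_sides h1 h2
  have i0 : Integrable fun t : ℝ => f₀ (pt (-1 / 2) t) :=
    vert_int le_rfl (by norm_num) hf₀d.continuous.continuousOn hC₀
  have i2 : Integrable fun t : ℝ => f₀ (pt 2 t) :=
    vert_int (by norm_num) le_rfl hf₀d.continuous.continuousOn hC₀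
  have i1 : Integrable fun t : ℝ => f₁ (pt (-1 / 2) t) :=
    vert_int le_rfl (by norm_num) hf₁c hC₁
  -- the line `Re z = 2`
  have hp2 : ∀ t : ℝ, pt 2 t ≠ ρ := by
    intro t h
    have := congrArg Complex.re h
    rw [pt_re] at this
    linarith
  have hpm : ∀ t : ℝ, pt (-1 / 2) t ≠ ρ := by
    intro t h
    have := congrArg Complex.re h
    rw [pt_re] at this
    linarith
  have s1 : (∫ t : ℝ, f₀ (pt 2 t)) + v * ∫ t : ℝ, Kr 0 ρ (pt 2 t) =
      2 * Real.pi * (((Ph L : ℝ) : ℂ) + LSeries (tw ψ (bb c X L)) ρ) := by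
    rw [← (right_line hL hM.le hM.one hX L h2).2, ← integral_const_mul,
      ← integral_add i2 (k1.const_mul v)]
    congr 1
    funext t
    have hre : 1 < (pt 2 t).re := by rw [pt_re]; norm_num
    rw [hds2 _ (hp2 t), hM.ser _ hre]
    unfold Ml
    rw [← tw_cut]
    have h3 := LS_mul_tw (f := E c) (g := cut X (E fun k => -c k)) hM.mul
      (ls_tw hM.le (ls_E hL hre)) (ls_tw hM.le (cut_summable X _ (pt 2 t)))
    unfold cX
    rw [← h3]
    ring
  -- shift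
  have s2 : ∫ t : ℝ, f₀ (pt (-1 / 2) t) = ∫ t : ℝ, f₀ (pt 2 t) :=
    vshift (by norm_num) hf₀d.continuous.continuousOn hf₀d.differentiableOn hC₀
  have s3 : ∫ t : ℝ, f₁ (pt (-1 / 2) t) = ∫ t : ℝ, f₁ (pt (1 / 2) t) :=
    vshift (by norm_num) hf₁c hf₁d hC₁
  have e4 : ∀ t : ℝ, ε (pt (-1 / 2) t) * (Dt c ψ N (pt (-1 / 2) t) * Ml c ψ X (pt (-1 / 2) t)) *
        Kr L ρ (pt (-1 / 2) t) = f₀ (pt (-1 / 2) t) + v * Kr 0 ρ (pt (-1 / 2) t) -
          f₁ (pt (-1 / 2) t) := by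
    intro t
    have hre : 1 < (1 - conj (pt (-1 / 2) t)).re := by
      rw [sub_re, one_re, conj_re, pt_re]; norm_num
    have h5 : rfl1 F (pt (-1 / 2) t) = Dz c ψ N (pt (-1 / 2) t) + Dt c ψ N (pt (-1 / 2) t) := by
      unfold Dz Dt rfl1
      rw [hM.ser _ hre, ← map_add]
      congr 1
      have h6 : LSeriesSummable (tl N (tw ψ (E c))) (1 - conj (pt (-1 / 2) t)) := by
        rw [← tw_tl]
        exact ls_tw hM.le (ls_of_le hL (K := 1) (fun n => by
          rw [one_mul]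
          refine (norm_tl_le _ _ _).trans ((norm_E_le c n).trans ?_)
          exact E_mono (fun k => norm_nonneg _) (fun k => by
            have := norm_nonneg (c k); linarith) n) hre)
      rw [← LSeries_add (cut_summable N _ _) h6]
      congr 1
      funext n
      exact (cut_add_tl N _ n).symm
    rw [hds2 _ (hpm t), hε.fe t, h5]
    simp only [hf₁]
    ring
  simp only [e4]
  have i3 : Integrable fun t : ℝ => f₀ (pt (-1 / 2) t) + v * Kr 0 ρ (pt (-1 / 2) t) :=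
    i0.add (k2.const_mul v)
  rw [integral_sub i3 i1, integral_add i0 (k2.const_mul v), integral_const_mul, ← s1, s3, s2]
  linear_combination v * k3

end Pool.Agent.R399.TM
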