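import Pool.Agent.R399.TM.Val

/-!
# The mean square of the mollified values minus the main term
-/

set_option autoImplicit false

namespace Pool.Agent.R399.TM

open Finset Filter Topology Complex MeasureTheory
open Pool.Agent.R399.TW
open scoped ComplexConjugate

/-- the bound of the mean square -/
noncomputable def vb (m : ℕ) (R V P κ Y σ τ : ℝ) (X N : ℕ) : ℝ :=
  (P * (X : ℝ) ^ (1 - 2 * σ) + Y ^ (2 - 2 * σ)) * ((1 + Real.log Y) ^ 2 * Y ^ κ) +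
    Y ^ (1 - 2 * σ) / (σ - 1 / 2) ^ 2 * ((P + (N * X : ℕ)) * ((N * X : ℕ) : ℝ) ^ κ) +
    (R * (V * (1 + |τ|)) ^ m) ^ 2 * Y ^ (-1 - 2 * σ) * ((X : ℝ) ^ 4 * (1 + P / N) *
      ((1 + Real.log N) ^ 2 * (N : ℝ) ^ (κ - 1)))

/-- **the mean square** -/
theorem vals (m : ℕ) : ∃ K : ℝ, 0 ≤ K ∧ ∀ {ι : Type} (I : Finset ι) (ψ : ι → ℕ → ℂ)
    (F : ι → ℂ → ℂ) (c : ℕ → ℂ) (R V H P η θ S Y : ℝ) (X N : ℕ) (ρ : ℂ),
    LSv I ψ H P η → (∀ i ∈ I, Mem c R V m (ψ i) (F i)) → Lin c → SB c θ S →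
    0 ≤ R → 0 ≤ V → 0 ≤ θ → η + θ ≤ 1 / 2 → 1 ≤ X → 1 ≤ N → 1 ≤ Y → 1 / 2 < ρ.re →
    ρ.re ≤ 1 →
    ∑ i ∈ I, ‖F i ρ * Ml c (ψ i) X ρ - ((Ph (Real.log Y) : ℝ) : ℂ)‖ ^ 2 ≤
      K * H * S * vb m R V P (η + θ) Y ρ.re ρ.im X N := by
  have hg0 := gI_nn 0
  have hgm := gI_nn m
  set K₁ : ℝ := 3 * (10 * 2 * (16 * Real.exp 18)) with hK₁
  set K₂ : ℝ := 3 * (Real.exp 2 * gI 0) ^ 2 with hK₂
  set K₃ : ℝ := 3 * (10 * 2 * 16 * (Real.exp 4 * gI m) ^ 2) with hK₃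
  have hK₁0 : 0 ≤ K₁ := by positivity
  have hK₂0 : 0 ≤ K₂ := by positivity
  have hK₃0 : 0 ≤ K₃ := by positivity
  refine ⟨K₁ + K₂ + K₃, by positivity, ?_⟩
  intro ι I ψ F c R V H P η θ S Y X N ρ hls hM hL hSB hR hV hθ hηθ hX hN hY hσ hσ1
  have hP := hls.P_ge
  have hH := hls.H_nn
  have hη := hls.η_nn
  have hS := hSB.nn
  have hY0 : 0 < Y := by linarith
  have hlY : 0 ≤ Real.log Y := Real.log_nonneg hY
  have h2η : (2 : ℝ) ^ η ≤ 2 := by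
    have := Real.rpow_le_rpow_of_exponent_le (show (1 : ℝ) ≤ 2 by norm_num)
      (show η ≤ 1 by linarith)
    rwa [Real.rpow_one] at this
  have hm' : ∀ i ∈ I, ∀ k n, ψ i (k * n) = ψ i k * ψ i n := fun i hi => (hM i hi).mul
  set σ := ρ.re with hσdef
  have hδ : 0 < σ - 1 / 2 := by linarith
  set L := Real.log Y with hLdef
  -- choose the factors
  have hch : ∀ i : ι, ∃ ε : ℂ → ℂ, i ∈ I → Eps R V m (F i) ε := by
    intro i
    by_cases hi : i ∈ I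
    · obtain ⟨ε, hε⟩ := (hM i hi).fe
      exact ⟨ε, fun _ => hε⟩
    · exact ⟨0, fun h => absurd h hi⟩
  choose ε hε using hch
  -- the three parts
  set A : ι → ℝ := fun i => ‖LSeries (tw (ψ i) (bb c X L)) ρ‖ with hA
  set J₁ : ι → ℝ := fun i => ‖∫ t : ℝ, ε i (pt (1 / 2) t) * (Dz c (ψ i) N (pt (1 / 2) t) *
    Ml c (ψ i) X (pt (1 / 2) t)) * Kr L ρ (pt (1 / 2) t)‖ with hJ₁
  set J₂ : ι → ℝ := fun i => ‖∫ t : ℝ, ε i (pt (-1 / 2) t) * (Dt c (ψ i) N (pt (-1 / 2) t) *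
    Ml c (ψ i) X (pt (-1 / 2) t)) * Kr L ρ (pt (-1 / 2) t)‖ with hJ₂
  have key : ∀ i ∈ I, ‖F i ρ * Ml c (ψ i) X ρ - ((Ph L : ℝ) : ℂ)‖ ^ 2 ≤
      3 * (A i ^ 2 + J₁ i ^ 2 + J₂ i ^ 2) := by
    intro i hi
    have h1 := val_id hL (hM i hi) (hε i hi) hX N L (ρ := ρ) hσ hσ1
    set a := LSeries (tw (ψ i) (bb c X L)) ρ with ha
    set j₁ := ∫ t : ℝ, ε i (pt (1 / 2) t) * (Dz c (ψ i) N (pt (1 / 2) t) *
      Ml c (ψ i) X (pt (1 / 2) t)) * Kr L ρ (pt (1 / 2) t) with hj₁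
    set j₂ := ∫ t : ℝ, ε i (pt (-1 / 2) t) * (Dt c (ψ i) N (pt (-1 / 2) t) *
      Ml c (ψ i) X (pt (-1 / 2) t)) * Kr L ρ (pt (-1 / 2) t) with hj₂
    set w := F i ρ * Ml c (ψ i) X ρ - ((Ph L : ℝ) : ℂ) with hw
    have hpi := Real.pi_gt_three
    have h3 : 2 * Real.pi * ‖w‖ ≤ 2 * Real.pi * ‖a‖ + (‖j₁‖ + ‖j₂‖) := by
      have h4 : 2 * Real.pi * w = 2 * Real.pi * a - (j₁ + j₂) := by
        rw [hw]
        linear_combination -h1
      have h5 : ‖(2 * Real.pi * w : ℂ)‖ = 2 * Real.pi * ‖w‖ := by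
        rw [norm_mul, norm_mul, Complex.norm_real, Complex.norm_ofNat,
          Real.norm_of_nonneg (by positivity)]
      have h7 : ‖(2 * Real.pi * a : ℂ)‖ = 2 * Real.pi * ‖a‖ := by
        rw [norm_mul, norm_mul, Complex.norm_real, Complex.norm_ofNat,
          Real.norm_of_nonneg (by positivity)]
      rw [← h5, h4, ← h7]
      refine (norm_sub_le _ _).trans ?_
      have h6 := norm_add_le j₁ j₂
      linarith
    have hA' : A i = ‖a‖ := rfl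
    have hJ₁' : J₁ i = ‖j₁‖ := rfl
    have hJ₂' : J₂ i = ‖j₂‖ := rfl
    rw [hA', hJ₁', hJ₂']
    have n0 := norm_nonneg w
    have n1 := norm_nonneg a
    have n2 := norm_nonneg j₁
    have n3 := norm_nonneg j₂
    have h8 : ‖w‖ ≤ ‖a‖ + ‖j₁‖ + ‖j₂‖ := by
      have h11 : ‖j₁‖ ≤ 2 * Real.pi * ‖j₁‖ := by nlinarith
      have h12 : ‖j₂‖ ≤ 2 * Real.pi * ‖j₂‖ := by nlinarith
      have h9 : 2 * Real.pi * ‖w‖ ≤ 2 * Real.pi * (‖a‖ + ‖j₁‖ + ‖j₂‖) := by nlinarith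
      exact le_of_mul_le_mul_left h9 (by positivity)
    have h9 : ‖w‖ ^ 2 ≤ (‖a‖ + ‖j₁‖ + ‖j₂‖) ^ 2 := by gcongr
    nlinarith [sq_nonneg (‖a‖ - ‖j₁‖), sq_nonneg (‖a‖ - ‖j₂‖), sq_nonneg (‖j₁‖ - ‖j₂‖)]
  -- the tail
  have hsumA : ∑ i ∈ I, A i ^ 2 ≤ (10 * (2 : ℝ) ^ η * H * (16 * Real.exp 18 *
      (P * (X : ℝ) ^ (1 - 2 * σ) + Y ^ (2 - 2 * σ)) *
        ((1 + Real.log Y) ^ 2 * Y ^ (η + θ)) * S)) :=
    bound_A hls hL hSB hX hY hθ hηθ hσ.le hσ1 le_rfl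
  have him : |ρ.im - ρ.im| ≤ 1 := by simp
  -- the critical line
  have hsum1 : ∑ i ∈ I, J₁ i ^ 2 ≤ (H * (P + (N * X : ℕ)) * ((N * X : ℕ) : ℝ) ^ (η + θ) * S) *
      (Real.exp 2 * Real.exp (L * (1 / 2 - σ)) / (σ - 1 / 2) * gI 0) ^ 2 := by
    set C₁ : ℝ := Real.exp 2 * Real.exp (L * (1 / 2 - σ)) / (σ - 1 / 2) with hC₁
    have hC₁0 : 0 ≤ C₁ := by positivity
    obtain ⟨hi0, hle0⟩ := gint 0 ρ.im
    simp only [pow_zero, one_mul] at hi0 hle0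
    set κ : ℝ → ℝ := fun t => C₁ * Real.exp (-((t - ρ.im) ^ 2) / 2) with hκdef
    have hκ : Integrable κ := hi0.const_mul C₁
    have hκ0 : ∀ t, 0 ≤ κ t := fun t => by positivity
    have hmeas : ∀ i ∈ I, AEStronglyMeasurable (fun t : ℝ => Dz c (ψ i) N (pt (1 / 2) t) *
        Ml c (ψ i) X (pt (1 / 2) t)) volume := by
      intro i _
      have h1 : Differentiable ℂ (Dz c (ψ i) N) := rfl1_diff (cut_diff N _)
      have h2 : Differentiable ℂ (Ml c (ψ i) X) := cut_diff X _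
      exact ((h1.continuous.comp (pt_cont _)).mul (h2.continuous.comp (pt_cont _))).aestronglyMeasurable
    have hBd := fun t : ℝ => bound_B (c := c) (θ := θ) (S := S) hls hm' hSB hθ hN hX t
    have h3 := sum_cs I (fun i t => Dz c (ψ i) N (pt (1 / 2) t) * Ml c (ψ i) X (pt (1 / 2) t))
      J₁ hκ0 hκ hmeas hBd (fun i _ => norm_nonneg _) (fun i hi => ?_)
    · refine h3.trans ?_
      have h4 : ∫ t, κ t ≤ C₁ * gI 0 := by
        rw [hκdef, integral_const_mul]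
        exact mul_le_mul_of_nonneg_left hle0 hC₁0
      have h5 : 0 ≤ ∫ t, κ t := integral_nonneg hκ0
      have h6 : 0 ≤ H * (P + (N * X : ℕ)) * ((N * X : ℕ) : ℝ) ^ (η + θ) * S := by positivity
      gcongr
    · refine norm_integral_le_of_norm_le (int_norm_mul hκ0 hκ (hmeas i hi)
        (B := H * (P + (N * X : ℕ)) * ((N * X : ℕ) : ℝ) ^ (η + θ) * S) fun t => ?_)
        (Eventually.of_forall fun t => ?_)
      · exact (Finset.single_le_sum (f := fun i => ‖Dz c (ψ i) N (pt (1 / 2) t) *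
          Ml c (ψ i) X (pt (1 / 2) t)‖ ^ 2) (fun i _ => by positivity) hi).trans (hBd t)
      · have h4 := (hε i hi).mid t
        have h5 := Kr_le L (ρ := ρ) (x := 1 / 2) hδ
          (by rw [abs_sub_comm, abs_of_nonneg (by linarith)]) him t
        have h6 : Real.exp ((1 / 2 - σ) ^ 2 + L * (1 / 2 - σ)) ≤
            Real.exp 1 * Real.exp (L * (1 / 2 - σ)) := by
          rw [← Real.exp_add]
          apply Real.exp_le_exp.2
          nlinarith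
        have h8 : ‖Kr L ρ (pt (1 / 2) t)‖ ≤ κ t := by
          refine h5.trans ?_
          calc Real.exp ((1 / 2 - σ) ^ 2 + L * (1 / 2 - σ)) *
                (Real.exp 1 * Real.exp (-((t - ρ.im) ^ 2) / 2)) / (σ - 1 / 2)
              ≤ (Real.exp 1 * Real.exp (L * (1 / 2 - σ))) *
                (Real.exp 1 * Real.exp (-((t - ρ.im) ^ 2) / 2)) / (σ - 1 / 2) := by gcongr
            _ = κ t := by
                rw [hκdef, hC₁]
                simp only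
                rw [show Real.exp 2 = Real.exp 1 * Real.exp 1 by rw [← Real.exp_add]; norm_num]
                ring
        rw [norm_mul, norm_mul (ε i (pt (1 / 2) t))]
        set q := ‖Dz c (ψ i) N (pt (1 / 2) t) * Ml c (ψ i) X (pt (1 / 2) t)‖
        have hq : 0 ≤ q := norm_nonneg _
        calc ‖ε i (pt (1 / 2) t)‖ * q * ‖Kr L ρ (pt (1 / 2) t)‖ ≤ 1 * q * κ t := by gcongr
          _ = q * κ t := by ring
  -- the left line
  have hsum2 : ∑ i ∈ I, J₂ i ^ 2 ≤ (10 * (2 : ℝ) ^ η * H * ((X : ℝ) ^ 4 * (16 * (1 + P / N) *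
        ((1 + Real.log N) ^ 2 * (N : ℝ) ^ (η + θ - 1))) * S)) *
      (R * V ^ m * Real.exp 4 * Real.exp (-(L * (1 / 2 + σ))) * ((1 + |ρ.im|) ^ m * gI m)) ^ 2 := by
    set C₂ : ℝ := R * V ^ m * Real.exp 4 * Real.exp (-(L * (1 / 2 + σ))) with hC₂
    have hC₂0 : 0 ≤ C₂ := by positivity
    obtain ⟨hi0, hle0⟩ := gint m ρ.im
    set κ : ℝ → ℝ := fun t => C₂ * ((1 + |t|) ^ m * Real.exp (-((t - ρ.im) ^ 2) / 2)) with hκdef
    have hκ : Integrable κ := hi0.const_mul C₂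
    have hκ0 : ∀ t, 0 ≤ κ t := fun t => by positivity
    have hmeas : ∀ i ∈ I, AEStronglyMeasurable (fun t : ℝ => Dt c (ψ i) N (pt (-1 / 2) t) *
        Ml c (ψ i) X (pt (-1 / 2) t)) volume := by
      intro i hi
      have h1 := LSeries_tl_cont hL (hM i hi).le N
      have h2 : Differentiable ℂ (Ml c (ψ i) X) := cut_diff X _
      exact (h1.mul (h2.continuous.comp (pt_cont _))).aestronglyMeasurable
    have hBd := fun t : ℝ => bound_C (c := c) (θ := θ) (S := S) (X := X) hls hm' hL hSB hηθ hN t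
    have h3 := sum_cs I (fun i t => Dt c (ψ i) N (pt (-1 / 2) t) * Ml c (ψ i) X (pt (-1 / 2) t))
      J₂ hκ0 hκ hmeas hBd (fun i _ => norm_nonneg _) (fun i hi => ?_)
    · refine h3.trans ?_
      have h4 : ∫ t, κ t ≤ C₂ * ((1 + |ρ.im|) ^ m * gI m) := by
        rw [hκdef, integral_const_mul]
        exact mul_le_mul_of_nonneg_left hle0 hC₂0
      have h5 : 0 ≤ ∫ t, κ t := integral_nonneg hκ0
      gcongr
    · refine norm_integral_le_of_norm_le (int_norm_mul hκ0 hκ (hmeas i hi)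
        (B := 10 * (2 : ℝ) ^ η * H * ((X : ℝ) ^ 4 * (16 * (1 + P / N) *
        ((1 + Real.log N) ^ 2 * (N : ℝ) ^ (η + θ - 1))) * S)) fun t => ?_)
        (Eventually.of_forall fun t => ?_)
      · exact (Finset.single_le_sum (f := fun i => ‖Dt c (ψ i) N (pt (-1 / 2) t) *
          Ml c (ψ i) X (pt (-1 / 2) t)‖ ^ 2) (fun i _ => by positivity) hi).trans (hBd t)
      · have h4 := (hε i hi).left t
        have h5 := Kr_le L (ρ := ρ) (x := -1 / 2) (δ := 1) one_pos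
          (by rw [abs_sub_comm, abs_of_nonneg (by linarith)]; linarith) him t
        have h6 : Real.exp ((-1 / 2 - σ) ^ 2 + L * (-1 / 2 - σ)) ≤
            Real.exp 3 * Real.exp (-(L * (1 / 2 + σ))) := by
          rw [← Real.exp_add]
          apply Real.exp_le_exp.2
          nlinarith
        have h8 : ‖ε i (pt (-1 / 2) t)‖ * ‖Kr L ρ (pt (-1 / 2) t)‖ ≤ κ t := by
          have h9 : ‖Kr L ρ (pt (-1 / 2) t)‖ ≤ Real.exp 3 * Real.exp (-(L * (1 / 2 + σ))) *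
              (Real.exp 1 * Real.exp (-((t - ρ.im) ^ 2) / 2)) := by
            refine h5.trans ?_
            rw [div_one]
            gcongr
          calc ‖ε i (pt (-1 / 2) t)‖ * ‖Kr L ρ (pt (-1 / 2) t)‖
              ≤ (R * (V * (1 + |t|)) ^ m) * (Real.exp 3 * Real.exp (-(L * (1 / 2 + σ))) *
                (Real.exp 1 * Real.exp (-((t - ρ.im) ^ 2) / 2))) := by gcongr
            _ = κ t := by
                rw [hκdef, hC₂]
                simp only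
                rw [show Real.exp 4 = Real.exp 3 * Real.exp 1 by rw [← Real.exp_add]; norm_num,
                  mul_pow]
                ring
        rw [norm_mul, norm_mul (ε i (pt (-1 / 2) t))]
        set q := ‖Dt c (ψ i) N (pt (-1 / 2) t) * Ml c (ψ i) X (pt (-1 / 2) t)‖
        have hq : 0 ≤ q := norm_nonneg _
        calc ‖ε i (pt (-1 / 2) t)‖ * q * ‖Kr L ρ (pt (-1 / 2) t)‖
            = q * (‖ε i (pt (-1 / 2) t)‖ * ‖Kr L ρ (pt (-1 / 2) t)‖) := by ring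
          _ ≤ q * κ t := by gcongr
  -- conclusion
  have hcard : ∑ i ∈ I, ‖F i ρ * Ml c (ψ i) X ρ - ((Ph L : ℝ) : ℂ)‖ ^ 2 ≤
      3 * (∑ i ∈ I, A i ^ 2 + ∑ i ∈ I, J₁ i ^ 2 + ∑ i ∈ I, J₂ i ^ 2) := by
    refine (Finset.sum_le_sum key).trans (le_of_eq ?_)
    rw [← Finset.mul_sum, Finset.sum_add_distrib, Finset.sum_add_distrib]
  have hY1 : Real.exp (L * (1 / 2 - σ)) ^ 2 = Y ^ (1 - 2 * σ) := by
    rw [← Real.exp_nat_mul, Real.rpow_def_of_pos hY0]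
    congr 1
    push_cast
    ring
  have hY2 : Real.exp (-(L * (1 / 2 + σ))) ^ 2 = Y ^ (-1 - 2 * σ) := by
    rw [← Real.exp_nat_mul, Real.rpow_def_of_pos hY0]
    congr 1
    push_cast
    ring
  set T₁ : ℝ := (P * (X : ℝ) ^ (1 - 2 * σ) + Y ^ (2 - 2 * σ)) *
        ((1 + Real.log Y) ^ 2 * Y ^ (η + θ)) with hT₁
  set T₂ : ℝ := Y ^ (1 - 2 * σ) / (σ - 1 / 2) ^ 2 * ((P + (N * X : ℕ)) *
    ((N * X : ℕ) : ℝ) ^ (η + θ)) with hT₂
  set T₃ : ℝ := (R * (V * (1 + |ρ.im|)) ^ m) ^ 2 * Y ^ (-1 - 2 * σ) * ((X : ℝ) ^ 4 * (1 + P / N) *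
        ((1 + Real.log N) ^ 2 * (N : ℝ) ^ (η + θ - 1))) with hT₃
  have hT₁0 : 0 ≤ T₁ := by positivity
  have hT₂0 : 0 ≤ T₂ := by positivity
  have hT₃0 : 0 ≤ T₃ := by positivity
  have q1 : 3 * ∑ i ∈ I, A i ^ 2 ≤ K₁ * H * S * T₁ := by
    calc 3 * ∑ i ∈ I, A i ^ 2 ≤ 3 * ((10 * (2 : ℝ) ^ η * H * (16 * Real.exp 18 *
      (P * (X : ℝ) ^ (1 - 2 * σ) + Y ^ (2 - 2 * σ)) *
        ((1 + Real.log Y) ^ 2 * Y ^ (η + θ)) * S))) := by gcongr
      _ ≤ 3 * ((10 * 2 * H * (16 * Real.exp 18 *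
      (P * (X : ℝ) ^ (1 - 2 * σ) + Y ^ (2 - 2 * σ)) *
        ((1 + Real.log Y) ^ 2 * Y ^ (η + θ)) * S))) := by gcongr
      _ = _ := by rw [hK₁, hT₁]; ring
  have q2 : 3 * ∑ i ∈ I, J₁ i ^ 2 ≤ K₂ * H * S * T₂ := by
    calc 3 * ∑ i ∈ I, J₁ i ^ 2 ≤ 3 * ((H * (P + (N * X : ℕ)) * ((N * X : ℕ) : ℝ) ^ (η + θ) * S) *
      (Real.exp 2 * Real.exp (L * (1 / 2 - σ)) / (σ - 1 / 2) * gI 0) ^ 2) := by gcongr
      _ = _ := by
        rw [hK₂, hT₂, ← hY1]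
        generalize σ - 1 / 2 = d
        generalize Real.exp (L * (1 / 2 - σ)) = E₁
        generalize ((N * X : ℕ) : ℝ) ^ (η + θ) = E₂
        field_simp
  have q3 : 3 * ∑ i ∈ I, J₂ i ^ 2 ≤ K₃ * H * S * T₃ := by
    calc 3 * ∑ i ∈ I, J₂ i ^ 2 ≤ 3 * ((10 * (2 : ℝ) ^ η * H * ((X : ℝ) ^ 4 * (16 * (1 + P / N) *
        ((1 + Real.log N) ^ 2 * (N : ℝ) ^ (η + θ - 1))) * S)) *
      (R * V ^ m * Real.exp 4 * Real.exp (-(L * (1 / 2 + σ))) *
        ((1 + |ρ.im|) ^ m * gI m)) ^ 2) := by gcongr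
      _ ≤ 3 * ((10 * 2 * H * ((X : ℝ) ^ 4 * (16 * (1 + P / N) *
        ((1 + Real.log N) ^ 2 * (N : ℝ) ^ (η + θ - 1))) * S)) *
      (R * V ^ m * Real.exp 4 * Real.exp (-(L * (1 / 2 + σ))) *
        ((1 + |ρ.im|) ^ m * gI m)) ^ 2) := by gcongr
      _ = _ := by
        rw [hK₃, hT₃, ← hY2, mul_pow V]
        ring
  have hvb : vb m R V P (η + θ) Y σ ρ.im X N = T₁ + T₂ + T₃ := rfl
  rw [hvb]
  calc _ ≤ 3 * (∑ i ∈ I, A i ^ 2 + ∑ i ∈ I, J₁ i ^ 2 + ∑ i ∈ I, J₂ i ^ 2) := hcard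
    _ = 3 * ∑ i ∈ I, A i ^ 2 + 3 * ∑ i ∈ I, J₁ i ^ 2 + 3 * ∑ i ∈ I, J₂ i ^ 2 := by ring
    _ ≤ K₁ * H * S * T₁ + K₂ * H * S * T₂ + K₃ * H * S * T₃ := by linarith
    _ ≤ K₁ * H * S * (T₁ + T₂ + T₃) + K₂ * H * S * (T₁ + T₂ + T₃) +
        K₃ * H * S * (T₁ + T₂ + T₃) := by
        have w1 : T₁ ≤ T₁ + T₂ + T₃ := by linarith
        have w2 : T₂ ≤ T₁ + T₂ + T₃ := by linarith
        have w3 : T₃ ≤ T₁ + T₂ + T₃ := by linarith
        exact add_le_add (add_le_add (mul_le_mul_of_nonneg_left w1 (by positivity))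
          (mul_le_mul_of_nonneg_left w2 (by positivity)))
          (mul_le_mul_of_nonneg_left w3 (by positivity))
    _ = (K₁ + K₂ + K₃) * H * S * (T₁ + T₂ + T₃) := by ring

end Pool.Agent.R399.TM
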